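import Mathlib

/-!
# A positive-kernel form of Plancherel's inequality

For a unimodular phase and an integrable weight, the weighted square integral of an
oscillatory integral is bounded by a double integral with a nonnegative kernel.
-/

namespace Pool.Agent.Restr

open MeasureTheory Set
open scoped ENNReal NNReal

/-- The unimodular number `e^{-ia}`. -/
noncomputable def u (a : ℝ) : ℂ := Complex.exp (-(Complex.I * (a : ℂ)))

theorem norm_u (a : ℝ) : ‖u a‖ = 1 := by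
  unfold u
  rw [show -(Complex.I * (a : ℂ)) = ((-a : ℝ) : ℂ) * Complex.I by push_cast; ring]
  exact Complex.norm_exp_ofReal_mul_I _

theorem enorm_u (a : ℝ) : ‖u a‖ₑ = 1 := by
  rw [← ofReal_norm, norm_u, ENNReal.ofReal_one]

theorem u_add (a b : ℝ) : u (a + b) = u a * u b := by
  unfold u
  rw [← Complex.exp_add]
  congr 1
  push_cast
  ring

theorem u_zero : u 0 = 1 := by
  unfold u
  simp

theorem conj_u (a : ℝ) : (starRingEnd ℂ) (u a) = u (-a) := by
  unfold u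
  rw [← Complex.exp_conj]
  congr 1
  simp

theorem u_sub (a b : ℝ) : u (a - b) = u a * (starRingEnd ℂ) (u b) := by
  rw [conj_u, ← u_add, sub_eq_add_neg]

theorem continuous_u : Continuous u := by
  unfold u
  fun_prop

theorem measurable_u : Measurable u := continuous_u.measurable

variable {X W : Type*} [MeasurableSpace X] [MeasurableSpace W]

/-- The weighted square integral of an oscillatory integral is at most a double integral
against the absolute value of the transform of the weight. -/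
theorem lintegral_sq_le {μ : Measure X} {ν : Measure W} [SFinite μ] [SFinite ν]
    {G : X → ℂ} (hG : Integrable G μ) {p : W → X → ℝ} (hp : Measurable (Function.uncurry p))
    {ρ : W → ℝ} (hρ : Integrable ρ ν) (hρ0 : ∀ w, 0 ≤ ρ w) :
    ∫⁻ w, ‖∫ x, u (p w x) * G x ∂μ‖ₑ ^ 2 * ENNReal.ofReal (ρ w) ∂ν ≤
      ∫⁻ x, ∫⁻ y, ‖G x‖ₑ * ‖G y‖ₑ * ‖∫ w, (ρ w : ℂ) * u (p w x - p w y) ∂ν‖ₑ ∂μ ∂μ := by
  -- the joint integrand
  set H : W → X × X → ℂ := fun w z => (ρ w : ℂ) * (u (p w z.1 - p w z.2) *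
    (G z.1 * (starRingEnd ℂ) (G z.2))) with hH
  have hGG : Integrable (fun z : X × X => G z.1 * (starRingEnd ℂ) (G z.2)) (μ.prod μ) := by
    have h2 : Integrable (fun x => (starRingEnd ℂ) (G x)) μ :=
      ContinuousLinearMap.integrable_comp (Complex.conjCLE : ℂ →L[ℝ] ℂ) hG
    exact hG.mul_prod h2
  have hmeas : AEStronglyMeasurable (Function.uncurry H) (ν.prod (μ.prod μ)) := by
    have h1 : AEStronglyMeasurable (fun a : W × (X × X) => (ρ a.1 : ℂ)) (ν.prod (μ.prod μ)) :=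
      (Complex.continuous_ofReal.comp_aestronglyMeasurable
        (hρ.aestronglyMeasurable.comp_fst))
    have h2 : AEStronglyMeasurable (fun a : W × (X × X) => u (p a.1 a.2.1 - p a.1 a.2.2))
        (ν.prod (μ.prod μ)) := by
      have e1 : Measurable (fun a : W × (X × X) => p a.1 a.2.1) :=
        hp.comp (measurable_fst.prodMk (measurable_fst.comp measurable_snd))
      have e2 : Measurable (fun a : W × (X × X) => p a.1 a.2.2) :=
        hp.comp (measurable_fst.prodMk (measurable_snd.comp measurable_snd))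
      exact (measurable_u.comp (e1.sub e2)).aestronglyMeasurable
    have h3 : AEStronglyMeasurable (fun a : W × (X × X) => G a.2.1 * (starRingEnd ℂ) (G a.2.2))
        (ν.prod (μ.prod μ)) := hGG.aestronglyMeasurable.comp_snd
    exact h1.mul (h2.mul h3)
  have hint : Integrable (Function.uncurry H) (ν.prod (μ.prod μ)) := by
    have hb : Integrable (fun a : W × (X × X) => ρ a.1 * ‖G a.2.1 * (starRingEnd ℂ) (G a.2.2)‖)
        (ν.prod (μ.prod μ)) := hρ.mul_prod hGG.norm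
    refine hb.mono' hmeas (Filter.Eventually.of_forall fun a => ?_)
    change ‖(ρ a.1 : ℂ) * (u (p a.1 a.2.1 - p a.1 a.2.2) *
      (G a.2.1 * (starRingEnd ℂ) (G a.2.2)))‖ ≤ _
    rw [norm_mul, norm_mul, norm_u, one_mul, Complex.norm_real, Real.norm_of_nonneg (hρ0 _)]
  -- the square as a double integral
  have hsq : ∀ w, ∫ z, H w z ∂(μ.prod μ) =
      ((ρ w * ‖∫ x, u (p w x) * G x ∂μ‖ ^ 2 : ℝ) : ℂ) := by
    intro w
    have e1 : ∀ z : X × X, H w z = (ρ w : ℂ) * ((u (p w z.1) * G z.1) *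
        (starRingEnd ℂ) (u (p w z.2) * G z.2)) := by
      intro z
      simp only [hH, u_sub, map_mul]
      ring
    simp_rw [e1]
    rw [integral_const_mul, integral_prod_mul (fun x => u (p w x) * G x)
      (fun x => (starRingEnd ℂ) (u (p w x) * G x)), integral_conj, Complex.mul_conj]
    push_cast
    rw [Complex.normSq_eq_norm_sq]
    push_cast
    ring
  have hΦint : Integrable (fun w => ρ w * ‖∫ x, u (p w x) * G x ∂μ‖ ^ 2) ν := by
    have h1 := hint.integral_prod_left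
    have h2 : Integrable (fun w => ‖∫ z, H w z ∂(μ.prod μ)‖) ν := h1.norm
    refine h2.congr (Filter.Eventually.of_forall fun w => ?_)
    change ‖∫ z, H w z ∂(μ.prod μ)‖ = _
    rw [hsq w, Complex.norm_real, Real.norm_of_nonneg
      (mul_nonneg (hρ0 w) (by positivity))]
  -- left-hand side as a real integral
  have hL : ∫⁻ w, ‖∫ x, u (p w x) * G x ∂μ‖ₑ ^ 2 * ENNReal.ofReal (ρ w) ∂ν =
      ENNReal.ofReal (∫ w, ρ w * ‖∫ x, u (p w x) * G x ∂μ‖ ^ 2 ∂ν) := by
    rw [ofReal_integral_eq_lintegral_ofReal hΦint (Filter.Eventually.of_forall fun w =>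
      mul_nonneg (hρ0 w) (by positivity))]
    refine lintegral_congr fun w => ?_
    rw [ENNReal.ofReal_mul (hρ0 w), ENNReal.ofReal_pow (norm_nonneg _), ofReal_norm,
      mul_comm]
  have hC : ((∫ w, ρ w * ‖∫ x, u (p w x) * G x ∂μ‖ ^ 2 ∂ν : ℝ) : ℂ) =
      ∫ z, ∫ w, H w z ∂ν ∂(μ.prod μ) := by
    rw [← integral_integral_swap hint, ← integral_complex_ofReal]
    refine integral_congr_ae (Filter.Eventually.of_forall fun w => ?_)
    exact (hsq w).symm
  have hN : ENNReal.ofReal (∫ w, ρ w * ‖∫ x, u (p w x) * G x ∂μ‖ ^ 2 ∂ν) ≤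
      ∫⁻ z, ‖∫ w, H w z ∂ν‖ₑ ∂(μ.prod μ) := by
    refine le_trans ?_ (enorm_integral_le_lintegral_enorm _)
    rw [← hC]
    rw [← ofReal_norm, Complex.norm_real]
    exact ENNReal.ofReal_le_ofReal (Real.le_norm_self _)
  rw [hL]
  refine hN.trans ?_
  have hm : AEMeasurable (fun z : X × X => ‖∫ w, H w z ∂ν‖ₑ) (μ.prod μ) := by
    have := hint.swap.integral_prod_left.aestronglyMeasurable
    exact this.enorm
  rw [lintegral_prod _ hm]
  refine lintegral_mono fun x => lintegral_mono fun y => ?_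
  change ‖∫ w, (ρ w : ℂ) * (u (p w x - p w y) * (G x * (starRingEnd ℂ) (G y))) ∂ν‖ₑ ≤ _
  have e2 : ∀ w, (ρ w : ℂ) * (u (p w x - p w y) * (G x * (starRingEnd ℂ) (G y))) =
      (G x * (starRingEnd ℂ) (G y)) * ((ρ w : ℂ) * u (p w x - p w y)) := by
    intro w; ring
  simp_rw [e2]
  rw [integral_const_mul, enorm_mul, enorm_mul]
  have e3 : ‖(starRingEnd ℂ) (G y)‖ₑ = ‖G y‖ₑ := by
    rw [← ofReal_norm, RCLike.norm_conj, ofReal_norm]
  rw [e3]

theorem two_mul_mul_le (s t : ℝ≥0∞) : 2 * (s * t) ≤ s ^ 2 + t ^ 2 := by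
  rcases eq_or_ne s ⊤ with rfl | hs'
  · simp
  rcases eq_or_ne t ⊤ with rfl | ht'
  · simp
  lift s to ℝ≥0 using hs'
  lift t to ℝ≥0 using ht'
  norm_cast
  have := sq_nonneg ((s : ℝ) - t)
  rw [← NNReal.coe_le_coe]
  push_cast
  nlinarith

/-- Schur's test for a symmetric kernel. -/
theorem schur {μ : Measure X} [SFinite μ] {a : X → ℝ≥0∞} (ha : AEMeasurable a μ)
    {k : X → X → ℝ≥0∞} (hk : Measurable (Function.uncurry k)) (hs : ∀ x y, k x y = k y x) :
    ∫⁻ x, ∫⁻ y, a x * a y * k x y ∂μ ∂μ ≤ ∫⁻ x, a x ^ 2 * ∫⁻ y, k x y ∂μ ∂μ := by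
  have h2 := two_mul_mul_le
  have hx : ∀ x, Measurable (k x) := fun x => hk.comp measurable_prodMk_left
  have key : 2 * ∫⁻ x, ∫⁻ y, a x * a y * k x y ∂μ ∂μ ≤
      2 * ∫⁻ x, a x ^ 2 * ∫⁻ y, k x y ∂μ ∂μ := by
    have m1 : AEMeasurable (fun z : X × X => a z.1 * a z.2 * k z.1 z.2) (μ.prod μ) :=
      (ha.comp_fst.mul ha.comp_snd).mul hk.aemeasurable
    have m2 : AEMeasurable (fun z : X × X => a z.1 ^ 2 * k z.1 z.2) (μ.prod μ) :=
      (ha.comp_fst.pow_const 2).mul hk.aemeasurable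
    have m3 : AEMeasurable (fun z : X × X => a z.2 ^ 2 * k z.1 z.2) (μ.prod μ) :=
      (ha.comp_snd.pow_const 2).mul hk.aemeasurable
    have e1 : ∫⁻ x, ∫⁻ y, a x * a y * k x y ∂μ ∂μ =
        ∫⁻ z, a z.1 * a z.2 * k z.1 z.2 ∂(μ.prod μ) := (lintegral_prod _ m1).symm
    have e2 : ∫⁻ x, a x ^ 2 * ∫⁻ y, k x y ∂μ ∂μ = ∫⁻ z, a z.1 ^ 2 * k z.1 z.2 ∂(μ.prod μ) := by
      rw [lintegral_prod _ m2]
      refine lintegral_congr fun x => ?_
      change _ = ∫⁻ y, a x ^ 2 * k x y ∂μ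
      rw [lintegral_const_mul _ (hx x)]
    have e3 : ∫⁻ x, a x ^ 2 * ∫⁻ y, k x y ∂μ ∂μ = ∫⁻ z, a z.2 ^ 2 * k z.1 z.2 ∂(μ.prod μ) := by
      rw [lintegral_prod_symm _ m3]
      refine lintegral_congr fun x => ?_
      rw [← lintegral_const_mul _ (hx x)]
      refine lintegral_congr fun y => ?_
      rw [hs x y]
    rw [e1]
    calc 2 * ∫⁻ z, a z.1 * a z.2 * k z.1 z.2 ∂(μ.prod μ)
        = ∫⁻ z, 2 * (a z.1 * a z.2 * k z.1 z.2) ∂(μ.prod μ) := (lintegral_const_mul'' _ m1).symm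
      _ ≤ ∫⁻ z, (a z.1 ^ 2 * k z.1 z.2 + a z.2 ^ 2 * k z.1 z.2) ∂(μ.prod μ) := by
          refine lintegral_mono fun z => ?_
          calc 2 * (a z.1 * a z.2 * k z.1 z.2) = (2 * (a z.1 * a z.2)) * k z.1 z.2 := by ring
            _ ≤ (a z.1 ^ 2 + a z.2 ^ 2) * k z.1 z.2 := by gcongr; exact h2 _ _
            _ = _ := by ring
      _ = ∫⁻ z, a z.1 ^ 2 * k z.1 z.2 ∂(μ.prod μ) + ∫⁻ z, a z.2 ^ 2 * k z.1 z.2 ∂(μ.prod μ) :=
          lintegral_add_left' m2 _
      _ = 2 * ∫⁻ x, a x ^ 2 * ∫⁻ y, k x y ∂μ ∂μ := by rw [← e2, ← e3, two_mul]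
  exact (ENNReal.mul_le_mul_iff_right (by norm_num) (by norm_num)).1 key

end Pool.Agent.Restr
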