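import Mathlib
import Pool.Agent.Restr.Kernel

/-!
# Good weights on `ℝ`, `ℝ × ℝ` and `ℝ × ℝ × ℝ`

A weight `ρ` with transform dominated by a kernel `κ` of finite mass; Gaussian weights on the
line, products, and the resulting Plancherel-type inequality.
-/

namespace Pool.Agent.Restr

open MeasureTheory Set Filter
open scoped ENNReal NNReal Topology

/-- A weight `ρ` on `V` (dual variable) whose transform is dominated by the even kernel `κ`
of mass at most `c`. -/
structure Good {V : Type*} [AddCommGroup V] [MeasurableSpace V] (m : Measure V)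
    (b : V → V → ℝ) (ρ : V → ℝ) (κ : V → ℝ≥0∞) (c : ℝ≥0∞) : Prop where
  meas_b : Measurable (Function.uncurry b)
  sub_b : ∀ w v v', b w v - b w v' = b w (v - v')
  int_ρ : Integrable ρ m
  nonneg : ∀ w, 0 ≤ ρ w
  meas_κ : Measurable κ
  symm_κ : ∀ v, κ (-v) = κ v
  bound : ∀ v, ‖∫ w, (ρ w : ℂ) * u (b w v) ∂m‖ₑ ≤ κ v
  mass : ∀ v, ∫⁻ v', κ (v - v') ∂m ≤ c

/-- Weighted Plancherel inequality with the kernel of a good weight. -/
theorem Good.lintegral_le {V : Type*} [AddCommGroup V] [MeasurableSpace V] [MeasurableSub₂ V]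
    {m : Measure V} [SFinite m]
    {b : V → V → ℝ} {ρ : V → ℝ} {κ : V → ℝ≥0∞} {c : ℝ≥0∞} (h : Good m b ρ κ c)
    {X : Type*} [MeasurableSpace X] {μ : Measure X} [SFinite μ] {s : X → V} (hs : Measurable s)
    (G : X → ℂ) :
    ∫⁻ w, ‖∫ x, u (b w (s x)) * G x ∂μ‖ₑ ^ 2 * ENNReal.ofReal (ρ w) ∂m ≤
      ∫⁻ x, ‖G x‖ₑ ^ 2 * ∫⁻ y, κ (s x - s y) ∂μ ∂μ := by
  by_cases hG : Integrable G μ
  · have hp : Measurable (Function.uncurry fun (w : V) (x : X) => b w (s x)) :=
      h.meas_b.comp (measurable_fst.prodMk (hs.comp measurable_snd))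
    refine (lintegral_sq_le hG hp h.int_ρ h.nonneg).trans ?_
    have hk : Measurable (Function.uncurry fun x y : X => κ (s x - s y)) :=
      h.meas_κ.comp ((hs.comp measurable_fst).sub (hs.comp measurable_snd))
    refine le_trans ?_ (schur (a := fun x => ‖G x‖ₑ) hG.aestronglyMeasurable.enorm hk ?_)
    · refine lintegral_mono fun x => lintegral_mono fun y => ?_
      dsimp only
      gcongr
      have := h.bound (s x - s y)
      simpa only [h.sub_b] using this
    · intro x y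
      rw [← neg_sub, h.symm_κ]
  · have h0 : ∀ w, ∫ x, u (b w (s x)) * G x ∂μ = 0 := by
      intro w
      refine integral_undef fun hi => hG ?_
      have hm : Measurable (fun x => (starRingEnd ℂ) (u (b w (s x)))) := by
        have : Measurable (fun x => u (b w (s x))) := measurable_u.comp
          (h.meas_b.comp (measurable_const.prodMk hs))
        exact Complex.continuous_conj.measurable.comp this
      have h1 : Integrable (fun x => (starRingEnd ℂ) (u (b w (s x))) *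
          (u (b w (s x)) * G x)) μ := by
        refine hi.bdd_mul (c := 1) hm.aestronglyMeasurable (Eventually.of_forall fun x => ?_)
        rw [RCLike.norm_conj, norm_u]
      refine h1.congr (Eventually.of_forall fun x => ?_)
      change (starRingEnd ℂ) (u (b w (s x))) * (u (b w (s x)) * G x) = G x
      rw [← mul_assoc, conj_u, ← u_add, neg_add_cancel, u_zero, one_mul]
    simp only [h0]
    simp

/-- Products of good weights. -/
theorem Good.prod {V V' : Type*} [AddCommGroup V] [MeasurableSpace V] [AddCommGroup V']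
    [MeasurableSpace V'] [MeasurableSub₂ V] [MeasurableSub₂ V']
    {m : Measure V} {m' : Measure V'} [SFinite m] [SFinite m']
    {b : V → V → ℝ} {ρ : V → ℝ} {κ : V → ℝ≥0∞} {c : ℝ≥0∞}
    {b' : V' → V' → ℝ} {ρ' : V' → ℝ} {κ' : V' → ℝ≥0∞} {c' : ℝ≥0∞}
    (h : Good m b ρ κ c) (h' : Good m' b' ρ' κ' c') :
    Good (m.prod m') (fun w v => b w.1 v.1 + b' w.2 v.2) (fun w => ρ w.1 * ρ' w.2)
      (fun v => κ v.1 * κ' v.2) (c * c') where
  meas_b := by
    have e1 : Measurable (fun a : (V × V') × (V × V') => b a.1.1 a.2.1) :=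
      h.meas_b.comp ((measurable_fst.comp measurable_fst).prodMk
        (measurable_fst.comp measurable_snd))
    have e2 : Measurable (fun a : (V × V') × (V × V') => b' a.1.2 a.2.2) :=
      h'.meas_b.comp ((measurable_snd.comp measurable_fst).prodMk
        (measurable_snd.comp measurable_snd))
    exact e1.add e2
  sub_b := by
    intro w v v'
    simp only [Prod.fst_sub, Prod.snd_sub, ← h.sub_b, ← h'.sub_b]
    ring
  int_ρ := h.int_ρ.mul_prod h'.int_ρ
  nonneg := fun w => mul_nonneg (h.nonneg _) (h'.nonneg _)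
  meas_κ := (h.meas_κ.comp measurable_fst).mul (h'.meas_κ.comp measurable_snd)
  symm_κ := by
    intro v
    simp only [Prod.fst_neg, Prod.snd_neg, h.symm_κ, h'.symm_κ]
  bound := by
    intro v
    have e : ∀ w : V × V', ((ρ w.1 * ρ' w.2 : ℝ) : ℂ) * u (b w.1 v.1 + b' w.2 v.2) =
        ((ρ w.1 : ℂ) * u (b w.1 v.1)) * ((ρ' w.2 : ℂ) * u (b' w.2 v.2)) := by
      intro w
      rw [u_add]
      push_cast
      ring
    simp_rw [e]
    rw [integral_prod_mul (fun w => (ρ w : ℂ) * u (b w v.1))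
      (fun w => (ρ' w : ℂ) * u (b' w v.2)), enorm_mul]
    gcongr
    · exact h.bound _
    · exact h'.bound _
  mass := by
    intro v
    have hm : Measurable (fun v' : V × V' => κ (v - v').1 * κ' (v - v').2) := by
      have e1 : Measurable (fun v' : V × V' => (v - v').1) := by
        change Measurable (fun v' : V × V' => v.1 - v'.1)
        exact measurable_const.sub measurable_fst
      have e2 : Measurable (fun v' : V × V' => (v - v').2) := by
        change Measurable (fun v' : V × V' => v.2 - v'.2)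
        exact measurable_const.sub measurable_snd
      exact (h.meas_κ.comp e1).mul (h'.meas_κ.comp e2)
    have e3 : Measurable (fun a => κ (v.1 - a)) := h.meas_κ.comp (measurable_const.sub measurable_id)
    have e4 : Measurable (fun a => κ' (v.2 - a)) :=
      h'.meas_κ.comp (measurable_const.sub measurable_id)
    calc ∫⁻ v', κ (v - v').1 * κ' (v - v').2 ∂(m.prod m')
        = ∫⁻ v', κ (v.1 - v'.1) * κ' (v.2 - v'.2) ∂(m.prod m') := rfl
      _ = (∫⁻ a, κ (v.1 - a) ∂m) * ∫⁻ a, κ' (v.2 - a) ∂m' :=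
          lintegral_prod_mul e3.aemeasurable e4.aemeasurable
      _ ≤ c * c' := mul_le_mul' (h.mass _) (h'.mass _)

/-- The Gaussian kernel. -/
noncomputable def gk (ε a : ℝ) : ℝ := √(Real.pi / ε) * Real.exp (-a ^ 2 / (4 * ε))

theorem gk_nonneg (ε a : ℝ) : 0 ≤ gk ε a := by unfold gk; positivity

theorem gk_le {ε : ℝ} (hε : 0 < ε) (a : ℝ) : gk ε a ≤ √(Real.pi / ε) := by
  unfold gk
  refine mul_le_of_le_one_right (Real.sqrt_nonneg _) ?_
  rw [Real.exp_le_one_iff]
  apply div_nonpos_of_nonpos_of_nonneg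
  · nlinarith [sq_nonneg a]
  · positivity

theorem continuous_gk (ε : ℝ) : Continuous (gk ε) := by
  unfold gk
  fun_prop

theorem lintegral_gk {ε : ℝ} (hε : 0 < ε) : ∫⁻ a, ENNReal.ofReal (gk ε a) =
    ENNReal.ofReal (2 * Real.pi) := by
  have hi : Integrable (gk ε) := by
    unfold gk
    have := (integrable_exp_neg_mul_sq (b := 1 / (4 * ε)) (by positivity)).const_mul
      (√(Real.pi / ε))
    refine this.congr (Eventually.of_forall fun a => ?_)
    simp only
    congr 2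
    field_simp
  rw [← ofReal_integral_eq_lintegral_ofReal hi (Eventually.of_forall fun a => gk_nonneg ε a)]
  congr 1
  have e : ∀ a, gk ε a = √(Real.pi / ε) * Real.exp (-(1 / (4 * ε)) * a ^ 2) := by
    intro a
    unfold gk
    congr 2
    field_simp
  simp_rw [e]
  rw [integral_const_mul, integral_gaussian, ← Real.sqrt_mul (by positivity)]
  rw [show Real.pi / ε * (Real.pi / (1 / (4 * ε))) = (2 * Real.pi) ^ 2 by field_simp; ring]
  exact Real.sqrt_sq (by positivity)

theorem lintegral_gk_sub {ε : ℝ} (hε : 0 < ε) (v : ℝ) : ∫⁻ a, ENNReal.ofReal (gk ε (v - a)) =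
    ENNReal.ofReal (2 * Real.pi) := by
  rw [lintegral_sub_left_eq_self (fun a => ENNReal.ofReal (gk ε a)) v]
  exact lintegral_gk hε

/-- The Gaussian weight on the line is good. -/
theorem good_gauss {ε : ℝ} (hε : 0 < ε) :
    Good (volume : Measure ℝ) (fun w v => w * v) (fun w => Real.exp (-ε * w ^ 2))
      (fun v => ENNReal.ofReal (gk ε v)) (ENNReal.ofReal (2 * Real.pi)) where
  meas_b := by
    change Measurable (fun a : ℝ × ℝ => a.1 * a.2)
    fun_prop
  sub_b := by intro w v v'; ring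
  int_ρ := integrable_exp_neg_mul_sq hε
  nonneg := fun w => (Real.exp_pos _).le
  meas_κ := (continuous_gk ε).measurable.ennreal_ofReal
  symm_κ := by intro v; simp [gk]
  bound := by
    intro v
    have e : ∀ w : ℝ, ((Real.exp (-ε * w ^ 2) : ℝ) : ℂ) * u (w * v) =
        Complex.exp (Complex.I * ((-v : ℝ) : ℂ) * w) * Complex.exp (-(ε : ℂ) * w ^ 2) := by
      intro w
      unfold u
      rw [Complex.ofReal_exp, ← Complex.exp_add, ← Complex.exp_add]
      congr 1
      push_cast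
      ring
    simp_rw [e]
    rw [fourierIntegral_gaussian (by simpa using hε)]
    have e2 : ((Real.pi : ℂ) / (ε : ℂ)) ^ (1 / 2 : ℂ) *
        Complex.exp (-((-v : ℝ) : ℂ) ^ 2 / (4 * (ε : ℂ))) = ((gk ε v : ℝ) : ℂ) := by
      unfold gk
      rw [Real.sqrt_eq_rpow]
      push_cast
      rw [Complex.ofReal_cpow (by positivity)]
      push_cast
      ring_nf
    rw [e2, ← ofReal_norm, Complex.norm_real, Real.norm_of_nonneg (gk_nonneg _ _)]
  mass := fun v => (lintegral_gk_sub hε v).le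

/-- Removing the weight by Fatou's lemma. -/
theorem lintegral_le_of_weights {V : Type*} [MeasurableSpace V] {m : Measure V}
    {F : V → ℝ≥0∞} (hF : Measurable F) {ρ : ℕ → V → ℝ} (hρ : ∀ n, Measurable (ρ n))
    (hlim : ∀ w, Tendsto (fun n => ρ n w) atTop (𝓝 1)) {B : ℝ≥0∞}
    (hB : ∀ n, ∫⁻ w, F w * ENNReal.ofReal (ρ n w) ∂m ≤ B) : ∫⁻ w, F w ∂m ≤ B := by
  have h1 : ∀ w, Tendsto (fun n => F w * ENNReal.ofReal (ρ n w)) atTop (𝓝 (F w)) := by
    intro w
    have h2 : Tendsto (fun n => ENNReal.ofReal (ρ n w)) atTop (𝓝 1) := by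
      have := ENNReal.tendsto_ofReal (hlim w)
      simpa using this
    have := ENNReal.Tendsto.const_mul (a := F w) h2 (Or.inl (by norm_num))
    simpa using this
  calc ∫⁻ w, F w ∂m = ∫⁻ w, liminf (fun n => F w * ENNReal.ofReal (ρ n w)) atTop ∂m := by
        refine lintegral_congr fun w => ?_
        exact (h1 w).liminf_eq.symm
    _ ≤ liminf (fun n => ∫⁻ w, F w * ENNReal.ofReal (ρ n w) ∂m) atTop :=
        lintegral_liminf_le fun n => hF.mul (hρ n).ennreal_ofReal
    _ ≤ B := by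
        refine liminf_le_of_frequently_le' ?_
        exact Frequently.of_forall hB

theorem tendsto_weight (w : ℝ) :
    Tendsto (fun n : ℕ => Real.exp (-(1 / ((n : ℝ) + 1)) * w ^ 2)) atTop (𝓝 1) := by
  have h0 : Tendsto (fun n : ℕ => 1 / ((n : ℝ) + 1)) atTop (𝓝 0) :=
    tendsto_one_div_add_atTop_nhds_zero_nat
  have h1 : Tendsto (fun n : ℕ => -(1 / ((n : ℝ) + 1)) * w ^ 2) atTop (𝓝 (-0 * w ^ 2)) :=
    h0.neg.mul_const _
  have h2 : Tendsto (fun n : ℕ => Real.exp (-(1 / ((n : ℝ) + 1)) * w ^ 2)) atTop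
      (𝓝 (Real.exp (-0 * w ^ 2))) := (Real.continuous_exp.tendsto _).comp h1
  simpa using h2

/-- Weighted Plancherel inequality when the push-forward measure is dominated. -/
theorem Good.lintegral_le_mul {V : Type*} [AddCommGroup V] [MeasurableSpace V]
    [MeasurableSub₂ V] {m : Measure V} [SFinite m]
    {b : V → V → ℝ} {ρ : V → ℝ} {κ : V → ℝ≥0∞} {c : ℝ≥0∞} (h : Good m b ρ κ c)
    {X : Type*} [MeasurableSpace X] {μ : Measure X} [SFinite μ] {s : X → V} (hs : Measurable s)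
    {C : ℝ≥0∞} (hC : ∀ φ : V → ℝ≥0∞, Measurable φ → ∫⁻ x, φ (s x) ∂μ ≤ C * ∫⁻ v, φ v ∂m)
    {G : X → ℂ} (hG : AEStronglyMeasurable G μ) :
    ∫⁻ w, ‖∫ x, u (b w (s x)) * G x ∂μ‖ₑ ^ 2 * ENNReal.ofReal (ρ w) ∂m ≤
      C * c * ∫⁻ x, ‖G x‖ₑ ^ 2 ∂μ := by
  refine (h.lintegral_le hs G).trans ?_
  have h1 : ∀ x, ∫⁻ y, κ (s x - s y) ∂μ ≤ C * c := by
    intro x
    refine (hC (fun v => κ (s x - v)) (h.meas_κ.comp (measurable_const.sub measurable_id))).trans ?_
    gcongr
    exact h.mass _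
  calc ∫⁻ x, ‖G x‖ₑ ^ 2 * ∫⁻ y, κ (s x - s y) ∂μ ∂μ
      ≤ ∫⁻ x, ‖G x‖ₑ ^ 2 * (C * c) ∂μ := lintegral_mono fun x => by gcongr; exact h1 x
    _ = (∫⁻ x, ‖G x‖ₑ ^ 2 ∂μ) * (C * c) := lintegral_mul_const'' _ (hG.enorm.pow_const 2)
    _ = _ := mul_comm _ _

/-- The weighted integrals increase to the unweighted one. -/
theorem plancherel_of_good {V : Type*} [AddCommGroup V] [MeasurableSpace V]
    [MeasurableSub₂ V] {m : Measure V} [SFinite m]
    {b : V → V → ℝ} {ρ : ℕ → V → ℝ} {κ : ℕ → V → ℝ≥0∞} {c : ℝ≥0∞}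
    (h : ∀ n, Good m b (ρ n) (κ n) c) (hρ : ∀ n, Measurable (ρ n))
    (hlim : ∀ w, Tendsto (fun n => ρ n w) atTop (𝓝 1))
    {X : Type*} [MeasurableSpace X] {μ : Measure X} [SFinite μ] {s : X → V} (hs : Measurable s)
    {C : ℝ≥0∞} (hC : ∀ φ : V → ℝ≥0∞, Measurable φ → ∫⁻ x, φ (s x) ∂μ ≤ C * ∫⁻ v, φ v ∂m)
    {G : X → ℂ} (hG : Measurable G) :
    ∫⁻ w, ‖∫ x, u (b w (s x)) * G x ∂μ‖ₑ ^ 2 ∂m ≤ C * c * ∫⁻ x, ‖G x‖ₑ ^ 2 ∂μ := by
  refine lintegral_le_of_weights ?_ hρ hlim
    (fun n => (h n).lintegral_le_mul hs hC hG.aestronglyMeasurable)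
  have h1 : StronglyMeasurable (fun w => ∫ x, u (b w (s x)) * G x ∂μ) := by
    apply StronglyMeasurable.integral_prod_right (f := fun w x => u (b w (s x)) * G x)
    apply Measurable.stronglyMeasurable
    refine Measurable.mul ?_ (hG.comp measurable_snd)
    exact measurable_u.comp ((h 0).meas_b.comp (measurable_fst.prodMk (hs.comp measurable_snd)))
  exact h1.measurable.enorm.pow_const 2

/-- One-dimensional Plancherel inequality. -/
theorem plancherel1 {X : Type*} [MeasurableSpace X] {μ : Measure X} [SFinite μ] {s : X → ℝ}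
    (hs : Measurable s) {C : ℝ≥0∞}
    (hC : ∀ φ : ℝ → ℝ≥0∞, Measurable φ → ∫⁻ x, φ (s x) ∂μ ≤ C * ∫⁻ v, φ v)
    {G : X → ℂ} (hG : Measurable G) :
    ∫⁻ w : ℝ, ‖∫ x, u (w * s x) * G x ∂μ‖ₑ ^ 2 ≤
      C * ENNReal.ofReal (2 * Real.pi) * ∫⁻ x, ‖G x‖ₑ ^ 2 ∂μ :=
  plancherel_of_good (fun n : ℕ => good_gauss (ε := 1 / ((n : ℝ) + 1)) (by positivity))
    (fun n => by fun_prop) tendsto_weight hs hC hG

/-- Two-dimensional Plancherel inequality. -/
theorem plancherel2 {X : Type*} [MeasurableSpace X] {μ : Measure X} [SFinite μ] {s : X → ℝ × ℝ}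
    (hs : Measurable s) {C : ℝ≥0∞}
    (hC : ∀ φ : ℝ × ℝ → ℝ≥0∞, Measurable φ → ∫⁻ x, φ (s x) ∂μ ≤ C * ∫⁻ v, φ v)
    {G : X → ℂ} (hG : Measurable G) :
    ∫⁻ w : ℝ × ℝ, ‖∫ x, u (w.1 * (s x).1 + w.2 * (s x).2) * G x ∂μ‖ₑ ^ 2 ≤
      C * (ENNReal.ofReal (2 * Real.pi) * ENNReal.ofReal (2 * Real.pi)) *
        ∫⁻ x, ‖G x‖ₑ ^ 2 ∂μ := by
  refine plancherel_of_good (fun n : ℕ =>
    (good_gauss (ε := 1 / ((n : ℝ) + 1)) (by positivity)).prod
      (good_gauss (ε := 1 / ((n : ℝ) + 1)) (by positivity)))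
    (fun n => by fun_prop) (fun w => ?_) hs hC hG
  simpa using (tendsto_weight w.1).mul (tendsto_weight w.2)

/-- Three-dimensional Plancherel inequality. -/
theorem plancherel3 {X : Type*} [MeasurableSpace X] {μ : Measure X} [SFinite μ]
    {s : X → ℝ × ℝ × ℝ}
    (hs : Measurable s) {C : ℝ≥0∞}
    (hC : ∀ φ : ℝ × ℝ × ℝ → ℝ≥0∞, Measurable φ → ∫⁻ x, φ (s x) ∂μ ≤ C * ∫⁻ v, φ v)
    {G : X → ℂ} (hG : Measurable G) :
    ∫⁻ w : ℝ × ℝ × ℝ, ‖∫ x, u (w.1 * (s x).1 + (w.2.1 * (s x).2.1 + w.2.2 * (s x).2.2)) *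
        G x ∂μ‖ₑ ^ 2 ≤
      C * (ENNReal.ofReal (2 * Real.pi) * (ENNReal.ofReal (2 * Real.pi) *
        ENNReal.ofReal (2 * Real.pi))) * ∫⁻ x, ‖G x‖ₑ ^ 2 ∂μ := by
  refine plancherel_of_good (fun n : ℕ =>
    (good_gauss (ε := 1 / ((n : ℝ) + 1)) (by positivity)).prod
      ((good_gauss (ε := 1 / ((n : ℝ) + 1)) (by positivity)).prod
      (good_gauss (ε := 1 / ((n : ℝ) + 1)) (by positivity))))
    (fun n => by fun_prop) (fun w => ?_) hs hC hG
  simpa using (tendsto_weight w.1).mul ((tendsto_weight w.2.1).mul (tendsto_weight w.2.2))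

end Pool.Agent.Restr
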