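import Mathlib
import Pool.Agent.Restr.Good

/-!
# A fourth power estimate for the extension operator of the parabola on a time block
-/

namespace Pool.Agent.Restr

open MeasureTheory Set Filter
open scoped ENNReal NNReal Topology

/-- The extension operator of the parabola in the plane. -/
noncomputable def E1 (g : ℝ → ℂ) (w : ℝ × ℝ) : ℂ :=
  ∫ x : ℝ, u (w.1 * x + w.2 * x ^ 2) * g x

theorem lintegral_comp_affine {f : ℝ → ℝ≥0∞} (hf : Measurable f) {a : ℝ} (ha : a ≠ 0) (c : ℝ) :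
    ∫⁻ y, f (c - a * y) = ENNReal.ofReal |a⁻¹| * ∫⁻ y, f y := by
  have h1 : ∫⁻ y, f (c - a * y) = ∫⁻ y, f (c - y) ∂(Measure.map (a * ·) volume) := by
    rw [lintegral_map (by fun_prop) (by fun_prop)]
  rw [h1, Real.map_volume_mul_left ha, lintegral_smul_measure, smul_eq_mul,
    lintegral_sub_left_eq_self f c]

/-- The unit interval centred at the origin, as a measure. -/
noncomputable def μI : Measure ℝ := volume.restrict (Icc (-(1 / 2)) (1 / 2))

instance : SFinite μI := by unfold μI; infer_instance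

theorem μI_univ : μI univ = 1 := by
  unfold μI
  rw [Measure.restrict_apply MeasurableSet.univ, univ_inter, Real.volume_Icc]
  norm_num

/-- The bound for the inner kernel integral. -/
noncomputable def Bk (δ θ a : ℝ) : ℝ≥0∞ :=
  ENNReal.ofReal (√(Real.pi / δ)) ^ θ * ENNReal.ofReal (Real.pi * |a|⁻¹) ^ (1 - θ)

theorem measurable_Bk (δ θ : ℝ) : Measurable (Bk δ θ) := by
  unfold Bk
  fun_prop

theorem inner_bound {δ : ℝ} (hδ : 0 < δ) {θ : ℝ} (hθ : 0 < θ) (hθ1 : θ < 1) (b : ℝ) {a : ℝ}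
    (ha : a ≠ 0) :
    ∫⁻ y, ENNReal.ofReal (gk δ (b - (y ^ 2 - (y - a) ^ 2))) ∂μI ≤ Bk δ θ a := by
  have h1 : ∫⁻ y, ENNReal.ofReal (gk δ (b - (y ^ 2 - (y - a) ^ 2))) ∂μI ≤
      ENNReal.ofReal (√(Real.pi / δ)) := by
    calc _ ≤ ∫⁻ _, ENNReal.ofReal (√(Real.pi / δ)) ∂μI :=
          lintegral_mono fun y => ENNReal.ofReal_le_ofReal (gk_le hδ _)
      _ = _ := by rw [lintegral_const, μI_univ, mul_one]
  have h2 : ∫⁻ y, ENNReal.ofReal (gk δ (b - (y ^ 2 - (y - a) ^ 2))) ∂μI ≤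
      ENNReal.ofReal (Real.pi * |a|⁻¹) := by
    calc _ ≤ ∫⁻ y, ENNReal.ofReal (gk δ (b - (y ^ 2 - (y - a) ^ 2))) :=
          setLIntegral_le_lintegral _ _
      _ = ∫⁻ y, ENNReal.ofReal (gk δ ((b + a ^ 2) - (2 * a) * y)) := by
          refine lintegral_congr fun y => ?_
          congr 2
          ring
      _ = ENNReal.ofReal |(2 * a)⁻¹| * ENNReal.ofReal (2 * Real.pi) := by
          rw [lintegral_comp_affine (f := fun y => ENNReal.ofReal (gk δ y))
            (continuous_gk δ).measurable.ennreal_ofReal (by simpa using ha), lintegral_gk hδ]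
      _ = _ := by
          rw [← ENNReal.ofReal_mul (abs_nonneg _)]
          congr 1
          rw [abs_inv, abs_mul, abs_of_pos (by norm_num : (0 : ℝ) < 2)]
          have : |a| ≠ 0 := abs_ne_zero.2 ha
          field_simp
  unfold Bk
  set I := ∫⁻ y, ENNReal.ofReal (gk δ (b - (y ^ 2 - (y - a) ^ 2))) ∂μI
  calc I = I ^ (θ + (1 - θ)) := by rw [add_sub_cancel, ENNReal.rpow_one]
    _ = I ^ θ * I ^ (1 - θ) := ENNReal.rpow_add_of_nonneg _ _ hθ.le (by linarith)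
    _ ≤ _ := by gcongr

theorem lintegral_Bk {δ : ℝ} {θ : ℝ} (hθ : 0 < θ) (hθ1 : θ < 1) :
    ∫⁻ a in Icc (-1 : ℝ) 1, Bk δ θ a ≤
      ENNReal.ofReal (√(Real.pi / δ)) ^ θ * ENNReal.ofReal (4 * (2 / θ)) := by
  unfold Bk
  have hm : Measurable (fun a : ℝ => ENNReal.ofReal (Real.pi * |a|⁻¹) ^ (1 - θ)) := by fun_prop
  rw [lintegral_const_mul _ hm]
  gcongr
  -- the integral of `|a|^(θ-1)`
  have h1 : ∀ a : ℝ, ENNReal.ofReal (Real.pi * |a|⁻¹) ^ (1 - θ) ≤
      ENNReal.ofReal (4 * (|a|⁻¹) ^ (1 - θ)) := by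
    intro a
    rw [ENNReal.ofReal_rpow_of_nonneg (by positivity) (by linarith)]
    apply ENNReal.ofReal_le_ofReal
    rw [Real.mul_rpow Real.pi_pos.le (by positivity)]
    gcongr
    calc Real.pi ^ (1 - θ) ≤ Real.pi ^ (1 : ℝ) :=
          Real.rpow_le_rpow_of_exponent_le (by linarith [Real.pi_gt_three]) (by linarith)
      _ = Real.pi := Real.rpow_one _
      _ ≤ 4 := Real.pi_le_four
  have hint : IntervalIntegrable (fun a : ℝ => a ^ (θ - 1)) volume 0 1 :=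
    intervalIntegral.intervalIntegrable_rpow' (by linarith)
  have hval : ∫ a in (0 : ℝ)..1, a ^ (θ - 1) = 1 / θ := by
    rw [integral_rpow (Or.inl (by linarith))]
    rw [sub_add_cancel, Real.one_rpow, Real.zero_rpow hθ.ne', sub_zero]
  have hIoc : ∫⁻ a in Ioc (0 : ℝ) 1, ENNReal.ofReal (4 * (|a|⁻¹) ^ (1 - θ)) =
      ENNReal.ofReal (4 * (1 / θ)) := by
    rw [intervalIntegrable_iff_integrableOn_Ioc_of_le (by norm_num)] at hint
    rw [intervalIntegral.integral_of_le (by norm_num)] at hval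
    rw [← hval, ← integral_const_mul, ofReal_integral_eq_lintegral_ofReal (hint.const_mul 4)]
    · refine setLIntegral_congr_fun measurableSet_Ioc fun a ha => ?_
      have ha' : 0 < a := ha.1
      rw [abs_of_pos ha', Real.inv_rpow ha'.le, ← Real.rpow_neg ha'.le, neg_sub]
    · rw [Filter.EventuallyLE, ae_restrict_iff' measurableSet_Ioc]
      refine Eventually.of_forall fun a ha => ?_
      have ha' : 0 < a := ha.1
      simp only [Pi.zero_apply]
      positivity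
  have hIco : ∫⁻ a in Ico (-1 : ℝ) 0, ENNReal.ofReal (4 * (|a|⁻¹) ^ (1 - θ)) =
      ENNReal.ofReal (4 * (1 / θ)) := by
    rw [← hIoc, ← lintegral_indicator measurableSet_Ico, ← lintegral_indicator measurableSet_Ioc,
      ← lintegral_neg_eq_self]
    refine lintegral_congr fun a => ?_
    simp only [indicator, mem_Ico, mem_Ioc, abs_neg]
    have : (-1 ≤ -a ∧ -a < 0) ↔ (0 < a ∧ a ≤ 1) := by
      constructor
      · rintro ⟨h1, h2⟩; constructor <;> linarith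
      · rintro ⟨h1, h2⟩; constructor <;> linarith
    simp only [this]
  calc ∫⁻ a in Icc (-1 : ℝ) 1, ENNReal.ofReal (Real.pi * |a|⁻¹) ^ (1 - θ)
      ≤ ∫⁻ a in Icc (-1 : ℝ) 1, ENNReal.ofReal (4 * (|a|⁻¹) ^ (1 - θ)) :=
        lintegral_mono fun a => h1 a
    _ ≤ ∫⁻ a in (Ico (-1 : ℝ) 0 ∪ {0}) ∪ Ioc (0 : ℝ) 1,
          ENNReal.ofReal (4 * (|a|⁻¹) ^ (1 - θ)) := by
        refine lintegral_mono_set fun a ha => ?_
        rcases lt_trichotomy a 0 with h | h | h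
        · exact Or.inl (Or.inl ⟨ha.1, h⟩)
        · exact Or.inl (Or.inr h)
        · exact Or.inr ⟨h, ha.2⟩
    _ ≤ (ENNReal.ofReal (4 * (1 / θ)) + 0) + ENNReal.ofReal (4 * (1 / θ)) := by
        refine (lintegral_union_le _ _ _).trans ?_
        gcongr
        · refine (lintegral_union_le _ _ _).trans ?_
          gcongr
          · exact hIco.le
          · rw [Measure.restrict_singleton]
            simp
        · exact hIoc.le
    _ = _ := by
        rw [add_zero, ← ENNReal.ofReal_add (by positivity) (by positivity)]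
        congr 1
        ring

/-- The smeared kernel. -/
noncomputable def mk (ε δ θ a : ℝ) : ℝ≥0∞ :=
  ∫⁻ v in Icc (-1 : ℝ) 1, ENNReal.ofReal (gk ε (a - v)) * Bk δ θ v

theorem measurable_mk (ε δ θ : ℝ) : Measurable (mk ε δ θ) := by
  unfold mk
  apply Measurable.lintegral_prod_right'
    (f := fun z : ℝ × ℝ => ENNReal.ofReal (gk ε (z.1 - z.2)) * Bk δ θ z.2)
  exact (((continuous_gk ε).measurable.comp (measurable_fst.sub measurable_snd)).ennreal_ofReal).mul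
    ((measurable_Bk δ θ).comp measurable_snd)

theorem lintegral_mk {ε δ θ : ℝ} (hε : 0 < ε) :
    ∫⁻ a, mk ε δ θ a = ENNReal.ofReal (2 * Real.pi) * ∫⁻ v in Icc (-1 : ℝ) 1, Bk δ θ v := by
  unfold mk
  rw [lintegral_lintegral_swap]
  · rw [← lintegral_const_mul _ (measurable_Bk δ θ)]
    refine lintegral_congr fun v => ?_
    have hm : Measurable (fun a : ℝ => ENNReal.ofReal (gk ε (a - v))) :=
      ((continuous_gk ε).measurable.comp (measurable_id.sub measurable_const)).ennreal_ofReal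
    rw [lintegral_mul_const _ hm]
    congr 1
    rw [lintegral_sub_right_eq_self (fun a => ENNReal.ofReal (gk ε a)) v]
    exact lintegral_gk hε
  · apply Measurable.aemeasurable
    change Measurable (fun z : ℝ × ℝ => ENNReal.ofReal (gk ε (z.1 - z.2)) * Bk δ θ z.2)
    exact (((continuous_gk ε).measurable.comp
      (measurable_fst.sub measurable_snd)).ennreal_ofReal).mul
      ((measurable_Bk δ θ).comp measurable_snd)

theorem kernel_inner {ε δ θ : ℝ} (hδ : 0 < δ) (hθ : 0 < θ) (hθ1 : θ < 1) (a b : ℝ) :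
    ∫⁻ Y, ENNReal.ofReal (gk ε (a - (Y.1 - Y.2))) * ENNReal.ofReal (gk δ (b - (Y.1 ^ 2 - Y.2 ^ 2)))
      ∂(μI.prod μI) ≤ mk ε δ θ a := by
  have mε : Measurable fun x => ENNReal.ofReal (gk ε x) := (continuous_gk ε).measurable.ennreal_ofReal
  have mδ : Measurable fun x => ENNReal.ofReal (gk δ x) := (continuous_gk δ).measurable.ennreal_ofReal
  have hm : Measurable (fun Y : ℝ × ℝ => ENNReal.ofReal (gk ε (a - (Y.1 - Y.2))) *
      ENNReal.ofReal (gk δ (b - (Y.1 ^ 2 - Y.2 ^ 2)))) :=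
    (mε.comp (by fun_prop : Measurable fun Y : ℝ × ℝ => a - (Y.1 - Y.2))).mul
      (mδ.comp (by fun_prop : Measurable fun Y : ℝ × ℝ => b - (Y.1 ^ 2 - Y.2 ^ 2)))
  rw [lintegral_prod _ hm.aemeasurable]
  have h1 : ∀ y ∈ Icc (-(1 / 2) : ℝ) (1 / 2), ∫⁻ y', ENNReal.ofReal (gk ε (a - (y - y'))) *
      ENNReal.ofReal (gk δ (b - (y ^ 2 - y' ^ 2))) ∂μI ≤
      ∫⁻ v in Icc (-1 : ℝ) 1, ENNReal.ofReal (gk ε (a - v)) *
        ENNReal.ofReal (gk δ (b - (y ^ 2 - (y - v) ^ 2))) := by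
    intro y hy
    unfold μI
    rw [← lintegral_indicator measurableSet_Icc, ← lintegral_indicator measurableSet_Icc,
      ← lintegral_sub_left_eq_self _ y]
    refine lintegral_mono fun v => ?_
    by_cases hv : y - v ∈ Icc (-(1 / 2) : ℝ) (1 / 2)
    · have hv' : v ∈ Icc (-1 : ℝ) 1 := by
        constructor
        · linarith [hy.1, hv.2]
        · linarith [hy.2, hv.1]
      rw [indicator_of_mem hv, indicator_of_mem hv', sub_sub_cancel]
    · rw [indicator_of_notMem hv]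
      exact bot_le
  calc ∫⁻ y, ∫⁻ y', ENNReal.ofReal (gk ε (a - (y - y'))) *
        ENNReal.ofReal (gk δ (b - (y ^ 2 - y' ^ 2))) ∂μI ∂μI
      ≤ ∫⁻ y, (∫⁻ v in Icc (-1 : ℝ) 1, ENNReal.ofReal (gk ε (a - v)) *
        ENNReal.ofReal (gk δ (b - (y ^ 2 - (y - v) ^ 2)))) ∂μI := by
        have hae : ∀ᵐ y ∂μI, y ∈ Icc (-(1 / 2) : ℝ) (1 / 2) := by
          unfold μI
          exact ae_restrict_mem measurableSet_Icc
        refine lintegral_mono_ae ?_
        filter_upwards [hae] with y hy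
        exact h1 y hy
    _ = ∫⁻ v in Icc (-1 : ℝ) 1, ∫⁻ y, ENNReal.ofReal (gk ε (a - v)) *
        ENNReal.ofReal (gk δ (b - (y ^ 2 - (y - v) ^ 2))) ∂μI := by
        refine lintegral_lintegral_swap (Measurable.aemeasurable ?_)
        change Measurable (fun z : ℝ × ℝ => ENNReal.ofReal (gk ε (a - z.2)) *
          ENNReal.ofReal (gk δ (b - (z.1 ^ 2 - (z.1 - z.2) ^ 2))))
        exact (mε.comp (by fun_prop : Measurable fun z : ℝ × ℝ => a - z.2)).mul
          (mδ.comp (by fun_prop : Measurable fun z : ℝ × ℝ => b - (z.1 ^ 2 - (z.1 - z.2) ^ 2)))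
    _ ≤ mk ε δ θ a := by
        unfold mk
        refine lintegral_mono_ae ?_
        have h0 : ∀ᵐ v ∂(volume.restrict (Icc (-1 : ℝ) 1)), v ≠ 0 :=
          Measure.ae_ne _ _
        filter_upwards [h0] with v hv
        have hmy : Measurable fun y : ℝ => ENNReal.ofReal (gk δ (b - (y ^ 2 - (y - v) ^ 2))) :=
          mδ.comp (by fun_prop : Measurable fun y : ℝ => b - (y ^ 2 - (y - v) ^ 2))
        rw [lintegral_const_mul _ hmy]
        gcongr
        exact inner_bound hδ hθ hθ1 b hv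

/-- The fourth power of the extension operator of the parabola as a square. -/
theorem E1_pow_four {g : ℝ → ℂ} (hg0 : ∀ x, x ∉ Icc (-(1 / 2) : ℝ) (1 / 2) → g x = 0)
    (w : ℝ × ℝ) :
    ‖E1 g w‖ₑ ^ 4 = ‖∫ z : ℝ × ℝ, u (w.1 * (z.1 - z.2) + w.2 * (z.1 ^ 2 - z.2 ^ 2)) *
      (g z.1 * (starRingEnd ℂ) (g z.2)) ∂(μI.prod μI)‖ₑ ^ 2 := by
  have hE : E1 g w = ∫ x, u (w.1 * x + w.2 * x ^ 2) * g x ∂μI := by
    unfold E1 μI
    rw [setIntegral_eq_integral_of_forall_compl_eq_zero]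
    intro x hx
    rw [hg0 x hx, mul_zero]
  have h2 : ∫ z : ℝ × ℝ, u (w.1 * (z.1 - z.2) + w.2 * (z.1 ^ 2 - z.2 ^ 2)) *
      (g z.1 * (starRingEnd ℂ) (g z.2)) ∂(μI.prod μI) =
      E1 g w * (starRingEnd ℂ) (E1 g w) := by
    rw [hE, ← integral_conj, ← integral_prod_mul]
    refine integral_congr_ae (Eventually.of_forall fun z => ?_)
    simp only [map_mul]
    rw [show w.1 * (z.1 - z.2) + w.2 * (z.1 ^ 2 - z.2 ^ 2) =
      (w.1 * z.1 + w.2 * z.1 ^ 2) - (w.1 * z.2 + w.2 * z.2 ^ 2) by ring, u_sub]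
    ring
  rw [h2, enorm_mul]
  have e3 : ‖(starRingEnd ℂ) (E1 g w)‖ₑ = ‖E1 g w‖ₑ := by
    rw [← ofReal_norm, RCLike.norm_conj, ofReal_norm]
  rw [e3]
  ring

theorem measurable_E1 {g : ℝ → ℂ} (hg : Measurable g) : Measurable (E1 g) := by
  have : StronglyMeasurable (fun w : ℝ × ℝ => ∫ x : ℝ, u (w.1 * x + w.2 * x ^ 2) * g x) := by
    apply StronglyMeasurable.integral_prod_right
      (f := fun (w : ℝ × ℝ) (x : ℝ) => u (w.1 * x + w.2 * x ^ 2) * g x)
    apply Measurable.stronglyMeasurable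
    exact (measurable_u.comp (by fun_prop)).mul (hg.comp measurable_snd)
  exact this.measurable

/-- The autocorrelation bound. -/
theorem autocorr {g : ℝ → ℂ} (hg : Measurable g) (a : ℝ) :
    ∫⁻ x, ‖g x‖ₑ ^ 2 * ‖g (x - a)‖ₑ ^ 2 ≤ ∫⁻ x, ‖g x‖ₑ ^ 4 := by
  have hm2 : Measurable (fun x => ‖g x‖ₑ ^ 2) := hg.enorm.pow_const 2
  have hm4 : Measurable (fun x => ‖g x‖ₑ ^ 4) := hg.enorm.pow_const 4
  have hm2' : Measurable (fun x => ‖g (x - a)‖ₑ ^ 2) :=
    hm2.comp (measurable_id.sub measurable_const)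
  have key : 2 * ∫⁻ x, ‖g x‖ₑ ^ 2 * ‖g (x - a)‖ₑ ^ 2 ≤ 2 * ∫⁻ x, ‖g x‖ₑ ^ 4 := by
    have hm22 : Measurable (fun x => ‖g x‖ₑ ^ 2 * ‖g (x - a)‖ₑ ^ 2) := hm2.mul hm2'
    rw [← lintegral_const_mul _ hm22]
    calc ∫⁻ x, 2 * (‖g x‖ₑ ^ 2 * ‖g (x - a)‖ₑ ^ 2)
        ≤ ∫⁻ x, (‖g x‖ₑ ^ 4 + ‖g (x - a)‖ₑ ^ 4) := by
          refine lintegral_mono fun x => ?_
          refine (two_mul_mul_le _ _).trans (le_of_eq ?_)
          rw [← pow_mul, ← pow_mul]
      _ = (∫⁻ x, ‖g x‖ₑ ^ 4) + ∫⁻ x, ‖g (x - a)‖ₑ ^ 4 := lintegral_add_left hm4 _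
      _ = _ := by
          rw [lintegral_sub_right_eq_self (fun x => ‖g x‖ₑ ^ 4) a, two_mul]
  exact (ENNReal.mul_le_mul_iff_right (by norm_num) (by norm_num)).1 key

/-- The weighted fourth power estimate. -/
theorem E1_weighted {g : ℝ → ℂ} (hg : Measurable g)
    (hg0 : ∀ x, x ∉ Icc (-(1 / 2) : ℝ) (1 / 2) → g x = 0)
    {δ θ : ℝ} (hδ : 0 < δ) (hθ : 0 < θ) (hθ1 : θ < 1) :
    ∫⁻ w : ℝ × ℝ, ‖E1 g w‖ₑ ^ 4 * ENNReal.ofReal (Real.exp (-δ * w.2 ^ 2)) ≤
      ENNReal.ofReal (2 * Real.pi) * (ENNReal.ofReal (√(Real.pi / δ)) ^ θ *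
        ENNReal.ofReal (4 * (2 / θ))) * ∫⁻ x, ‖g x‖ₑ ^ 4 := by
  refine lintegral_le_of_weights (ρ := fun (n : ℕ) (w : ℝ × ℝ) =>
    Real.exp (-(1 / ((n : ℝ) + 1)) * w.1 ^ 2)) ?_ (fun n => by fun_prop)
    (fun w => tendsto_weight w.1) (fun n => ?_)
  · have := (measurable_E1 hg).enorm.pow_const 4
    exact this.mul (by fun_prop)
  · have hε : 0 < 1 / ((n : ℝ) + 1) := by positivity
    set ε := 1 / ((n : ℝ) + 1) with hεdef
    have hgood := ((good_gauss hε).prod (good_gauss hδ)).lintegral_le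
      (μ := μI.prod μI) (s := fun z : ℝ × ℝ => (z.1 - z.2, z.1 ^ 2 - z.2 ^ 2)) (by fun_prop)
      (fun z => g z.1 * (starRingEnd ℂ) (g z.2))
    have hm2 : Measurable (fun x => ‖g x‖ₑ ^ 2) := hg.enorm.pow_const 2
    calc ∫⁻ w : ℝ × ℝ, ‖E1 g w‖ₑ ^ 4 * ENNReal.ofReal (Real.exp (-δ * w.2 ^ 2)) *
          ENNReal.ofReal (Real.exp (-ε * w.1 ^ 2))
        = ∫⁻ w : ℝ × ℝ, ‖∫ z : ℝ × ℝ, u (w.1 * (z.1 - z.2) + w.2 * (z.1 ^ 2 - z.2 ^ 2)) *
          (g z.1 * (starRingEnd ℂ) (g z.2)) ∂(μI.prod μI)‖ₑ ^ 2 *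
          ENNReal.ofReal (Real.exp (-ε * w.1 ^ 2) * Real.exp (-δ * w.2 ^ 2)) := by
          refine lintegral_congr fun w => ?_
          rw [E1_pow_four hg0, ENNReal.ofReal_mul (Real.exp_pos _).le]
          ring
      _ ≤ ∫⁻ z : ℝ × ℝ, ‖g z.1 * (starRingEnd ℂ) (g z.2)‖ₑ ^ 2 *
          ∫⁻ Y, ENNReal.ofReal (gk ε ((z.1 - z.2) - (Y.1 - Y.2))) *
          ENNReal.ofReal (gk δ ((z.1 ^ 2 - z.2 ^ 2) - (Y.1 ^ 2 - Y.2 ^ 2)))
            ∂(μI.prod μI) ∂(μI.prod μI) := hgood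
      _ ≤ ∫⁻ z : ℝ × ℝ, ‖g z.1 * (starRingEnd ℂ) (g z.2)‖ₑ ^ 2 * mk ε δ θ (z.1 - z.2)
          ∂(μI.prod μI) := by
          refine lintegral_mono fun z => ?_
          gcongr
          exact kernel_inner hδ hθ hθ1 _ _
      _ ≤ ∫⁻ z : ℝ × ℝ, (‖g z.1‖ₑ ^ 2 * ‖g z.2‖ₑ ^ 2) * mk ε δ θ (z.1 - z.2) := by
          have e : (μI.prod μI) = (volume : Measure (ℝ × ℝ)).restrict
              (Icc (-(1 / 2) : ℝ) (1 / 2) ×ˢ Icc (-(1 / 2) : ℝ) (1 / 2)) := by
            unfold μI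
            rw [Measure.prod_restrict, Measure.volume_eq_prod]
          rw [e]
          refine (setLIntegral_le_lintegral _ _).trans (le_of_eq ?_)
          refine lintegral_congr fun z => ?_
          have e3 : ‖(starRingEnd ℂ) (g z.2)‖ₑ = ‖g z.2‖ₑ := by
            rw [← ofReal_norm, RCLike.norm_conj, ofReal_norm]
          rw [enorm_mul, e3, mul_pow]
      _ = ∫⁻ x, ∫⁻ y, (‖g x‖ₑ ^ 2 * ‖g y‖ₑ ^ 2) * mk ε δ θ (x - y) := by
          rw [Measure.volume_eq_prod, lintegral_prod]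
          exact ((hm2.comp measurable_fst).mul (hm2.comp measurable_snd)).mul
            ((measurable_mk ε δ θ).comp (measurable_fst.sub measurable_snd)) |>.aemeasurable
      _ = ∫⁻ x, ∫⁻ a, (‖g x‖ₑ ^ 2 * ‖g (x - a)‖ₑ ^ 2) * mk ε δ θ a := by
          refine lintegral_congr fun x => ?_
          rw [← lintegral_sub_left_eq_self (fun y => (‖g x‖ₑ ^ 2 * ‖g y‖ₑ ^ 2) *
            mk ε δ θ (x - y)) x]
          refine lintegral_congr fun a => ?_
          rw [sub_sub_cancel]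
      _ = ∫⁻ a, ∫⁻ x, (‖g x‖ₑ ^ 2 * ‖g (x - a)‖ₑ ^ 2) * mk ε δ θ a := by
          refine lintegral_lintegral_swap (Measurable.aemeasurable ?_)
          exact ((hm2.comp measurable_fst).mul (hm2.comp (measurable_fst.sub
            measurable_snd))).mul ((measurable_mk ε δ θ).comp measurable_snd)
      _ = ∫⁻ a, (∫⁻ x, ‖g x‖ₑ ^ 2 * ‖g (x - a)‖ₑ ^ 2) * mk ε δ θ a := by
          refine lintegral_congr fun a => ?_
          have hm3 : Measurable fun x => ‖g x‖ₑ ^ 2 * ‖g (x - a)‖ₑ ^ 2 :=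
            hm2.mul (hm2.comp (measurable_id.sub measurable_const))
          rw [lintegral_mul_const _ hm3]
      _ ≤ ∫⁻ a, (∫⁻ x, ‖g x‖ₑ ^ 4) * mk ε δ θ a := by
          refine lintegral_mono fun a => ?_
          exact mul_le_mul' (autocorr hg a) le_rfl
      _ = (∫⁻ a, mk ε δ θ a) * ∫⁻ x, ‖g x‖ₑ ^ 4 := by
          rw [lintegral_const_mul _ (measurable_mk ε δ θ), mul_comm]
      _ ≤ _ := by
          rw [lintegral_mk hε]
          gcongr
          exact lintegral_Bk hθ hθ1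

end Pool.Agent.Restr
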