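import Mathlib
import Pool.Agent.Restr.Good

/-!
# The extension operator of the paraboloid: `L²` conservation and the `L² → L⁴` bound
-/

namespace Pool.Agent.Restr

open MeasureTheory Set Filter
open scoped ENNReal NNReal Topology

/-- The extension operator of the paraboloid in `ℝ³`. -/
noncomputable def E (f : ℝ × ℝ → ℂ) (ξ : ℝ × ℝ × ℝ) : ℂ :=
  ∫ x : ℝ × ℝ, u (ξ.1 * x.1 + (ξ.2.1 * x.2 + ξ.2.2 * (x.1 ^ 2 + x.2 ^ 2))) * f x

/-- Radial integration in the plane. -/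
theorem lintegral_radial {ψ : ℝ → ℝ≥0∞} (hψ : Measurable ψ) (c : ℝ) :
    ∫⁻ v : ℝ × ℝ, ψ (2 * (v.1 ^ 2 + v.2 ^ 2) + c) ≤ ENNReal.ofReal (Real.pi / 2) * ∫⁻ s, ψ s := by
  rw [← lintegral_comp_polarCoord_symm]
  have hpc : ∀ p : ℝ × ℝ, 2 * ((polarCoord.symm p).1 ^ 2 + (polarCoord.symm p).2 ^ 2) + c =
      2 * p.1 ^ 2 + c := by
    intro p
    rw [polarCoord_symm_apply]
    have := Real.sin_sq_add_cos_sq p.2
    have e : (p.1 * Real.cos p.2) ^ 2 + (p.1 * Real.sin p.2) ^ 2 = p.1 ^ 2 := by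
      calc (p.1 * Real.cos p.2) ^ 2 + (p.1 * Real.sin p.2) ^ 2
          = p.1 ^ 2 * (Real.sin p.2 ^ 2 + Real.cos p.2 ^ 2) := by ring
        _ = p.1 ^ 2 := by rw [this, mul_one]
    simp only
    rw [e]
  simp only [hpc, smul_eq_mul]
  have hm : Measurable (fun p : ℝ × ℝ => ENNReal.ofReal p.1 * ψ (2 * p.1 ^ 2 + c)) := by
    fun_prop
  have ht : polarCoord.target = Ioi (0 : ℝ) ×ˢ Ioo (-Real.pi) Real.pi := rfl
  rw [ht, Measure.volume_eq_prod, setLIntegral_prod _ hm.aemeasurable]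
  have h1 : ∀ x : ℝ, ∫⁻ _ in Ioo (-Real.pi) Real.pi, ENNReal.ofReal x * ψ (2 * x ^ 2 + c) =
      ENNReal.ofReal (2 * Real.pi) * (ENNReal.ofReal x * ψ (2 * x ^ 2 + c)) := by
    intro x
    rw [setLIntegral_const, Real.volume_Ioo, mul_comm]
    congr 2
    ring
  simp only [h1]
  have hm2 : Measurable (fun x : ℝ => ENNReal.ofReal x * ψ (2 * x ^ 2 + c)) := by fun_prop
  rw [lintegral_const_mul _ hm2]
  have himg : ∫⁻ x in (fun r : ℝ => 2 * r ^ 2 + c) '' Ioi 0, ψ x =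
      ∫⁻ r in Ioi (0 : ℝ), ENNReal.ofReal |4 * r| * ψ (2 * r ^ 2 + c) := by
    apply lintegral_image_eq_lintegral_abs_deriv_mul measurableSet_Ioi
    · intro x _
      have h := ((hasDerivAt_pow 2 x).const_mul 2).add_const c
      refine (h.congr_deriv ?_).hasDerivWithinAt
      norm_num
      ring
    · intro a ha b hb hab
      have ha' : 0 < a := ha
      have hb' : 0 < b := hb
      have h2 : a ^ 2 = b ^ 2 := by
        have : 2 * a ^ 2 + c = 2 * b ^ 2 + c := hab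
        linarith
      exact (pow_left_inj₀ ha'.le hb'.le (by norm_num)).1 h2
  have h4 : ∫⁻ r in Ioi (0 : ℝ), ENNReal.ofReal |4 * r| * ψ (2 * r ^ 2 + c) =
      4 * ∫⁻ r in Ioi (0 : ℝ), ENNReal.ofReal r * ψ (2 * r ^ 2 + c) := by
    rw [← lintegral_const_mul _ hm2]
    refine setLIntegral_congr_fun measurableSet_Ioi fun r hr => ?_
    have hr' : 0 < r := hr
    rw [abs_of_pos (by positivity), ENNReal.ofReal_mul (by norm_num), mul_assoc]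
    congr 1
    norm_num
  have h5 : 4 * ∫⁻ r in Ioi (0 : ℝ), ENNReal.ofReal r * ψ (2 * r ^ 2 + c) ≤ ∫⁻ s, ψ s := by
    rw [← h4, ← himg]
    exact setLIntegral_le_lintegral _ _
  calc ENNReal.ofReal (2 * Real.pi) * ∫⁻ r in Ioi (0 : ℝ), ENNReal.ofReal r * ψ (2 * r ^ 2 + c)
      = ENNReal.ofReal (Real.pi / 2) *
        (4 * ∫⁻ r in Ioi (0 : ℝ), ENNReal.ofReal r * ψ (2 * r ^ 2 + c)) := by
        rw [← mul_assoc]
        congr 1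
        rw [show (4 : ℝ≥0∞) = ENNReal.ofReal 4 by norm_num, ← ENNReal.ofReal_mul (by positivity)]
        congr 1
        ring
    _ ≤ _ := by gcongr

/-- The push-forward bound behind the `L² → L⁴` estimate. -/
theorem pushforward_sum {φ : ℝ × ℝ × ℝ → ℝ≥0∞} (hφ : Measurable φ) :
    ∫⁻ z : (ℝ × ℝ) × (ℝ × ℝ), φ (z.1.1 + z.2.1, z.1.2 + z.2.2,
      (z.1.1 ^ 2 + z.1.2 ^ 2) + (z.2.1 ^ 2 + z.2.2 ^ 2)) ≤
      ENNReal.ofReal (Real.pi / 2) * ∫⁻ v, φ v := by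
  have hm : Measurable (fun z : (ℝ × ℝ) × (ℝ × ℝ) => φ (z.1.1 + z.2.1, z.1.2 + z.2.2,
      (z.1.1 ^ 2 + z.1.2 ^ 2) + (z.2.1 ^ 2 + z.2.2 ^ 2))) := by fun_prop
  have hm2 : Measurable (fun z : (ℝ × ℝ) × (ℝ × ℝ) => φ (z.2.1, z.2.2,
      (z.1.1 ^ 2 + z.1.2 ^ 2) + ((z.2.1 - z.1.1) ^ 2 + (z.2.2 - z.1.2) ^ 2))) := by fun_prop
  calc ∫⁻ z : (ℝ × ℝ) × (ℝ × ℝ), φ (z.1.1 + z.2.1, z.1.2 + z.2.2,
        (z.1.1 ^ 2 + z.1.2 ^ 2) + (z.2.1 ^ 2 + z.2.2 ^ 2))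
      = ∫⁻ x : ℝ × ℝ, ∫⁻ y : ℝ × ℝ, φ (x.1 + y.1, x.2 + y.2,
        (x.1 ^ 2 + x.2 ^ 2) + (y.1 ^ 2 + y.2 ^ 2)) := by
        rw [Measure.volume_eq_prod, lintegral_prod _ hm.aemeasurable]
    _ = ∫⁻ x : ℝ × ℝ, ∫⁻ y : ℝ × ℝ, φ (y.1, y.2,
        (x.1 ^ 2 + x.2 ^ 2) + ((y.1 - x.1) ^ 2 + (y.2 - x.2) ^ 2)) := by
        refine lintegral_congr fun x => ?_
        rw [← lintegral_sub_right_eq_self (fun y : ℝ × ℝ => φ (x.1 + y.1, x.2 + y.2,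
          (x.1 ^ 2 + x.2 ^ 2) + (y.1 ^ 2 + y.2 ^ 2))) x]
        refine lintegral_congr fun y => ?_
        simp only [Prod.fst_sub, Prod.snd_sub, add_sub_cancel]
    _ = ∫⁻ y : ℝ × ℝ, ∫⁻ x : ℝ × ℝ, φ (y.1, y.2,
        (x.1 ^ 2 + x.2 ^ 2) + ((y.1 - x.1) ^ 2 + (y.2 - x.2) ^ 2)) := by
        rw [← lintegral_prod _ hm2.aemeasurable, ← lintegral_prod_symm' _ hm2]
    _ = ∫⁻ y : ℝ × ℝ, ∫⁻ x : ℝ × ℝ, φ (y.1, y.2,
        2 * (x.1 ^ 2 + x.2 ^ 2) + (y.1 ^ 2 + y.2 ^ 2) / 2) := by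
        refine lintegral_congr fun y => ?_
        rw [← lintegral_add_right_eq_self (fun x : ℝ × ℝ => φ (y.1, y.2,
          (x.1 ^ 2 + x.2 ^ 2) + ((y.1 - x.1) ^ 2 + (y.2 - x.2) ^ 2))) (y.1 / 2, y.2 / 2)]
        refine lintegral_congr fun x => ?_
        congr 3
        simp only [Prod.fst_add, Prod.snd_add]
        ring
    _ ≤ ∫⁻ y : ℝ × ℝ, ENNReal.ofReal (Real.pi / 2) * ∫⁻ s, φ (y.1, y.2, s) := by
        refine lintegral_mono fun y => ?_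
        exact lintegral_radial (ψ := fun s => φ (y.1, y.2, s)) (by fun_prop) _
    _ = ENNReal.ofReal (Real.pi / 2) * ∫⁻ v, φ v := by
        have hm3 : Measurable (fun y : ℝ × ℝ => ∫⁻ s, φ (y.1, y.2, s)) := by
          apply Measurable.lintegral_prod_right'
            (f := fun z : (ℝ × ℝ) × ℝ => φ (z.1.1, z.1.2, z.2))
          fun_prop
        rw [lintegral_const_mul _ hm3]
        congr 1
        rw [Measure.volume_eq_prod, lintegral_prod _ hm3.aemeasurable]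
        rw [Measure.volume_eq_prod (α := ℝ) (β := ℝ × ℝ), lintegral_prod _ hφ.aemeasurable]
        refine lintegral_congr fun a => ?_
        have hφa : Measurable (fun y : ℝ × ℝ => φ (a, y)) := by fun_prop
        rw [Measure.volume_eq_prod, lintegral_prod _ hφa.aemeasurable]

/-- The square of the extension operator. -/
theorem E_sq (f : ℝ × ℝ → ℂ) (ξ : ℝ × ℝ × ℝ) :
    E f ξ ^ 2 = ∫ z : (ℝ × ℝ) × (ℝ × ℝ), u (ξ.1 * (z.1.1 + z.2.1) +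
      (ξ.2.1 * (z.1.2 + z.2.2) + ξ.2.2 * ((z.1.1 ^ 2 + z.1.2 ^ 2) + (z.2.1 ^ 2 + z.2.2 ^ 2)))) *
      (f z.1 * f z.2) := by
  rw [sq]
  unfold E
  rw [Measure.volume_eq_prod (α := ℝ × ℝ) (β := ℝ × ℝ), ← integral_prod_mul]
  refine integral_congr_ae (Eventually.of_forall fun z => ?_)
  have e := u_add (ξ.1 * z.1.1 + (ξ.2.1 * z.1.2 + ξ.2.2 * (z.1.1 ^ 2 + z.1.2 ^ 2)))
    (ξ.1 * z.2.1 + (ξ.2.1 * z.2.2 + ξ.2.2 * (z.2.1 ^ 2 + z.2.2 ^ 2)))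
  simp only
  rw [show ξ.1 * (z.1.1 + z.2.1) + (ξ.2.1 * (z.1.2 + z.2.2) +
      ξ.2.2 * ((z.1.1 ^ 2 + z.1.2 ^ 2) + (z.2.1 ^ 2 + z.2.2 ^ 2))) =
      (ξ.1 * z.1.1 + (ξ.2.1 * z.1.2 + ξ.2.2 * (z.1.1 ^ 2 + z.1.2 ^ 2))) +
      (ξ.1 * z.2.1 + (ξ.2.1 * z.2.2 + ξ.2.2 * (z.2.1 ^ 2 + z.2.2 ^ 2))) by ring, e]
  ring

/-- The `L² → L⁴` bound (Tomas–Stein) for the paraboloid in `ℝ³`. -/
theorem tomas_stein {f : ℝ × ℝ → ℂ} (hf : Measurable f) :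
    ∫⁻ ξ, ‖E f ξ‖ₑ ^ 4 ≤ ENNReal.ofReal (4 * Real.pi ^ 4) * (∫⁻ x, ‖f x‖ₑ ^ 2) ^ 2 := by
  have h := plancherel3 (μ := (volume : Measure ((ℝ × ℝ) × (ℝ × ℝ))))
    (s := fun z => (z.1.1 + z.2.1, z.1.2 + z.2.2,
      (z.1.1 ^ 2 + z.1.2 ^ 2) + (z.2.1 ^ 2 + z.2.2 ^ 2))) (by fun_prop)
    (C := ENNReal.ofReal (Real.pi / 2)) (fun φ hφ => pushforward_sum hφ)
    (G := fun z => f z.1 * f z.2) (by fun_prop)
  calc ∫⁻ ξ, ‖E f ξ‖ₑ ^ 4 = ∫⁻ ξ, ‖E f ξ ^ 2‖ₑ ^ 2 := by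
        refine lintegral_congr fun ξ => ?_
        rw [enorm_pow, ← pow_mul]
    _ ≤ _ := by
        simp only [E_sq]
        refine h.trans ?_
        have e1 : ∫⁻ z : (ℝ × ℝ) × (ℝ × ℝ), ‖f z.1 * f z.2‖ₑ ^ 2 = (∫⁻ x, ‖f x‖ₑ ^ 2) ^ 2 := by
          have hm : Measurable (fun x => ‖f x‖ₑ ^ 2) := hf.enorm.pow_const 2
          rw [sq (∫⁻ x, ‖f x‖ₑ ^ 2), Measure.volume_eq_prod (α := ℝ × ℝ) (β := ℝ × ℝ),
            ← lintegral_prod_mul hm.aemeasurable hm.aemeasurable]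
          refine lintegral_congr fun z => ?_
          rw [enorm_mul, mul_pow]
        rw [e1]
        apply le_of_eq
        congr 1
        rw [← ENNReal.ofReal_mul (by positivity), ← ENNReal.ofReal_mul (by positivity),
          ← ENNReal.ofReal_mul (by positivity)]
        congr 1
        ring

/-- Conservation of the `L²` norm at each time. -/
theorem L2_slice {f : ℝ × ℝ → ℂ} (hf : Measurable f) (t : ℝ) :
    ∫⁻ w : ℝ × ℝ, ‖E f (w.1, w.2, t)‖ₑ ^ 2 ≤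
      ENNReal.ofReal (4 * Real.pi ^ 2) * ∫⁻ x, ‖f x‖ₑ ^ 2 := by
  have h := plancherel2 (μ := (volume : Measure (ℝ × ℝ))) (s := fun x => x) measurable_id
    (C := 1) (fun φ hφ => by rw [one_mul])
    (G := fun x => u (t * (x.1 ^ 2 + x.2 ^ 2)) * f x)
    ((measurable_u.comp (by fun_prop)).mul hf)
  have e1 : ∀ w : ℝ × ℝ, E f (w.1, w.2, t) =
      ∫ x : ℝ × ℝ, u (w.1 * x.1 + w.2 * x.2) * (u (t * (x.1 ^ 2 + x.2 ^ 2)) * f x) := by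
    intro w
    unfold E
    refine integral_congr_ae (Eventually.of_forall fun x => ?_)
    simp only
    rw [← add_assoc, u_add, mul_assoc]
  simp only [e1]
  refine h.trans (le_of_eq ?_)
  rw [one_mul, ← ENNReal.ofReal_mul (by positivity)]
  congr 1
  · congr 1
    ring
  · refine lintegral_congr fun x => ?_
    rw [enorm_mul, enorm_u, one_mul]

end Pool.Agent.Restr
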