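import Mathlib
import Pool.Agent.Restr.TomasStein
import Pool.Agent.Restr.OneD

/-!
# Gaussian smoothing in the second variable
-/

namespace Pool.Agent.Restr

open MeasureTheory Set Filter ProbabilityTheory
open scoped ENNReal NNReal Topology

/-- Gaussian average in the second variable. -/
noncomputable def S (v : ℝ≥0) (f : ℝ × ℝ → ℂ) (x : ℝ × ℝ) : ℂ :=
  ∫ s, f (x.1, x.2 - s) ∂(gaussianReal 0 v)

/-- The averaged oscillating factor. -/
noncomputable def K (v : ℝ≥0) (ξ t z : ℝ) : ℂ :=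
  ∫ s, u (ξ * (z + s) + t * (z + s) ^ 2) ∂(gaussianReal 0 v)

theorem measurable_S (v : ℝ≥0) {f : ℝ × ℝ → ℂ} (hf : Measurable f) : Measurable (S v f) := by
  have : StronglyMeasurable (fun x : ℝ × ℝ => ∫ s, f (x.1, x.2 - s) ∂(gaussianReal 0 v)) := by
    apply StronglyMeasurable.integral_prod_right
      (f := fun (x : ℝ × ℝ) (s : ℝ) => f (x.1, x.2 - s))
    apply Measurable.stronglyMeasurable
    exact hf.comp (by fun_prop)
  exact this.measurable

theorem norm_S_le (v : ℝ≥0) {f : ℝ × ℝ → ℂ} {M : ℝ} (hM : ∀ x, ‖f x‖ ≤ M) (x : ℝ × ℝ) :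
    ‖S v f x‖ ≤ M := by
  unfold S
  refine (norm_integral_le_of_norm_le_const (Eventually.of_forall fun s => hM _)).trans ?_
  simp

theorem lintegral_shift (F : ℝ × ℝ → ℝ≥0∞) (s : ℝ) :
    ∫⁻ x : ℝ × ℝ, F (x.1, x.2 - s) = ∫⁻ x, F x := by
  rw [← lintegral_sub_right_eq_self F ((0, s) : ℝ × ℝ)]
  refine lintegral_congr fun x => ?_
  congr 1
  ext <;> simp

theorem integrable_shift (v : ℝ≥0) {f : ℝ × ℝ → ℂ} (hf : Measurable f) (hi : Integrable f) :
    Integrable (fun z : (ℝ × ℝ) × ℝ => f (z.1.1, z.1.2 - z.2))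
      (volume.prod (gaussianReal 0 v)) := by
  have hm : Measurable (fun z : (ℝ × ℝ) × ℝ => f (z.1.1, z.1.2 - z.2)) :=
    hf.comp (by fun_prop)
  refine ⟨hm.aestronglyMeasurable, ?_⟩
  unfold HasFiniteIntegral
  rw [lintegral_prod_symm _ hm.enorm.aemeasurable]
  have : ∀ s : ℝ, ∫⁻ x : ℝ × ℝ, ‖f (x.1, x.2 - s)‖ₑ = ∫⁻ x, ‖f x‖ₑ := fun s =>
    lintegral_shift (fun x => ‖f x‖ₑ) s
  simp only [this]
  rw [lintegral_const, measure_univ, mul_one]
  exact hi.2

theorem integrable_S (v : ℝ≥0) {f : ℝ × ℝ → ℂ} (hf : Measurable f) (hi : Integrable f) :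
    Integrable (S v f) :=
  (integrable_shift v hf hi).integral_prod_left

/-- The semigroup property of Gaussian averages. -/
theorem S_S (v : ℝ≥0) {f : ℝ × ℝ → ℂ} (hf : Measurable f) {M : ℝ} (hM : ∀ x, ‖f x‖ ≤ M) :
    S v (S v f) = S (v + v) f := by
  funext x
  unfold S
  have h : gaussianReal 0 (v + v) = (gaussianReal 0 v).conv (gaussianReal 0 v) := by
    rw [gaussianReal_conv_gaussianReal, add_zero]
  rw [h, Measure.conv]
  rw [integral_map (by fun_prop)]
  · rw [integral_prod]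
    · refine integral_congr_ae (Eventually.of_forall fun s => ?_)
      simp only
      refine integral_congr_ae (Eventually.of_forall fun s' => ?_)
      simp only [sub_sub]
    · refine Integrable.of_bound (C := M) (Measurable.aestronglyMeasurable ?_)
        (Eventually.of_forall fun z => hM _)
      exact hf.comp (by fun_prop)
  · apply Measurable.aestronglyMeasurable
    exact hf.comp (by fun_prop)

theorem norm_K_le {v : ℝ≥0} (hv : v ≠ 0) (ξ t z : ℝ) :
    ‖K v ξ t z‖ ≤ Real.exp (-((ξ + 2 * t * z) ^ 2 * v / (2 * (1 + 4 * v ^ 2 * t ^ 2)))) := by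
  have hv' : (0 : ℝ) < v := by positivity
  unfold K
  rw [integral_gaussianReal_eq_integral_smul hv]
  set b : ℂ := -((1 / (2 * (v : ℝ)) : ℝ) + (t : ℝ) * Complex.I) with hb
  have hbre : b.re = -(1 / (2 * (v : ℝ))) := by simp [hb]
  have hbim : b.im = -t := by simp [hb]
  have hbneg : b.re < 0 := by
    rw [hbre]
    have : 0 < 1 / (2 * (v : ℝ)) := by positivity
    linarith
  have e : ∀ s : ℝ, gaussianPDFReal 0 v s • u (ξ * (z + s) + t * (z + s) ^ 2) =
      ((√(2 * Real.pi * v))⁻¹ : ℝ) • Complex.exp (b * s ^ 2 +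
        (-(Complex.I * ((ξ + 2 * t * z : ℝ) : ℂ))) * s +
        (-(Complex.I * ((ξ * z + t * z ^ 2 : ℝ) : ℂ)))) := by
    intro s
    rw [gaussianPDFReal_def]
    unfold u
    simp only [Complex.real_smul]
    push_cast
    rw [mul_assoc, ← Complex.exp_add]
    congr 2
    rw [hb]
    push_cast
    have : (v : ℂ) ≠ 0 := by exact_mod_cast hv'.ne'
    field_simp
    ring
  simp_rw [e]
  rw [integral_smul, integral_cexp_quadratic hbneg, norm_smul, norm_mul]
  have h1 : ‖((Real.pi : ℂ) / -b) ^ (1 / 2 : ℂ)‖ ≤ √(2 * Real.pi * v) := by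
    rw [show (1 / 2 : ℂ) = ((1 / 2 : ℝ) : ℂ) by push_cast; ring, Complex.norm_cpow_real,
      ← Real.sqrt_eq_rpow, norm_div, norm_neg, Complex.norm_real, Real.norm_of_nonneg Real.pi_pos.le]
    apply Real.sqrt_le_sqrt
    have h2 : 1 / (2 * (v : ℝ)) ≤ ‖b‖ := by
      have := Complex.abs_re_le_norm b
      rw [hbre, abs_neg, abs_of_pos (by positivity)] at this
      exact this
    rw [div_le_iff₀ (lt_of_lt_of_le (by positivity) h2)]
    calc Real.pi = 2 * Real.pi * v * (1 / (2 * (v : ℝ))) := by field_simp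
      _ ≤ _ := by gcongr
  have h3 : ‖Complex.exp (-(Complex.I * ((ξ * z + t * z ^ 2 : ℝ) : ℂ)) -
      (-(Complex.I * ((ξ + 2 * t * z : ℝ) : ℂ))) ^ 2 / (4 * b))‖ =
      Real.exp (-((ξ + 2 * t * z) ^ 2 * v / (2 * (1 + 4 * v ^ 2 * t ^ 2)))) := by
    rw [Complex.norm_exp]
    congr 1
    have hI : (-(Complex.I * ((ξ + 2 * t * z : ℝ) : ℂ))) ^ 2 = -(((ξ + 2 * t * z) ^ 2 : ℝ) : ℂ) := by
      rw [neg_sq, mul_pow, Complex.I_sq]
      push_cast
      ring
    rw [hI, Complex.sub_re]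
    have hr1 : (-(Complex.I * ((ξ * z + t * z ^ 2 : ℝ) : ℂ))).re = 0 := by
      rw [Complex.neg_re, Complex.I_mul_re, Complex.ofReal_im, neg_zero, neg_zero]
    rw [hr1]
    have hr2 : (-(((ξ + 2 * t * z) ^ 2 : ℝ) : ℂ) / (4 * b)).re =
        (ξ + 2 * t * z) ^ 2 * v / (2 * (1 + 4 * v ^ 2 * t ^ 2)) := by
      have hns : Complex.normSq b = (1 + 4 * v ^ 2 * t ^ 2) / (4 * v ^ 2) := by
        rw [Complex.normSq_apply, hbre, hbim]
        field_simp
        ring
      have e1 : -(((ξ + 2 * t * z) ^ 2 : ℝ) : ℂ) / (4 * b) =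
          ((-((ξ + 2 * t * z) ^ 2) / 4 : ℝ) : ℂ) * b⁻¹ := by
        have hb0 : b ≠ 0 := by
          intro h0
          rw [h0] at hbneg
          simp at hbneg
        push_cast
        field_simp
      rw [e1, Complex.re_ofReal_mul, Complex.inv_re, hns, hbre]
      field_simp
    rw [hr2]
    ring
  rw [h3, Real.norm_of_nonneg (by positivity)]
  have h4 : 0 < √(2 * Real.pi * v) := Real.sqrt_pos.2 (by positivity)
  rw [← mul_assoc]
  refine mul_le_of_le_one_left (Real.exp_pos _).le ?_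
  rw [inv_mul_le_iff₀ h4, mul_one]
  exact h1

end Pool.Agent.Restr
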