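import Mathlib
import Pool.Agent.Restr.Smooth

/-!
# The one-variable operator attached to the smoothed extension operator
-/

namespace Pool.Agent.Restr

open MeasureTheory Set Filter ProbabilityTheory
open scoped ENNReal NNReal Topology

theorem measurable_K (v : ℝ≥0) : Measurable (fun p : ℝ × ℝ × ℝ => K v p.1 p.2.1 p.2.2) := by
  have : StronglyMeasurable (fun p : ℝ × ℝ × ℝ => ∫ s, u (p.1 * (p.2.2 + s) +
      p.2.1 * (p.2.2 + s) ^ 2) ∂(gaussianReal 0 v)) := by
    apply StronglyMeasurable.integral_prod_right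
      (f := fun (p : ℝ × ℝ × ℝ) (s : ℝ) => u (p.1 * (p.2.2 + s) + p.2.1 * (p.2.2 + s) ^ 2))
    apply Measurable.stronglyMeasurable
    exact measurable_u.comp (by fun_prop)
  exact this.measurable

/-- Representation of the extension of a smoothed function. -/
theorem E_S (v : ℝ≥0) {f : ℝ × ℝ → ℂ} (hf : Measurable f) (hi : Integrable f) (ξ : ℝ × ℝ × ℝ) :
    E (S v f) ξ = ∫ z, K v ξ.2.1 ξ.2.2 z * E1 (fun x => f (x, z)) (ξ.1, ξ.2.2) := by
  obtain ⟨a, b, t⟩ := ξ
  have hsh := integrable_shift v hf hi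
  -- integrability of the joint integrands
  have h1 : Integrable (Function.uncurry fun (x : ℝ × ℝ) (s : ℝ) =>
      u (a * x.1 + (b * x.2 + t * (x.1 ^ 2 + x.2 ^ 2))) * f (x.1, x.2 - s))
      (volume.prod (gaussianReal 0 v)) := by
    refine hsh.bdd_mul (c := 1) (f := fun z : (ℝ × ℝ) × ℝ =>
      u (a * z.1.1 + (b * z.1.2 + t * (z.1.1 ^ 2 + z.1.2 ^ 2)))) ?_
      (Eventually.of_forall fun x => (norm_u _).le)
    exact (measurable_u.comp (by fun_prop)).aestronglyMeasurable
  have hff : Integrable (fun z : (ℝ × ℝ) × ℝ => f z.1) (volume.prod (gaussianReal 0 v)) :=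
    hi.comp_fst _
  have h2 : Integrable (Function.uncurry fun (x : ℝ × ℝ) (s : ℝ) =>
      u (a * x.1 + (b * (x.2 + s) + t * (x.1 ^ 2 + (x.2 + s) ^ 2))) * f x)
      (volume.prod (gaussianReal 0 v)) := by
    refine hff.bdd_mul (c := 1) (f := fun z : (ℝ × ℝ) × ℝ =>
      u (a * z.1.1 + (b * (z.1.2 + z.2) + t * (z.1.1 ^ 2 + (z.1.2 + z.2) ^ 2)))) ?_
      (Eventually.of_forall fun x => (norm_u _).le)
    exact (measurable_u.comp (by fun_prop)).aestronglyMeasurable
  have hlast : Integrable (fun x : ℝ × ℝ => K v b t x.2 *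
      (u (a * x.1 + t * x.1 ^ 2) * f (x.1, x.2))) := by
    have h3 : Integrable (fun x : ℝ × ℝ => u (a * x.1 + t * x.1 ^ 2) * f (x.1, x.2)) := by
      refine hi.bdd_mul (c := 1) (f := fun x : ℝ × ℝ => u (a * x.1 + t * x.1 ^ 2)) ?_
        (Eventually.of_forall fun x => (norm_u _).le)
      exact (measurable_u.comp (by fun_prop)).aestronglyMeasurable
    refine h3.bdd_mul (c := 1) (f := fun x : ℝ × ℝ => K v b t x.2) ?_ ?_
    · exact ((measurable_K v).comp (by fun_prop : Measurable fun x : ℝ × ℝ =>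
        (b, t, x.2))).aestronglyMeasurable
    · refine Eventually.of_forall fun x => ?_
      unfold K
      refine (norm_integral_le_of_norm_le_const (Eventually.of_forall fun s =>
        (norm_u _).le)).trans ?_
      simp
  calc E (S v f) (a, b, t)
      = ∫ x : ℝ × ℝ, ∫ s, u (a * x.1 + (b * x.2 + t * (x.1 ^ 2 + x.2 ^ 2))) *
          f (x.1, x.2 - s) ∂(gaussianReal 0 v) := by
        unfold E S
        refine integral_congr_ae (Eventually.of_forall fun x => ?_)
        simp only
        rw [integral_const_mul]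
    _ = ∫ s, (∫ x : ℝ × ℝ, u (a * x.1 + (b * x.2 + t * (x.1 ^ 2 + x.2 ^ 2))) *
          f (x.1, x.2 - s)) ∂(gaussianReal 0 v) := by
        rw [integral_integral_swap h1]
    _ = ∫ s, (∫ x : ℝ × ℝ, u (a * x.1 + (b * (x.2 + s) + t * (x.1 ^ 2 + (x.2 + s) ^ 2))) *
          f x) ∂(gaussianReal 0 v) := by
        refine integral_congr_ae (Eventually.of_forall fun s => ?_)
        simp only
        rw [← integral_add_right_eq_self (fun x : ℝ × ℝ =>
          u (a * x.1 + (b * x.2 + t * (x.1 ^ 2 + x.2 ^ 2))) * f (x.1, x.2 - s)) ((0, s) : ℝ × ℝ)]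
        refine integral_congr_ae (Eventually.of_forall fun x => ?_)
        simp
    _ = ∫ x : ℝ × ℝ, ∫ s, u (a * x.1 + (b * (x.2 + s) + t * (x.1 ^ 2 + (x.2 + s) ^ 2))) *
          f x ∂(gaussianReal 0 v) := by
        rw [integral_integral_swap h2]
    _ = ∫ x : ℝ × ℝ, K v b t x.2 * (u (a * x.1 + t * x.1 ^ 2) * f (x.1, x.2)) := by
        refine integral_congr_ae (Eventually.of_forall fun x => ?_)
        simp only
        unfold K
        rw [integral_mul_const, ← mul_assoc]
        congr 1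
        rw [← integral_mul_const]
        refine integral_congr_ae (Eventually.of_forall fun s => ?_)
        simp only
        rw [← u_add]
        congr 1
        ring
    _ = ∫ z, ∫ x, K v b t z * (u (a * x + t * x ^ 2) * f (x, z)) := by
        rw [Measure.volume_eq_prod, integral_prod_symm]
        exact hlast
    _ = _ := by
        refine integral_congr_ae (Eventually.of_forall fun z => ?_)
        simp only
        rw [integral_const_mul]
        rfl

/-- The operator with kernel `K`. -/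
noncomputable def TK (v : ℝ≥0) (t : ℝ) (F : ℝ → ℂ) (ξ : ℝ) : ℂ := ∫ z, K v ξ t z * F z

theorem measurable_TK (v : ℝ≥0) (t : ℝ) {F : ℝ → ℂ} (hF : Measurable F) :
    Measurable (TK v t F) := by
  have : StronglyMeasurable (fun ξ : ℝ => ∫ z, K v ξ t z * F z) := by
    apply StronglyMeasurable.integral_prod_right
      (f := fun (ξ : ℝ) (z : ℝ) => K v ξ t z * F z)
    apply Measurable.stronglyMeasurable
    exact ((measurable_K v).comp (by fun_prop : Measurable fun p : ℝ × ℝ => (p.1, t, p.2))).mul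
      (hF.comp measurable_snd)
  exact this.measurable

/-- The `L²` bound. -/
theorem TK_L2 (v : ℝ≥0) (t : ℝ) {F : ℝ → ℂ} (hF : Measurable F) (hi : Integrable F) :
    ∫⁻ ξ, ‖TK v t F ξ‖ₑ ^ 2 ≤ ENNReal.ofReal (2 * Real.pi) * ∫⁻ z, ‖F z‖ₑ ^ 2 := by
  have h := plancherel1 (μ := (volume : Measure ℝ).prod (gaussianReal 0 v))
    (s := fun x : ℝ × ℝ => x.1 + x.2) (by fun_prop) (C := 1) (fun φ hφ => ?_)
    (G := fun x : ℝ × ℝ => u (t * (x.1 + x.2) ^ 2) * F x.1)
    ((measurable_u.comp (by fun_prop)).mul (hF.comp measurable_fst))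
  · have e1 : ∀ ξ, TK v t F ξ = ∫ x : ℝ × ℝ, u (ξ * (x.1 + x.2)) *
        (u (t * (x.1 + x.2) ^ 2) * F x.1) ∂((volume : Measure ℝ).prod (gaussianReal 0 v)) := by
      intro ξ
      have hint : Integrable (fun x : ℝ × ℝ => u (ξ * (x.1 + x.2)) *
          (u (t * (x.1 + x.2) ^ 2) * F x.1)) ((volume : Measure ℝ).prod (gaussianReal 0 v)) := by
        have h0 : Integrable (fun x : ℝ × ℝ => F x.1)
            ((volume : Measure ℝ).prod (gaussianReal 0 v)) := hi.comp_fst _
        refine (h0.bdd_mul (c := 1) (f := fun x : ℝ × ℝ => u (t * (x.1 + x.2) ^ 2)) ?_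
          (Eventually.of_forall fun x => (norm_u _).le)).bdd_mul (c := 1)
          (f := fun x : ℝ × ℝ => u (ξ * (x.1 + x.2))) ?_
          (Eventually.of_forall fun x => (norm_u _).le)
        · exact (measurable_u.comp (by fun_prop)).aestronglyMeasurable
        · exact (measurable_u.comp (by fun_prop)).aestronglyMeasurable
      rw [integral_prod _ hint]
      unfold TK K
      refine integral_congr_ae (Eventually.of_forall fun z => ?_)
      simp only
      rw [← integral_mul_const]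
      refine integral_congr_ae (Eventually.of_forall fun s => ?_)
      simp only
      rw [← mul_assoc, ← u_add]
    simp only [e1]
    refine h.trans (le_of_eq ?_)
    rw [one_mul]
    congr 1
    have hm : Measurable (fun x : ℝ × ℝ => ‖u (t * (x.1 + x.2) ^ 2) * F x.1‖ₑ ^ 2) :=
      ((measurable_u.comp (by fun_prop)).mul (hF.comp measurable_fst)).enorm.pow_const 2
    rw [lintegral_prod _ hm.aemeasurable]
    refine lintegral_congr fun z => ?_
    simp only [enorm_mul, enorm_u, one_mul]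
    rw [lintegral_const, measure_univ, mul_one]
  · rw [one_mul, lintegral_prod_symm _ (by fun_prop)]
    have e2 : ∀ s : ℝ, ∫⁻ z : ℝ, φ (z + s) = ∫⁻ z, φ z := fun s =>
      lintegral_add_right_eq_self φ s
    simp only [e2]
    rw [lintegral_const, measure_univ, mul_one]

/-- The constant in the supremum bound. -/
noncomputable def kap (v : ℝ≥0) (t : ℝ) : ℝ := √(10 * Real.pi / v) / (2 * t)

theorem kap_pos {v : ℝ≥0} (hv : v ≠ 0) {t : ℝ} (ht : 0 < t) : 0 < kap v t := by
  have hv' : (0 : ℝ) < v := by positivity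
  unfold kap
  have : 0 < √(10 * Real.pi / v) := Real.sqrt_pos.2 (by positivity)
  positivity

theorem norm_K_le' {v : ℝ≥0} (hv : v ≠ 0) {t : ℝ} (ht : 0 < t) (htv : t * v ≤ 1) (ξ z : ℝ) :
    ‖K v ξ t z‖ ≤ Real.exp (-(4 * t ^ 2 * v / 10) * (z + ξ / (2 * t)) ^ 2) := by
  refine (norm_K_le hv ξ t z).trans ?_
  have hv' : (0 : ℝ) < v := by positivity
  apply Real.exp_le_exp.2
  have h1 : 1 + 4 * (v : ℝ) ^ 2 * t ^ 2 ≤ 5 := by
    have : (t * v) ^ 2 ≤ 1 := by
      have h0 : 0 ≤ t * v := by positivity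
      nlinarith
    nlinarith
  have e : (ξ + 2 * t * z) ^ 2 = 4 * t ^ 2 * (z + ξ / (2 * t)) ^ 2 := by
    field_simp
    ring
  rw [e]
  have h2 : 4 * t ^ 2 * (z + ξ / (2 * t)) ^ 2 * v / (2 * 5) ≤
      4 * t ^ 2 * (z + ξ / (2 * t)) ^ 2 * v / (2 * (1 + 4 * v ^ 2 * t ^ 2)) := by
    gcongr
  calc -(4 * t ^ 2 * (z + ξ / (2 * t)) ^ 2 * v / (2 * (1 + 4 * v ^ 2 * t ^ 2)))
      ≤ -(4 * t ^ 2 * (z + ξ / (2 * t)) ^ 2 * v / (2 * 5)) := by linarith
    _ = _ := by ring

theorem integrable_gauss_shift {b : ℝ} (hb : 0 < b) (c : ℝ) :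
    Integrable fun z : ℝ => Real.exp (-b * (z + c) ^ 2) :=
  (integrable_exp_neg_mul_sq hb).comp_add_right c

/-- The supremum bound. -/
theorem TK_sup {v : ℝ≥0} (hv : v ≠ 0) {t : ℝ} (ht : 0 < t) (htv : t * v ≤ 1) {F : ℝ → ℂ}
    {m : ℝ} (hF : ∀ z, ‖F z‖ ≤ m) (ξ : ℝ) : ‖TK v t F ξ‖ ≤ kap v t * m := by
  have hv' : (0 : ℝ) < v := by positivity
  have hb : 0 < 4 * t ^ 2 * (v : ℝ) / 10 := by positivity
  have hm : 0 ≤ m := (norm_nonneg _).trans (hF 0)
  unfold TK
  calc ‖∫ z, K v ξ t z * F z‖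
      ≤ ∫ z, Real.exp (-(4 * t ^ 2 * v / 10) * (z + ξ / (2 * t)) ^ 2) * m := by
        refine norm_integral_le_of_norm_le ((integrable_gauss_shift hb _).mul_const m)
          (Eventually.of_forall fun z => ?_)
        rw [norm_mul]
        exact mul_le_mul (norm_K_le' hv ht htv ξ z) (hF z) (norm_nonneg _) (Real.exp_pos _).le
    _ = kap v t * m := by
        rw [integral_mul_const]
        congr 1
        rw [integral_add_right_eq_self (fun z : ℝ => Real.exp (-(4 * t ^ 2 * v / 10) * z ^ 2)),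
          integral_gaussian]
        unfold kap
        rw [show Real.pi / (4 * t ^ 2 * v / 10) = (10 * Real.pi / v) / (2 * t) ^ 2 by
          field_simp; ring, Real.sqrt_div' _ (by positivity), Real.sqrt_sq (by positivity)]

theorem integrable_KF {v : ℝ≥0} {t : ℝ} {F : ℝ → ℂ} (hi : Integrable F) (ξ : ℝ) :
    Integrable fun z => K v ξ t z * F z := by
  refine hi.bdd_mul (c := 1) (f := fun z => K v ξ t z) ?_ ?_
  · exact ((measurable_K v).comp (by fun_prop : Measurable fun z : ℝ =>
      (ξ, t, z))).aestronglyMeasurable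
  · refine Eventually.of_forall fun x => ?_
    unfold K
    refine (norm_integral_le_of_norm_le_const (Eventually.of_forall fun s =>
      (norm_u _).le)).trans ?_
    simp

theorem TK_add {v : ℝ≥0} {t : ℝ} {F G : ℝ → ℂ} (hF : Integrable F) (hG : Integrable G) (ξ : ℝ) :
    TK v t (fun z => F z + G z) ξ = TK v t F ξ + TK v t G ξ := by
  unfold TK
  rw [← integral_add (integrable_KF hF ξ) (integrable_KF hG ξ)]
  refine integral_congr_ae (Eventually.of_forall fun z => ?_)
  simp only
  ring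

end Pool.Agent.Restr
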