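import Mathlib
import Pool.Agent.Restr.Operator

/-!
# A fourth power bound by real interpolation, and the block estimate for smoothed functions
-/

namespace Pool.Agent.Restr

open MeasureTheory Set Filter ProbabilityTheory
open scoped ENNReal NNReal Topology

/-- The weak-type step. -/
theorem weak_step {v : ℝ≥0} (hv : v ≠ 0) {t : ℝ} (ht : 0 < t) (htv : t * v ≤ 1) {F : ℝ → ℂ}
    (hF : Measurable F) (hi : Integrable F) {l : ℝ} (hl : 0 < l) :
    volume {ξ | l < ‖TK v t F ξ‖} * ENNReal.ofReal (l ^ ((4 : ℝ) - 1)) ≤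
      ∫⁻ z, (if l < 2 * kap v t * ‖F z‖ then ENNReal.ofReal (8 * Real.pi * l) * ‖F z‖ₑ ^ 2
        else 0) := by
  have hk := kap_pos hv ht
  set a := l / (2 * kap v t) with ha
  have ha0 : 0 < a := by positivity
  have hset : MeasurableSet {z | a < ‖F z‖} := measurableSet_lt measurable_const hF.norm
  set F1 : ℝ → ℂ := {z | a < ‖F z‖}.indicator F with hF1
  set F0 : ℝ → ℂ := {z | a < ‖F z‖}ᶜ.indicator F with hF0
  have hF1m : Measurable F1 := hF.indicator hset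
  have hF1i : Integrable F1 := hi.indicator hset
  have hF0i : Integrable F0 := hi.indicator hset.compl
  have hsum : ∀ ξ, TK v t F ξ = TK v t F0 ξ + TK v t F1 ξ := by
    intro ξ
    rw [← TK_add hF0i hF1i]
    congr 1
    funext z
    have := congrFun (indicator_compl_add_self {z | a < ‖F z‖} F) z
    exact this.symm
  have hF0b : ∀ z, ‖F0 z‖ ≤ a := by
    intro z
    by_cases hz : a < ‖F z‖
    · have : z ∉ {z | a < ‖F z‖}ᶜ := by simpa using hz
      rw [hF0, indicator_of_notMem this, norm_zero]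
      exact ha0.le
    · have : z ∈ {z | a < ‖F z‖}ᶜ := by simpa using hz
      rw [hF0, indicator_of_mem this]
      exact not_lt.1 hz
  have hsup : ∀ ξ, ‖TK v t F0 ξ‖ ≤ l / 2 := by
    intro ξ
    refine (TK_sup hv ht htv hF0b ξ).trans (le_of_eq ?_)
    rw [ha]
    field_simp
  have hsub : {ξ | l < ‖TK v t F ξ‖} ⊆ {ξ | ENNReal.ofReal (l ^ 2 / 4) ≤ ‖TK v t F1 ξ‖ₑ ^ 2} := by
    intro ξ hξ
    have hξ' : l < ‖TK v t F ξ‖ := hξ
    change ENNReal.ofReal (l ^ 2 / 4) ≤ ‖TK v t F1 ξ‖ₑ ^ 2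
    rw [← ofReal_norm, ← ENNReal.ofReal_pow (norm_nonneg _)]
    apply ENNReal.ofReal_le_ofReal
    have h1 : l / 2 < ‖TK v t F1 ξ‖ := by
      have h2 := norm_add_le (TK v t F0 ξ) (TK v t F1 ξ)
      rw [← hsum] at h2
      linarith [hsup ξ]
    nlinarith
  have hcheb : volume {ξ | l < ‖TK v t F ξ‖} ≤
      (ENNReal.ofReal (2 * Real.pi) * ∫⁻ z, ‖F1 z‖ₑ ^ 2) / ENNReal.ofReal (l ^ 2 / 4) := by
    refine (measure_mono hsub).trans ?_
    refine (meas_ge_le_lintegral_div ((measurable_TK v t hF1m).enorm.pow_const 2).aemeasurable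
      (ENNReal.ofReal_pos.2 (by positivity)).ne' ENNReal.ofReal_ne_top).trans ?_
    gcongr
    exact TK_L2 v t hF1m hF1i
  have e1 : ∀ z, ‖F1 z‖ₑ ^ 2 = if l < 2 * kap v t * ‖F z‖ then ‖F z‖ₑ ^ 2 else 0 := by
    intro z
    have hiff : l < 2 * kap v t * ‖F z‖ ↔ a < ‖F z‖ := by
      rw [ha, div_lt_iff₀ (by positivity), mul_comm ‖F z‖]
    by_cases hz : a < ‖F z‖
    · have : z ∈ {z | a < ‖F z‖} := hz
      rw [if_pos (hiff.2 hz), hF1, indicator_of_mem this]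
    · have : z ∉ {z | a < ‖F z‖} := hz
      rw [if_neg (fun h => hz (hiff.1 h)), hF1, indicator_of_notMem this]
      simp
  have hmm : Measurable fun z => ‖F1 z‖ₑ ^ 2 := hF1m.enorm.pow_const 2
  calc volume {ξ | l < ‖TK v t F ξ‖} * ENNReal.ofReal (l ^ ((4 : ℝ) - 1))
      ≤ (ENNReal.ofReal (2 * Real.pi) * ∫⁻ z, ‖F1 z‖ₑ ^ 2) / ENNReal.ofReal (l ^ 2 / 4) *
        ENNReal.ofReal (l ^ ((4 : ℝ) - 1)) := by gcongr
    _ = ENNReal.ofReal (8 * Real.pi * l) * ∫⁻ z, ‖F1 z‖ₑ ^ 2 := by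
        have hl3 : l ^ ((4 : ℝ) - 1) = l ^ 3 := by
          rw [show (4 : ℝ) - 1 = ((3 : ℕ) : ℝ) by norm_num, Real.rpow_natCast]
        rw [hl3, div_eq_mul_inv, ← ENNReal.ofReal_inv_of_pos (by positivity)]
        calc ENNReal.ofReal (2 * Real.pi) * (∫⁻ z, ‖F1 z‖ₑ ^ 2) * ENNReal.ofReal (l ^ 2 / 4)⁻¹ *
              ENNReal.ofReal (l ^ 3)
            = (ENNReal.ofReal (2 * Real.pi) * ENNReal.ofReal (l ^ 2 / 4)⁻¹ *
              ENNReal.ofReal (l ^ 3)) * ∫⁻ z, ‖F1 z‖ₑ ^ 2 := by ring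
          _ = _ := by
              rw [← ENNReal.ofReal_mul (by positivity), ← ENNReal.ofReal_mul (by positivity)]
              congr 2
              field_simp
              ring
    _ = ∫⁻ z, ENNReal.ofReal (8 * Real.pi * l) * ‖F1 z‖ₑ ^ 2 := (lintegral_const_mul _ hmm).symm
    _ = _ := by
        refine lintegral_congr fun z => ?_
        rw [e1 z]
        split_ifs <;> simp

theorem inner_layer {a : ℝ} (ha : 0 ≤ a) :
    ∫⁻ l in Ioi (0 : ℝ), (if l < a then ENNReal.ofReal (8 * Real.pi * l) else 0) ≤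
      ENNReal.ofReal (4 * Real.pi * a ^ 2) := by
  have h1 : ∫⁻ l in Ioi (0 : ℝ), (if l < a then ENNReal.ofReal (8 * Real.pi * l) else 0) ≤
      ∫⁻ l in Ioc (0 : ℝ) a, ENNReal.ofReal (8 * Real.pi * l) := by
    rw [← lintegral_indicator measurableSet_Ioi, ← lintegral_indicator measurableSet_Ioc]
    refine lintegral_mono fun l => ?_
    by_cases h0 : 0 < l
    · by_cases hl : l < a
      · rw [indicator_of_mem (show l ∈ Ioi (0 : ℝ) from h0),
          indicator_of_mem (show l ∈ Ioc (0 : ℝ) a from ⟨h0, hl.le⟩), if_pos hl]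
      · rw [indicator_of_mem (show l ∈ Ioi (0 : ℝ) from h0), if_neg hl]
        exact bot_le
    · rw [indicator_of_notMem (show l ∉ Ioi (0 : ℝ) from h0)]
      exact bot_le
  refine h1.trans ?_
  have hint : IntervalIntegrable (fun l : ℝ => 8 * Real.pi * l) volume 0 a := by
    apply Continuous.intervalIntegrable
    fun_prop
  have hval : ∫ l in (0 : ℝ)..a, 8 * Real.pi * l = 4 * Real.pi * a ^ 2 := by
    rw [intervalIntegral.integral_const_mul, integral_id]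
    ring
  rw [intervalIntegrable_iff_integrableOn_Ioc_of_le ha] at hint
  rw [intervalIntegral.integral_of_le ha] at hval
  rw [← hval, ofReal_integral_eq_lintegral_ofReal hint]
  rw [Filter.EventuallyLE, ae_restrict_iff' measurableSet_Ioc]
  refine Eventually.of_forall fun l hl => ?_
  have : 0 < l := hl.1
  simp only [Pi.zero_apply]
  positivity

/-- The fourth power bound. -/
theorem TK_L4 {v : ℝ≥0} (hv : v ≠ 0) {t : ℝ} (ht : 0 < t) (htv : t * v ≤ 1) {F : ℝ → ℂ}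
    (hF : Measurable F) (hi : Integrable F) :
    ∫⁻ ξ, ‖TK v t F ξ‖ₑ ^ 4 ≤ ENNReal.ofReal (64 * Real.pi * kap v t ^ 2) * ∫⁻ z, ‖F z‖ₑ ^ 4 := by
  have hk := kap_pos hv ht
  have hTm := measurable_TK v t hF
  have hlc := lintegral_rpow_eq_lintegral_meas_lt_mul (volume : Measure ℝ)
    (f := fun ξ => ‖TK v t F ξ‖) (Eventually.of_forall fun ξ => norm_nonneg _)
    hTm.norm.aemeasurable (p := 4) (by norm_num)
  have e0 : ∫⁻ ξ, ‖TK v t F ξ‖ₑ ^ 4 = ∫⁻ ξ, ENNReal.ofReal (‖TK v t F ξ‖ ^ (4 : ℝ)) := by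
    refine lintegral_congr fun ξ => ?_
    rw [show (4 : ℝ) = ((4 : ℕ) : ℝ) by norm_num, Real.rpow_natCast,
      ENNReal.ofReal_pow (norm_nonneg _), ofReal_norm]
  rw [e0, hlc]
  have hjm : Measurable (fun p : ℝ × ℝ => if p.1 < 2 * kap v t * ‖F p.2‖ then
      ENNReal.ofReal (8 * Real.pi * p.1) * ‖F p.2‖ₑ ^ 2 else 0) := by
    refine Measurable.ite ?_ ?_ measurable_const
    · exact measurableSet_lt measurable_fst (measurable_const.mul (hF.comp measurable_snd).norm)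
    · exact (by fun_prop : Measurable fun p : ℝ × ℝ => ENNReal.ofReal (8 * Real.pi * p.1)).mul
        ((hF.comp measurable_snd).enorm.pow_const 2)
  calc ENNReal.ofReal 4 * ∫⁻ l in Ioi (0 : ℝ), volume {ξ | l < ‖TK v t F ξ‖} *
        ENNReal.ofReal (l ^ ((4 : ℝ) - 1))
      ≤ ENNReal.ofReal 4 * ∫⁻ l in Ioi (0 : ℝ), ∫⁻ z, (if l < 2 * kap v t * ‖F z‖ then
        ENNReal.ofReal (8 * Real.pi * l) * ‖F z‖ₑ ^ 2 else 0) := by
        gcongr ENNReal.ofReal 4 * ?_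
        refine setLIntegral_mono' measurableSet_Ioi fun l hl => ?_
        exact weak_step hv ht htv hF hi hl
    _ = ENNReal.ofReal 4 * ∫⁻ z, ∫⁻ l in Ioi (0 : ℝ), (if l < 2 * kap v t * ‖F z‖ then
        ENNReal.ofReal (8 * Real.pi * l) * ‖F z‖ₑ ^ 2 else 0) := by
        congr 1
        exact lintegral_lintegral_swap hjm.aemeasurable
    _ ≤ ENNReal.ofReal 4 * ∫⁻ z, ENNReal.ofReal (16 * Real.pi * kap v t ^ 2) * ‖F z‖ₑ ^ 4 := by
        gcongr ENNReal.ofReal 4 * ?_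
        refine lintegral_mono fun z => ?_
        have e2 : ∀ l : ℝ, (if l < 2 * kap v t * ‖F z‖ then
            ENNReal.ofReal (8 * Real.pi * l) * ‖F z‖ₑ ^ 2 else 0) =
            (if l < 2 * kap v t * ‖F z‖ then ENNReal.ofReal (8 * Real.pi * l) else 0) *
              ‖F z‖ₑ ^ 2 := by
          intro l
          split_ifs <;> simp
        simp only [e2]
        have hm3 : Measurable (fun l : ℝ => if l < 2 * kap v t * ‖F z‖ then
            ENNReal.ofReal (8 * Real.pi * l) else 0) :=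
          Measurable.ite (measurableSet_lt measurable_id measurable_const) (by fun_prop)
            measurable_const
        rw [lintegral_mul_const _ hm3]
        calc (∫⁻ l in Ioi (0 : ℝ), (if l < 2 * kap v t * ‖F z‖ then
              ENNReal.ofReal (8 * Real.pi * l) else 0)) * ‖F z‖ₑ ^ 2
            ≤ ENNReal.ofReal (4 * Real.pi * (2 * kap v t * ‖F z‖) ^ 2) * ‖F z‖ₑ ^ 2 := by
              gcongr
              exact inner_layer (by positivity)
          _ = _ := by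
              rw [show 4 * Real.pi * (2 * kap v t * ‖F z‖) ^ 2 =
                (16 * Real.pi * kap v t ^ 2) * ‖F z‖ ^ 2 by ring,
                ENNReal.ofReal_mul (by positivity), ENNReal.ofReal_pow (norm_nonneg _),
                ofReal_norm]
              ring
    _ = _ := by
        rw [lintegral_const_mul _ (hF.enorm.pow_const 4), ← mul_assoc,
          ← ENNReal.ofReal_mul (by norm_num)]
        congr 2
        ring

theorem measurable_E1_joint {r : ℝ × ℝ → ℂ} (hr : Measurable r) :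
    Measurable (fun p : ℝ × ℝ × ℝ => E1 (fun x => r (x, p.1)) (p.2.1, p.2.2)) := by
  have : StronglyMeasurable (fun p : ℝ × ℝ × ℝ =>
      ∫ x : ℝ, u (p.2.1 * x + p.2.2 * x ^ 2) * r (x, p.1)) := by
    apply StronglyMeasurable.integral_prod_right
      (f := fun (p : ℝ × ℝ × ℝ) (x : ℝ) => u (p.2.1 * x + p.2.2 * x ^ 2) * r (x, p.1))
    apply Measurable.stronglyMeasurable
    exact (measurable_u.comp (by fun_prop)).mul (hr.comp (by fun_prop))
  exact this.measurable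

theorem measurable_E {f : ℝ × ℝ → ℂ} (hf : Measurable f) : Measurable (E f) := by
  have : StronglyMeasurable (fun ξ : ℝ × ℝ × ℝ => ∫ x : ℝ × ℝ,
      u (ξ.1 * x.1 + (ξ.2.1 * x.2 + ξ.2.2 * (x.1 ^ 2 + x.2 ^ 2))) * f x) := by
    apply StronglyMeasurable.integral_prod_right
      (f := fun (ξ : ℝ × ℝ × ℝ) (x : ℝ × ℝ) =>
        u (ξ.1 * x.1 + (ξ.2.1 * x.2 + ξ.2.2 * (x.1 ^ 2 + x.2 ^ 2))) * f x)
    apply Measurable.stronglyMeasurable
    exact (measurable_u.comp (by fun_prop)).mul (hf.comp (by fun_prop))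
  exact this.measurable

/-- A measure-theoretic rearrangement on a time block. -/
theorem block_abstract {T : ℝ} (hT : 0 < T) {N J : ℝ × ℝ × ℝ → ℝ≥0∞} (hN : Measurable N)
    (hJ : Measurable J) {c : ℝ≥0∞} (hc : c ≠ ⊤) {B : ℝ → ℝ≥0∞}
    (h1 : ∀ t ∈ Ico T (2 * T), ∀ a, ∫⁻ b, N (a, b, t) ≤ c * ∫⁻ z, J (z, a, t))
    (h2 : ∀ z, ∫⁻ w : ℝ × ℝ, J (z, w.1, w.2) *
      ENNReal.ofReal (Real.exp (-(1 / T ^ 2) * w.2 ^ 2)) ≤ B z) :
    ∫⁻ t in Ico T (2 * T), ∫⁻ b, ∫⁻ a, N (a, b, t) ≤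
      c * (ENNReal.ofReal (Real.exp 4) * ∫⁻ z, B z) := by
  have hw : ∀ t ∈ Ico T (2 * T), (1 : ℝ≥0∞) ≤ ENNReal.ofReal (Real.exp 4) *
      ENNReal.ofReal (Real.exp (-(1 / T ^ 2) * t ^ 2)) := by
    intro t ht
    rw [← ENNReal.ofReal_mul (Real.exp_pos _).le, ← Real.exp_add, ← ENNReal.ofReal_one]
    apply ENNReal.ofReal_le_ofReal
    apply Real.one_le_exp
    have h5 : t ^ 2 ≤ 4 * T ^ 2 := by
      have h6 := ht.1
      have h7 := ht.2
      nlinarith
    have : 1 / T ^ 2 * t ^ 2 ≤ 4 := by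
      rw [one_div, inv_mul_le_iff₀ (by positivity)]
      linarith
    linarith
  have hjm : Measurable (fun p : ℝ × ℝ × ℝ => J (p.2.2, p.2.1, p.1) *
      ENNReal.ofReal (Real.exp (-(1 / T ^ 2) * p.1 ^ 2))) := by fun_prop
  have step1 : ∀ t ∈ Ico T (2 * T), ∫⁻ b, ∫⁻ a, N (a, b, t) ≤
      c * (ENNReal.ofReal (Real.exp 4) * ∫⁻ a, ∫⁻ z, J (z, a, t) *
        ENNReal.ofReal (Real.exp (-(1 / T ^ 2) * t ^ 2))) := by
    intro t ht
    have hsw : ∫⁻ b, ∫⁻ a, N (a, b, t) = ∫⁻ a, ∫⁻ b, N (a, b, t) :=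
      lintegral_lintegral_swap
        (by fun_prop : Measurable fun p : ℝ × ℝ => N (p.2, p.1, t)).aemeasurable
    rw [hsw]
    calc ∫⁻ a, ∫⁻ b, N (a, b, t) ≤ ∫⁻ a, c * ∫⁻ z, J (z, a, t) :=
          lintegral_mono fun a => h1 t ht a
      _ = c * ∫⁻ a, ∫⁻ z, J (z, a, t) := lintegral_const_mul' _ _ hc
      _ ≤ _ := ?_
    gcongr c * ?_
    have e2 : ∫⁻ a, ∫⁻ z, J (z, a, t) * ENNReal.ofReal (Real.exp (-(1 / T ^ 2) * t ^ 2)) =
        (∫⁻ a, ∫⁻ z, J (z, a, t)) * ENNReal.ofReal (Real.exp (-(1 / T ^ 2) * t ^ 2)) := by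
      rw [← lintegral_mul_const' _ _ ENNReal.ofReal_ne_top]
      refine lintegral_congr fun a => ?_
      rw [lintegral_mul_const' _ _ ENNReal.ofReal_ne_top]
    rw [e2]
    calc ∫⁻ a, ∫⁻ z, J (z, a, t) = (∫⁻ a, ∫⁻ z, J (z, a, t)) * 1 := (mul_one _).symm
      _ ≤ (∫⁻ a, ∫⁻ z, J (z, a, t)) * (ENNReal.ofReal (Real.exp 4) *
          ENNReal.ofReal (Real.exp (-(1 / T ^ 2) * t ^ 2))) := by
          gcongr
          exact hw t ht
      _ = _ := by ring
  have s1 : ∀ t, ∫⁻ a, ∫⁻ z, J (z, a, t) * ENNReal.ofReal (Real.exp (-(1 / T ^ 2) * t ^ 2)) =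
      ∫⁻ z, ∫⁻ a, J (z, a, t) * ENNReal.ofReal (Real.exp (-(1 / T ^ 2) * t ^ 2)) := by
    intro t
    exact lintegral_lintegral_swap
      (by fun_prop : Measurable fun p : ℝ × ℝ => J (p.2, p.1, t) *
        ENNReal.ofReal (Real.exp (-(1 / T ^ 2) * t ^ 2))).aemeasurable
  have hm5 : Measurable (fun p : ℝ × ℝ => ∫⁻ a, J (p.2, a, p.1) *
      ENNReal.ofReal (Real.exp (-(1 / T ^ 2) * p.1 ^ 2))) := by
    apply Measurable.lintegral_prod_right'
      (f := fun q : (ℝ × ℝ) × ℝ => J (q.1.2, q.2, q.1.1) *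
        ENNReal.ofReal (Real.exp (-(1 / T ^ 2) * q.1.1 ^ 2)))
    fun_prop
  have hswap : ∫⁻ t, ∫⁻ a, ∫⁻ z, J (z, a, t) *
      ENNReal.ofReal (Real.exp (-(1 / T ^ 2) * t ^ 2)) ≤ ∫⁻ z, B z := by
    simp only [s1]
    rw [lintegral_lintegral_swap hm5.aemeasurable]
    refine lintegral_mono fun z => ?_
    refine le_trans (le_of_eq ?_) (h2 z)
    have hm6 : Measurable (fun w : ℝ × ℝ => J (z, w.1, w.2) *
        ENNReal.ofReal (Real.exp (-(1 / T ^ 2) * w.2 ^ 2))) := by fun_prop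
    rw [Measure.volume_eq_prod, lintegral_prod_symm _ hm6.aemeasurable]
  calc ∫⁻ t in Ico T (2 * T), ∫⁻ b, ∫⁻ a, N (a, b, t)
      ≤ ∫⁻ t in Ico T (2 * T), c * (ENNReal.ofReal (Real.exp 4) * ∫⁻ a, ∫⁻ z, J (z, a, t) *
        ENNReal.ofReal (Real.exp (-(1 / T ^ 2) * t ^ 2))) :=
        setLIntegral_mono' measurableSet_Ico step1
    _ = c * (ENNReal.ofReal (Real.exp 4) * ∫⁻ t in Ico T (2 * T), ∫⁻ a, ∫⁻ z, J (z, a, t) *
        ENNReal.ofReal (Real.exp (-(1 / T ^ 2) * t ^ 2))) := by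
        rw [lintegral_const_mul' _ _ hc, lintegral_const_mul' _ _ ENNReal.ofReal_ne_top]
    _ ≤ c * (ENNReal.ofReal (Real.exp 4) * ∫⁻ t, ∫⁻ a, ∫⁻ z, J (z, a, t) *
        ENNReal.ofReal (Real.exp (-(1 / T ^ 2) * t ^ 2))) := by
        gcongr c * (ENNReal.ofReal (Real.exp 4) * ?_)
        exact setLIntegral_le_lintegral _ _
    _ ≤ _ := by
        gcongr c * (ENNReal.ofReal (Real.exp 4) * ?_)

theorem block_L4_aux {v : ℝ≥0} (hv : v ≠ 0) {T : ℝ} (hT : 0 < T) (hTv : 2 * T * v ≤ 1)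
    {r : ℝ × ℝ → ℂ} (hr : Measurable r) (hi : Integrable r) {t : ℝ} (ht : t ∈ Ico T (2 * T))
    (a : ℝ) : ∫⁻ b, ‖E (S v r) (a, b, t)‖ₑ ^ 4 ≤
      ENNReal.ofReal (64 * Real.pi * kap v T ^ 2) *
        ∫⁻ z, ‖E1 (fun x => r (x, z)) (a, t)‖ₑ ^ 4 := by
  have hint2 := hi
  rw [Measure.volume_eq_prod] at hint2
  have ht0 : 0 < t := lt_of_lt_of_le hT ht.1
  have htv : t * v ≤ 1 := by
    have : t * v ≤ 2 * T * v := by
      have h := ht.2.le
      gcongr
    linarith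
  set F : ℝ → ℂ := fun z => E1 (fun x => r (x, z)) (a, t) with hFdef
  have hFm : Measurable F := by
    have h := (measurable_E1_joint hr).comp (by fun_prop : Measurable fun z : ℝ => (z, a, t))
    exact h
  have hFi : Integrable F := by
    have h3 : Integrable (fun x : ℝ × ℝ => u (a * x.1 + t * x.1 ^ 2) * r (x.1, x.2))
        ((volume : Measure ℝ).prod volume) := by
      refine hint2.bdd_mul (c := 1) (f := fun x : ℝ × ℝ => u (a * x.1 + t * x.1 ^ 2)) ?_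
        (Eventually.of_forall fun x => (norm_u _).le)
      exact (measurable_u.comp (by fun_prop)).aestronglyMeasurable
    exact h3.integral_prod_right
  have h4 := TK_L4 hv ht0 htv hFm hFi
  have e1 : ∀ b, E (S v r) (a, b, t) = TK v t F b := by
    intro b
    rw [E_S v hr hi]
    rfl
  simp only [e1]
  refine h4.trans ?_
  have hkk : kap v t ≤ kap v T := by
    unfold kap
    have := ht.1
    gcongr
  have hk0 := (kap_pos hv ht0).le
  have hc : ENNReal.ofReal (64 * Real.pi * kap v t ^ 2) ≤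
      ENNReal.ofReal (64 * Real.pi * kap v T ^ 2) := by
    apply ENNReal.ofReal_le_ofReal
    gcongr
  exact mul_le_mul' hc le_rfl

/-- The fourth power estimate on the time block `[T, 2T)` for a smoothed function. -/
theorem block_L4 {v : ℝ≥0} (hv : v ≠ 0) {T : ℝ} (hT : 0 < T) (hTv : 2 * T * v ≤ 1)
    {r : ℝ × ℝ → ℂ} (hr : Measurable r) (hi : Integrable r)
    (hr0 : ∀ x z, x ∉ Icc (-(1 / 2) : ℝ) (1 / 2) → r (x, z) = 0)
    {θ : ℝ} (hθ : 0 < θ) (hθ1 : θ < 1) :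
    ∫⁻ t in Ico T (2 * T), ∫⁻ b, ∫⁻ a, ‖E (S v r) (a, b, t)‖ₑ ^ 4 ≤
      ENNReal.ofReal (64 * Real.pi * kap v T ^ 2) * (ENNReal.ofReal (Real.exp 4) *
        (ENNReal.ofReal (2 * Real.pi) * (ENNReal.ofReal (√(Real.pi * T ^ 2)) ^ θ *
        ENNReal.ofReal (4 * (2 / θ))) * ∫⁻ x, ‖r x‖ₑ ^ 4)) := by
  have hδ : 0 < 1 / T ^ 2 := by positivity
  have hNm : Measurable (fun p : ℝ × ℝ × ℝ => ‖E (S v r) p‖ₑ ^ 4) :=
    (measurable_E (measurable_S v hr)).enorm.pow_const 4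
  have hJm : Measurable (fun p : ℝ × ℝ × ℝ => ‖E1 (fun x => r (x, p.1)) (p.2.1, p.2.2)‖ₑ ^ 4) :=
    (measurable_E1_joint hr).enorm.pow_const 4
  have hfin : ∀ z, ∫⁻ w : ℝ × ℝ, ‖E1 (fun x => r (x, z)) (w.1, w.2)‖ₑ ^ 4 *
        ENNReal.ofReal (Real.exp (-(1 / T ^ 2) * w.2 ^ 2)) ≤
      ENNReal.ofReal (2 * Real.pi) * (ENNReal.ofReal (√(Real.pi * T ^ 2)) ^ θ *
        ENNReal.ofReal (4 * (2 / θ))) * ∫⁻ x, ‖r (x, z)‖ₑ ^ 4 := by
    intro z
    have h8 := E1_weighted (g := fun x => r (x, z)) (hr.comp measurable_prodMk_right)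
      (fun x hx => hr0 x z hx) hδ hθ hθ1
    rw [show Real.pi / (1 / T ^ 2) = Real.pi * T ^ 2 by field_simp] at h8
    exact h8
  have hmain := block_abstract hT hNm hJm ENNReal.ofReal_ne_top
    (fun t ht a => block_L4_aux hv hT hTv hr hi ht a) hfin
  refine hmain.trans (le_of_eq ?_)
  have hm7 : Measurable (fun x : ℝ × ℝ => ‖r x‖ₑ ^ 4) := hr.enorm.pow_const 4
  have hm8 : Measurable (fun z => ∫⁻ x, ‖r (x, z)‖ₑ ^ 4) := by
    apply Measurable.lintegral_prod_right' (f := fun q : ℝ × ℝ => ‖r (q.2, q.1)‖ₑ ^ 4)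
    exact hm7.comp measurable_swap
  have e9 : ∫⁻ z, ∫⁻ x, ‖r (x, z)‖ₑ ^ 4 = ∫⁻ x, ‖r x‖ₑ ^ 4 := by
    rw [Measure.volume_eq_prod, lintegral_prod_symm _ hm7.aemeasurable]
  rw [lintegral_const_mul _ hm8, e9]

end Pool.Agent.Restr
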