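import Mathlib
import Pool.Agent.Restr.Marcin

/-!
# Time blocks: `L²` bound, interpolation, modulus of continuity
-/

namespace Pool.Agent.Restr

open MeasureTheory Set Filter ProbabilityTheory
open scoped ENNReal NNReal Topology

/-- The measure on (time, frequency) for the block `I` of times. -/
noncomputable def Lam (I : Set ℝ) : Measure (ℝ × ℝ × ℝ) :=
  (volume.restrict I).prod (volume.prod volume)

instance (I : Set ℝ) : SFinite (Lam I) := by unfold Lam; infer_instance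

/-- The extension operator in the ordering (time, second, first) of the variables. -/
noncomputable def Et (f : ℝ × ℝ → ℂ) (p : ℝ × ℝ × ℝ) : ℂ := E f (p.2.2, p.2.1, p.1)

theorem measurable_Et {f : ℝ × ℝ → ℂ} (hf : Measurable f) : Measurable (Et f) :=
  (measurable_E hf).comp (by fun_prop : Measurable fun p : ℝ × ℝ × ℝ => (p.2.2, p.2.1, p.1))

theorem lintegral_Lam {I : Set ℝ} {N : ℝ × ℝ × ℝ → ℝ≥0∞} (hN : Measurable N) :
    ∫⁻ p, N (p.2.2, p.2.1, p.1) ∂(Lam I) = ∫⁻ t in I, ∫⁻ b, ∫⁻ a, N (a, b, t) := by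
  unfold Lam
  rw [lintegral_prod _ (by fun_prop)]
  refine lintegral_congr fun t => ?_
  rw [lintegral_prod _ (by fun_prop)]

/-- `L²` bound on a block of times. -/
theorem block_L2 {I : Set ℝ} {f : ℝ × ℝ → ℂ} (hf : Measurable f) :
    ∫⁻ p, ‖Et f p‖ₑ ^ 2 ∂(Lam I) ≤
      volume I * (ENNReal.ofReal (4 * Real.pi ^ 2) * ∫⁻ x, ‖f x‖ₑ ^ 2) := by
  have hN : Measurable (fun p => ‖E f p‖ₑ ^ 2) := (measurable_E hf).enorm.pow_const 2
  have h := lintegral_Lam (I := I) hN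
  unfold Et
  rw [h]
  calc ∫⁻ t in I, ∫⁻ b, ∫⁻ a, ‖E f (a, b, t)‖ₑ ^ 2
      ≤ ∫⁻ _ in I, (ENNReal.ofReal (4 * Real.pi ^ 2) * ∫⁻ x, ‖f x‖ₑ ^ 2) := by
        refine lintegral_mono fun t => ?_
        refine le_trans (le_of_eq ?_) (L2_slice hf t)
        have hm : Measurable (fun w : ℝ × ℝ => ‖E f (w.1, w.2, t)‖ₑ ^ 2) := hN.comp
          (by fun_prop : Measurable fun w : ℝ × ℝ => (w.1, w.2, t))
        rw [Measure.volume_eq_prod, lintegral_prod_symm _ hm.aemeasurable]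
    _ = _ := by rw [setLIntegral_const, mul_comm]

/-- Tomas–Stein on a block. -/
theorem block_TS {I : Set ℝ} {f : ℝ × ℝ → ℂ} (hf : Measurable f) :
    ∫⁻ p, ‖Et f p‖ₑ ^ 4 ∂(Lam I) ≤
      ENNReal.ofReal (4 * Real.pi ^ 4) * (∫⁻ x, ‖f x‖ₑ ^ 2) ^ 2 := by
  have hN : Measurable (fun p => ‖E f p‖ₑ ^ 4) := (measurable_E hf).enorm.pow_const 4
  have h := lintegral_Lam (I := I) hN
  unfold Et
  rw [h]
  refine le_trans ?_ (tomas_stein hf)
  refine (setLIntegral_le_lintegral _ _).trans (le_of_eq ?_)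
  rw [Measure.volume_eq_prod (α := ℝ) (β := ℝ × ℝ), lintegral_prod_symm _ hN.aemeasurable]
  have hm1 : Measurable (fun y : ℝ × ℝ => ∫⁻ x, ‖E f (x, y)‖ₑ ^ 4) :=
    Measurable.lintegral_prod_right' (f := fun q : (ℝ × ℝ) × ℝ => ‖E f (q.2, q.1)‖ₑ ^ 4)
      (hN.comp (by fun_prop : Measurable fun q : (ℝ × ℝ) × ℝ => (q.2, q.1)))
  rw [Measure.volume_eq_prod, lintegral_prod_symm _ hm1.aemeasurable]

/-- Interpolation between the second and the fourth powers. -/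
theorem interp {α : Type*} [MeasurableSpace α] {m : Measure α} {F : α → ℝ≥0∞} (hF : Measurable F)
    {q : ℝ} (hq : 2 ≤ q) (hq4 : q ≤ 4) {a b : ℝ} (ha : 0 ≤ a) (hb : 0 ≤ b) {D : ℝ≥0∞}
    (h2 : ∫⁻ x, F x ^ 2 ∂m ≤ ENNReal.ofReal a * D ^ 2)
    (h4 : ∫⁻ x, F x ^ 4 ∂m ≤ ENNReal.ofReal b * D ^ 4) :
    ∫⁻ x, F x ^ q ∂m ≤ ENNReal.ofReal (a ^ ((4 - q) / 2) * b ^ ((q - 2) / 2)) * D ^ q := by
  have hp1 : 0 ≤ (4 - q) / 2 := by linarith
  have hp2 : 0 ≤ (q - 2) / 2 := by linarith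
  have e : ∀ y : ℝ≥0∞, y ^ q = (y ^ 2) ^ ((4 - q) / 2) * (y ^ 4) ^ ((q - 2) / 2) := by
    intro y
    rw [← ENNReal.rpow_natCast y 2, ← ENNReal.rpow_natCast y 4, ← ENNReal.rpow_mul,
      ← ENNReal.rpow_mul, ← ENNReal.rpow_add_of_nonneg _ _ (by push_cast; linarith)
      (by push_cast; linarith)]
    congr 1
    push_cast
    ring
  calc ∫⁻ x, F x ^ q ∂m = ∫⁻ x, (F x ^ 2) ^ ((4 - q) / 2) * (F x ^ 4) ^ ((q - 2) / 2) ∂m :=
        lintegral_congr fun x => e _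
    _ ≤ (∫⁻ x, F x ^ 2 ∂m) ^ ((4 - q) / 2) * (∫⁻ x, F x ^ 4 ∂m) ^ ((q - 2) / 2) :=
        ENNReal.lintegral_mul_norm_pow_le (hF.pow_const 2).aemeasurable
          (hF.pow_const 4).aemeasurable hp1 hp2 (by ring)
    _ ≤ (ENNReal.ofReal a * D ^ 2) ^ ((4 - q) / 2) *
        (ENNReal.ofReal b * D ^ 4) ^ ((q - 2) / 2) := by gcongr
    _ = _ := by
        rw [ENNReal.mul_rpow_of_nonneg _ _ hp1, ENNReal.mul_rpow_of_nonneg _ _ hp2,
          ENNReal.ofReal_rpow_of_nonneg ha hp1, ENNReal.ofReal_rpow_of_nonneg hb hp2, e D,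
          ENNReal.ofReal_mul (by positivity)]
        ring

/-- Jensen's inequality for squares. -/
theorem sq_lintegral_le {α : Type*} [MeasurableSpace α] {m : Measure α} [IsProbabilityMeasure m]
    {F : α → ℝ≥0∞} (hF : AEMeasurable F m) : (∫⁻ x, F x ∂m) ^ 2 ≤ ∫⁻ x, F x ^ 2 ∂m := by
  have h := ENNReal.lintegral_mul_norm_pow_le (μ := m) (f := fun x => F x ^ 2)
    (g := fun _ => 1) (hF.pow_const 2) aemeasurable_const (p := 1 / 2) (q := 1 / 2)
    (by norm_num) (by norm_num) (by norm_num)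
  have e : ∀ y : ℝ≥0∞, (y ^ 2) ^ (1 / 2 : ℝ) = y := by
    intro y
    rw [← ENNReal.rpow_natCast y 2, ← ENNReal.rpow_mul]
    norm_num
  simp only [e, ENNReal.one_rpow, mul_one, lintegral_const, measure_univ] at h
  calc (∫⁻ x, F x ∂m) ^ 2 ≤ ((∫⁻ x, F x ^ 2 ∂m) ^ (1 / 2 : ℝ)) ^ 2 := by gcongr
    _ = ∫⁻ x, F x ^ 2 ∂m := by
        rw [← ENNReal.rpow_natCast _ 2, ← ENNReal.rpow_mul]
        norm_num

/-- The second moment of a centred Gaussian. -/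
theorem lintegral_sq_gaussian (v : ℝ≥0) :
    ∫⁻ s, ENNReal.ofReal (s ^ 2) ∂(gaussianReal 0 v) = v := by
  have hmem : MemLp id 2 (gaussianReal 0 v) := memLp_id_gaussianReal 2
  have hint : Integrable (fun s : ℝ => s ^ 2) (gaussianReal 0 v) := hmem.integrable_sq
  rw [← ofReal_integral_eq_lintegral_ofReal hint (Eventually.of_forall fun s => sq_nonneg s)]
  have hvar := variance_id_gaussianReal (μ := 0) (v := v)
  rw [variance_eq_integral measurable_id.aemeasurable] at hvar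
  have hmean : ∫ s, id s ∂(gaussianReal 0 v) = 0 := by
    simp
  rw [hmean] at hvar
  simp only [id, sub_zero] at hvar
  rw [hvar]
  exact ENNReal.ofReal_coe_nnreal

/-- Fractional moments of a centred Gaussian. -/
theorem lintegral_frac_gaussian (v : ℝ≥0) {σ : ℝ} (h0 : 0 ≤ σ) (h1 : σ ≤ 1) :
    ∫⁻ s, ENNReal.ofReal (|s| ^ (2 * σ)) ∂(gaussianReal 0 v) ≤ (v : ℝ≥0∞) ^ σ := by
  have h := ENNReal.lintegral_mul_norm_pow_le (μ := gaussianReal 0 v)
    (f := fun s : ℝ => ENNReal.ofReal (s ^ 2))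
    (g := fun _ => 1) (by fun_prop) aemeasurable_const (p := σ) (q := 1 - σ)
    h0 (by linarith) (by ring)
  rw [lintegral_sq_gaussian] at h
  simp only [ENNReal.one_rpow, mul_one, lintegral_const, measure_univ] at h
  refine le_trans (le_of_eq ?_) h
  refine lintegral_congr fun s => ?_
  rw [ENNReal.ofReal_rpow_of_nonneg (sq_nonneg _) h0, Real.rpow_mul (abs_nonneg _)]
  congr 2
  rw [show (2 : ℝ) = ((2 : ℕ) : ℝ) by norm_num, Real.rpow_natCast, sq_abs]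

/-- The error of the Gaussian average in terms of the modulus of continuity. -/
theorem modulus_S (v : ℝ≥0) {f : ℝ × ℝ → ℂ} (hf : Measurable f) {M : ℝ} (hM : ∀ x, ‖f x‖ ≤ M)
    {σ : ℝ} (h0 : 0 ≤ σ) (h1 : σ ≤ 1) {D : ℝ≥0∞} (hD : D ≠ ⊤)
    (hmod : ∀ h : ℝ, 0 < h → ∫⁻ x : ℝ × ℝ, ‖f (x.1, x.2 + h) - f x‖ₑ ^ 2 ≤
      D ^ 2 * ENNReal.ofReal (h ^ (2 * σ))) :
    ∫⁻ x, ‖f x - S v f x‖ₑ ^ 2 ≤ D ^ 2 * (v : ℝ≥0∞) ^ σ := by
  have hshift : ∀ s : ℝ, ∫⁻ x : ℝ × ℝ, ‖f x - f (x.1, x.2 - s)‖ₑ ^ 2 ≤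
      D ^ 2 * ENNReal.ofReal (|s| ^ (2 * σ)) := by
    intro s
    rcases lt_trichotomy s 0 with hs | hs | hs
    · have h := hmod (-s) (by linarith)
      rw [abs_of_neg hs]
      refine le_trans (le_of_eq ?_) h
      refine lintegral_congr fun x => ?_
      rw [← sub_eq_add_neg, ← enorm_neg, neg_sub]
    · subst hs
      simp
    · have h := hmod s hs
      rw [abs_of_pos hs]
      refine le_trans (le_of_eq ?_) h
      rw [← lintegral_shift (fun x : ℝ × ℝ => ‖f (x.1, x.2 + s) - f x‖ₑ ^ 2) s]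
      refine lintegral_congr fun x => ?_
      simp
  have hm : Measurable (fun p : (ℝ × ℝ) × ℝ => f p.1 - f (p.1.1, p.1.2 - p.2)) :=
    (hf.comp measurable_fst).sub (hf.comp (by fun_prop))
  calc ∫⁻ x, ‖f x - S v f x‖ₑ ^ 2
      ≤ ∫⁻ x : ℝ × ℝ, ∫⁻ s, ‖f x - f (x.1, x.2 - s)‖ₑ ^ 2 ∂(gaussianReal 0 v) := by
        refine lintegral_mono fun x => ?_
        have hi : Integrable (fun s => f (x.1, x.2 - s)) (gaussianReal 0 v) := by
          refine Integrable.of_bound (C := M) ?_ (Eventually.of_forall fun s => hM _)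
          exact (hf.comp (by fun_prop)).aestronglyMeasurable
        have e1 : f x - S v f x = ∫ s, (f x - f (x.1, x.2 - s)) ∂(gaussianReal 0 v) := by
          rw [integral_sub (integrable_const _) hi]
          simp [S]
        simp only [e1]
        calc ‖∫ s, (f x - f (x.1, x.2 - s)) ∂(gaussianReal 0 v)‖ₑ ^ 2
            ≤ (∫⁻ s, ‖f x - f (x.1, x.2 - s)‖ₑ ∂(gaussianReal 0 v)) ^ 2 := by
              gcongr
              exact enorm_integral_le_lintegral_enorm _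
          _ ≤ _ := sq_lintegral_le (hm.comp measurable_prodMk_left).enorm.aemeasurable
    _ = ∫⁻ s, (∫⁻ x : ℝ × ℝ, ‖f x - f (x.1, x.2 - s)‖ₑ ^ 2) ∂(gaussianReal 0 v) :=
        lintegral_lintegral_swap (hm.enorm.pow_const 2).aemeasurable
    _ ≤ ∫⁻ s, D ^ 2 * ENNReal.ofReal (|s| ^ (2 * σ)) ∂(gaussianReal 0 v) :=
        lintegral_mono fun s => hshift s
    _ = D ^ 2 * ∫⁻ s, ENNReal.ofReal (|s| ^ (2 * σ)) ∂(gaussianReal 0 v) :=
        lintegral_const_mul' _ _ (by finiteness)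
    _ ≤ _ := by
        gcongr
        exact lintegral_frac_gaussian v h0 h1

/-- Jensen's inequality for powers. -/
theorem rpow_lintegral_le {α : Type*} [MeasurableSpace α] {m : Measure α}
    [IsProbabilityMeasure m] {q : ℝ} (hq : 1 ≤ q)
    {F : α → ℝ≥0∞} (hF : AEMeasurable F m) : (∫⁻ x, F x ∂m) ^ q ≤ ∫⁻ x, F x ^ q ∂m := by
  have hq0 : 0 < q := by linarith
  have hq1 : 1 / q ≤ 1 := by
    rw [div_le_one hq0]
    exact hq
  have h := ENNReal.lintegral_mul_norm_pow_le (μ := m) (f := fun x => F x ^ q)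
    (g := fun _ => 1) (hF.pow_const q) aemeasurable_const (p := 1 / q) (q := 1 - 1 / q)
    (by positivity) (by linarith) (by ring)
  have e : ∀ y : ℝ≥0∞, (y ^ q) ^ (1 / q) = y := by
    intro y
    rw [← ENNReal.rpow_mul, mul_one_div_cancel hq0.ne', ENNReal.rpow_one]
  simp only [e, ENNReal.one_rpow, mul_one, lintegral_const, measure_univ] at h
  calc (∫⁻ x, F x ∂m) ^ q ≤ ((∫⁻ x, F x ^ q ∂m) ^ (1 / q)) ^ q := by gcongr
    _ = ∫⁻ x, F x ^ q ∂m := by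
        rw [← ENNReal.rpow_mul, one_div_mul_cancel hq0.ne', ENNReal.rpow_one]

/-- The error of the Gaussian average in `L^q`. -/
theorem modulus_S_q (v : ℝ≥0) {f : ℝ × ℝ → ℂ} (hf : Measurable f) {M : ℝ} (hM : ∀ x, ‖f x‖ ≤ M)
    {q τ : ℝ} (hq : 1 ≤ q) (h0 : 0 ≤ τ) (h1 : τ ≤ 2) {D : ℝ≥0∞} (hD : D ≠ ⊤)
    (hmod : ∀ h : ℝ, 0 < h → ∫⁻ x : ℝ × ℝ, ‖f (x.1, x.2 + h) - f x‖ₑ ^ q ≤
      D ^ q * ENNReal.ofReal (h ^ τ)) :
    ∫⁻ x, ‖f x - S v f x‖ₑ ^ q ≤ D ^ q * (v : ℝ≥0∞) ^ (τ / 2) := by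
  have hq0 : 0 < q := by linarith
  have hshift : ∀ s : ℝ, ∫⁻ x : ℝ × ℝ, ‖f x - f (x.1, x.2 - s)‖ₑ ^ q ≤
      D ^ q * ENNReal.ofReal (|s| ^ τ) := by
    intro s
    rcases lt_trichotomy s 0 with hs | hs | hs
    · have h := hmod (-s) (by linarith)
      rw [abs_of_neg hs]
      refine le_trans (le_of_eq ?_) h
      refine lintegral_congr fun x => ?_
      rw [← sub_eq_add_neg, ← enorm_neg, neg_sub]
    · subst hs
      simp [ENNReal.zero_rpow_of_pos hq0]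
    · have h := hmod s hs
      rw [abs_of_pos hs]
      refine le_trans (le_of_eq ?_) h
      rw [← lintegral_shift (fun x : ℝ × ℝ => ‖f (x.1, x.2 + s) - f x‖ₑ ^ q) s]
      refine lintegral_congr fun x => ?_
      simp
  have hm : Measurable (fun p : (ℝ × ℝ) × ℝ => f p.1 - f (p.1.1, p.1.2 - p.2)) :=
    (hf.comp measurable_fst).sub (hf.comp (by fun_prop))
  calc ∫⁻ x, ‖f x - S v f x‖ₑ ^ q
      ≤ ∫⁻ x : ℝ × ℝ, ∫⁻ s, ‖f x - f (x.1, x.2 - s)‖ₑ ^ q ∂(gaussianReal 0 v) := by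
        refine lintegral_mono fun x => ?_
        have hi : Integrable (fun s => f (x.1, x.2 - s)) (gaussianReal 0 v) := by
          refine Integrable.of_bound (C := M) ?_ (Eventually.of_forall fun s => hM _)
          exact (hf.comp (by fun_prop)).aestronglyMeasurable
        have e1 : f x - S v f x = ∫ s, (f x - f (x.1, x.2 - s)) ∂(gaussianReal 0 v) := by
          rw [integral_sub (integrable_const _) hi]
          simp [S]
        simp only [e1]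
        calc ‖∫ s, (f x - f (x.1, x.2 - s)) ∂(gaussianReal 0 v)‖ₑ ^ q
            ≤ (∫⁻ s, ‖f x - f (x.1, x.2 - s)‖ₑ ∂(gaussianReal 0 v)) ^ q := by
              gcongr
              exact enorm_integral_le_lintegral_enorm _
          _ ≤ _ := rpow_lintegral_le hq (hm.comp measurable_prodMk_left).enorm.aemeasurable
    _ = ∫⁻ s, (∫⁻ x : ℝ × ℝ, ‖f x - f (x.1, x.2 - s)‖ₑ ^ q) ∂(gaussianReal 0 v) :=
        lintegral_lintegral_swap (hm.enorm.pow_const q).aemeasurable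
    _ ≤ ∫⁻ s, D ^ q * ENNReal.ofReal (|s| ^ τ) ∂(gaussianReal 0 v) :=
        lintegral_mono fun s => hshift s
    _ = D ^ q * ∫⁻ s, ENNReal.ofReal (|s| ^ τ) ∂(gaussianReal 0 v) :=
        lintegral_const_mul' _ _ (ENNReal.rpow_ne_top_of_nonneg hq0.le hD)
    _ ≤ _ := by
        gcongr
        have h5 := lintegral_frac_gaussian v (σ := τ / 2) (by linarith) (by linarith)
        rw [show 2 * (τ / 2) = τ by ring] at h5
        exact h5

/-- Gaussian averages contract the `L²` norm. -/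
theorem S_L2 (v : ℝ≥0) {f : ℝ × ℝ → ℂ} (hf : Measurable f) :
    ∫⁻ x, ‖S v f x‖ₑ ^ 2 ≤ ∫⁻ x, ‖f x‖ₑ ^ 2 := by
  have hm : Measurable (fun p : (ℝ × ℝ) × ℝ => f (p.1.1, p.1.2 - p.2)) :=
    hf.comp (by fun_prop)
  calc ∫⁻ x, ‖S v f x‖ₑ ^ 2
      ≤ ∫⁻ x : ℝ × ℝ, ∫⁻ s, ‖f (x.1, x.2 - s)‖ₑ ^ 2 ∂(gaussianReal 0 v) := by
        refine lintegral_mono fun x => ?_
        calc ‖S v f x‖ₑ ^ 2 ≤ (∫⁻ s, ‖f (x.1, x.2 - s)‖ₑ ∂(gaussianReal 0 v)) ^ 2 := by
              gcongr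
              exact enorm_integral_le_lintegral_enorm _
          _ ≤ _ := sq_lintegral_le (hm.comp measurable_prodMk_left).enorm.aemeasurable
    _ = ∫⁻ s, (∫⁻ x : ℝ × ℝ, ‖f (x.1, x.2 - s)‖ₑ ^ 2) ∂(gaussianReal 0 v) :=
        lintegral_lintegral_swap (hm.enorm.pow_const 2).aemeasurable
    _ = ∫⁻ _, (∫⁻ x : ℝ × ℝ, ‖f x‖ₑ ^ 2) ∂(gaussianReal 0 v) := by
        refine lintegral_congr fun s => ?_
        exact lintegral_shift (fun x => ‖f x‖ₑ ^ 2) s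
    _ = _ := by rw [lintegral_const, measure_univ, mul_one]

end Pool.Agent.Restr
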