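import Mathlib

/-!
# Real interpolation between strong types (2,2) and (4,4)
-/

namespace Pool.Agent.Restr

open MeasureTheory Set Filter
open scoped ENNReal NNReal Topology

theorem inner_low {q A c a : ℝ} (hq : 2 < q) (hA : 0 < A) (hc : 0 < c) (ha : 0 ≤ a) :
    ∫⁻ l in Ioi (0 : ℝ), (if c * l < a then ENNReal.ofReal (4 * A * l ^ (q - 3)) else 0) ≤
      ENNReal.ofReal (4 * A / (q - 2) * (a / c) ^ (q - 2)) := by
  have hac : 0 ≤ a / c := by positivity
  have h1 : ∫⁻ l in Ioi (0 : ℝ), (if c * l < a then ENNReal.ofReal (4 * A * l ^ (q - 3)) else 0) ≤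
      ∫⁻ l in Ioc (0 : ℝ) (a / c), ENNReal.ofReal (4 * A * l ^ (q - 3)) := by
    rw [← lintegral_indicator measurableSet_Ioi, ← lintegral_indicator measurableSet_Ioc]
    refine lintegral_mono fun l => ?_
    by_cases h0 : 0 < l
    · by_cases hl : c * l < a
      · have hl' : l ≤ a / c := by
          rw [le_div_iff₀ hc]
          linarith
        rw [indicator_of_mem (show l ∈ Ioi (0 : ℝ) from h0),
          indicator_of_mem (show l ∈ Ioc (0 : ℝ) (a / c) from ⟨h0, hl'⟩), if_pos hl]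
      · rw [indicator_of_mem (show l ∈ Ioi (0 : ℝ) from h0), if_neg hl]
        exact bot_le
    · rw [indicator_of_notMem (show l ∉ Ioi (0 : ℝ) from h0)]
      exact bot_le
  refine h1.trans ?_
  have hint : IntervalIntegrable (fun l : ℝ => 4 * A * l ^ (q - 3)) volume 0 (a / c) :=
    (intervalIntegral.intervalIntegrable_rpow' (by linarith)).const_mul _
  have hval : ∫ l in (0 : ℝ)..(a / c), 4 * A * l ^ (q - 3) =
      4 * A / (q - 2) * (a / c) ^ (q - 2) := by
    rw [intervalIntegral.integral_const_mul, integral_rpow (Or.inl (by linarith)),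
      show q - 3 + 1 = q - 2 by ring, Real.zero_rpow (by linarith), sub_zero]
    ring
  rw [intervalIntegrable_iff_integrableOn_Ioc_of_le hac] at hint
  rw [intervalIntegral.integral_of_le hac] at hval
  rw [← hval, ofReal_integral_eq_lintegral_ofReal hint]
  rw [Filter.EventuallyLE, ae_restrict_iff' measurableSet_Ioc]
  refine Eventually.of_forall fun l hl => ?_
  have : 0 < l := hl.1
  simp only [Pi.zero_apply]
  positivity

theorem inner_high {q B c a : ℝ} (hq : q < 4) (hB : 0 < B) (hc : 0 < c) (ha : 0 < a) :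
    ∫⁻ l in Ioi (0 : ℝ), (if c * l < a then 0 else ENNReal.ofReal (16 * B * l ^ (q - 5))) ≤
      ENNReal.ofReal (16 * B / (4 - q) * (a / c) ^ (q - 4)) := by
  have hac : 0 < a / c := by positivity
  have h1 : ∫⁻ l in Ioi (0 : ℝ), (if c * l < a then 0 else ENNReal.ofReal (16 * B * l ^ (q - 5))) ≤
      ∫⁻ l in Ici (a / c), ENNReal.ofReal (16 * B * l ^ (q - 5)) := by
    rw [← lintegral_indicator measurableSet_Ioi, ← lintegral_indicator measurableSet_Ici]
    refine lintegral_mono fun l => ?_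
    by_cases h0 : 0 < l
    · by_cases hl : c * l < a
      · rw [indicator_of_mem (show l ∈ Ioi (0 : ℝ) from h0), if_pos hl]
        exact bot_le
      · have hl' : a / c ≤ l := by
          rw [div_le_iff₀ hc]
          linarith
        rw [indicator_of_mem (show l ∈ Ioi (0 : ℝ) from h0),
          indicator_of_mem (show l ∈ Ici (a / c) from hl'), if_neg hl]
    · rw [indicator_of_notMem (show l ∉ Ioi (0 : ℝ) from h0)]
      exact bot_le
  refine h1.trans ?_
  rw [← setLIntegral_congr (Ioi_ae_eq_Ici (a := a / c))]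
  have hint : IntegrableOn (fun l : ℝ => 16 * B * l ^ (q - 5)) (Ioi (a / c)) :=
    (integrableOn_Ioi_rpow_of_lt (by linarith) hac).const_mul _
  have hval : ∫ l in Ioi (a / c), 16 * B * l ^ (q - 5) =
      16 * B / (4 - q) * (a / c) ^ (q - 4) := by
    rw [integral_const_mul, integral_Ioi_rpow_of_lt (by linarith) hac,
      show q - 5 + 1 = q - 4 by ring]
    have h4 : q - 4 ≠ 0 := by linarith
    have h4' : 4 - q ≠ 0 := by linarith
    field_simp
    ring
  rw [← hval, ofReal_integral_eq_lintegral_ofReal hint]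
  rw [Filter.EventuallyLE, ae_restrict_iff' measurableSet_Ioi]
  refine Eventually.of_forall fun l hl => ?_
  have : 0 < l := lt_trans hac hl
  simp only [Pi.zero_apply]
  positivity

/-- Interpolation between the strong types (2,2) and (4,4). -/
theorem marcinkiewicz {X Y : Type*} [MeasurableSpace X] [MeasurableSpace Y] {μ : Measure X}
    [SFinite μ] {m : Measure Y} (P : (X → ℂ) → Prop) (T : (X → ℂ) → Y → ℂ)
    (hmeas : ∀ f, P f → Measurable f) (hTm : ∀ f, P f → Measurable (T f))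
    (hind : ∀ f (s : Set X), P f → MeasurableSet s → P (s.indicator f))
    (hadd : ∀ f (s : Set X), P f → MeasurableSet s → ∀ y,
      T f y = T (s.indicator f) y + T (sᶜ.indicator f) y)
    {A B : ℝ} (hA : 0 < A) (hB : 0 < B)
    (h2 : ∀ f, P f → ∫⁻ y, ‖T f y‖ₑ ^ 2 ∂m ≤ ENNReal.ofReal A * ∫⁻ x, ‖f x‖ₑ ^ 2 ∂μ)
    (h4 : ∀ f, P f → ∫⁻ y, ‖T f y‖ₑ ^ 4 ∂m ≤ ENNReal.ofReal B * ∫⁻ x, ‖f x‖ₑ ^ 4 ∂μ)
    {q : ℝ} (hq : 2 < q) (hq4 : q < 4) {f : X → ℂ} (hf : P f) :
    ∫⁻ y, ‖T f y‖ₑ ^ q ∂m ≤ ENNReal.ofReal (q * (4 / (q - 2) + 16 / (4 - q)) *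
      (A ^ ((4 - q) / 2) * B ^ ((q - 2) / 2))) * ∫⁻ x, ‖f x‖ₑ ^ q ∂μ := by
  have hq0 : 0 < q := by linarith
  have hfm := hmeas f hf
  set c : ℝ := √(A / B) with hc
  have hc0 : 0 < c := Real.sqrt_pos.2 (by positivity)
  -- the weak-type step
  have weak : ∀ l : ℝ, 0 < l → m {y | l < ‖T f y‖} * ENNReal.ofReal (l ^ (q - 1)) ≤
      ∫⁻ x, ((if c * l < ‖f x‖ then ENNReal.ofReal (4 * A * l ^ (q - 3)) else 0) * ‖f x‖ₑ ^ 2 +
        (if c * l < ‖f x‖ then 0 else ENNReal.ofReal (16 * B * l ^ (q - 5))) * ‖f x‖ₑ ^ 4) ∂μ := by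
    intro l hl
    set s : Set X := {x | c * l < ‖f x‖} with hs
    have hsm : MeasurableSet s := measurableSet_lt measurable_const hfm.norm
    have hP1 := hind f s hf hsm
    have hP2 := hind f sᶜ hf hsm.compl
    have hsub : {y | l < ‖T f y‖} ⊆
        {y | ENNReal.ofReal (l ^ 2 / 4) ≤ ‖T (s.indicator f) y‖ₑ ^ 2} ∪
        {y | ENNReal.ofReal (l ^ 4 / 16) ≤ ‖T (sᶜ.indicator f) y‖ₑ ^ 4} := by
      intro y hy
      have hy' : l < ‖T f y‖ := hy
      rw [hadd f s hf hsm y] at hy'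
      have h5 := norm_add_le (T (s.indicator f) y) (T (sᶜ.indicator f) y)
      rcases le_or_gt (l / 2) ‖T (s.indicator f) y‖ with h6 | h6
      · left
        change ENNReal.ofReal (l ^ 2 / 4) ≤ ‖T (s.indicator f) y‖ₑ ^ 2
        rw [← ofReal_norm, ← ENNReal.ofReal_pow (norm_nonneg _)]
        apply ENNReal.ofReal_le_ofReal
        calc l ^ 2 / 4 = (l / 2) ^ 2 := by ring
          _ ≤ _ := by gcongr
      · right
        change ENNReal.ofReal (l ^ 4 / 16) ≤ ‖T (sᶜ.indicator f) y‖ₑ ^ 4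
        rw [← ofReal_norm, ← ENNReal.ofReal_pow (norm_nonneg _)]
        apply ENNReal.ofReal_le_ofReal
        have h7 : l / 2 ≤ ‖T (sᶜ.indicator f) y‖ := by linarith
        calc l ^ 4 / 16 = (l / 2) ^ 4 := by ring
          _ ≤ _ := by gcongr
    have hm1 : m {y | ENNReal.ofReal (l ^ 2 / 4) ≤ ‖T (s.indicator f) y‖ₑ ^ 2} ≤
        (ENNReal.ofReal A * ∫⁻ x, ‖s.indicator f x‖ₑ ^ 2 ∂μ) / ENNReal.ofReal (l ^ 2 / 4) := by
      refine (meas_ge_le_lintegral_div ((hTm _ hP1).enorm.pow_const 2).aemeasurable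
        (ENNReal.ofReal_pos.2 (by positivity)).ne' ENNReal.ofReal_ne_top).trans ?_
      gcongr
      exact h2 _ hP1
    have hm2 : m {y | ENNReal.ofReal (l ^ 4 / 16) ≤ ‖T (sᶜ.indicator f) y‖ₑ ^ 4} ≤
        (ENNReal.ofReal B * ∫⁻ x, ‖sᶜ.indicator f x‖ₑ ^ 4 ∂μ) / ENNReal.ofReal (l ^ 4 / 16) := by
      refine (meas_ge_le_lintegral_div ((hTm _ hP2).enorm.pow_const 4).aemeasurable
        (ENNReal.ofReal_pos.2 (by positivity)).ne' ENNReal.ofReal_ne_top).trans ?_
      gcongr
      exact h4 _ hP2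
    have e1 : ∀ x, ‖s.indicator f x‖ₑ ^ 2 = if c * l < ‖f x‖ then ‖f x‖ₑ ^ 2 else 0 := by
      intro x
      by_cases hx : c * l < ‖f x‖
      · rw [indicator_of_mem (show x ∈ s from hx), if_pos hx]
      · rw [indicator_of_notMem (show x ∉ s from hx), if_neg hx]
        simp
    have e2 : ∀ x, ‖sᶜ.indicator f x‖ₑ ^ 4 = if c * l < ‖f x‖ then 0 else ‖f x‖ₑ ^ 4 := by
      intro x
      by_cases hx : c * l < ‖f x‖
      · have hx' : x ∉ sᶜ := fun h => h hx
        rw [indicator_of_notMem hx', if_pos hx]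
        simp
      · have hx' : x ∈ sᶜ := fun h => hx h
        rw [indicator_of_mem hx', if_neg hx]
    have hmm1 : Measurable fun x => ‖s.indicator f x‖ₑ ^ 2 := (hmeas _ hP1).enorm.pow_const 2
    have hmm2 : Measurable fun x => ‖sᶜ.indicator f x‖ₑ ^ 4 := (hmeas _ hP2).enorm.pow_const 4
    calc m {y | l < ‖T f y‖} * ENNReal.ofReal (l ^ (q - 1))
        ≤ ((ENNReal.ofReal A * ∫⁻ x, ‖s.indicator f x‖ₑ ^ 2 ∂μ) / ENNReal.ofReal (l ^ 2 / 4) +
          (ENNReal.ofReal B * ∫⁻ x, ‖sᶜ.indicator f x‖ₑ ^ 4 ∂μ) / ENNReal.ofReal (l ^ 4 / 16)) *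
          ENNReal.ofReal (l ^ (q - 1)) := by
          gcongr
          exact ((measure_mono hsub).trans (measure_union_le _ _)).trans (add_le_add hm1 hm2)
      _ = ENNReal.ofReal (4 * A * l ^ (q - 3)) * ∫⁻ x, ‖s.indicator f x‖ₑ ^ 2 ∂μ +
          ENNReal.ofReal (16 * B * l ^ (q - 5)) * ∫⁻ x, ‖sᶜ.indicator f x‖ₑ ^ 4 ∂μ := by
          have d1 : ∀ a : ℝ≥0∞, a / ENNReal.ofReal (l ^ 2 / 4) =
              a * ENNReal.ofReal (l ^ 2 / 4)⁻¹ := fun a => by
            rw [ENNReal.ofReal_inv_of_pos (by positivity)]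
            rfl
          have d2 : ∀ a : ℝ≥0∞, a / ENNReal.ofReal (l ^ 4 / 16) =
              a * ENNReal.ofReal (l ^ 4 / 16)⁻¹ := fun a => by
            rw [ENNReal.ofReal_inv_of_pos (by positivity)]
            rfl
          rw [d1, d2, add_mul]
          congr 1
          · calc ENNReal.ofReal A * (∫⁻ x, ‖s.indicator f x‖ₑ ^ 2 ∂μ) *
                  ENNReal.ofReal (l ^ 2 / 4)⁻¹ * ENNReal.ofReal (l ^ (q - 1))
                = (ENNReal.ofReal A * ENNReal.ofReal (l ^ 2 / 4)⁻¹ *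
                  ENNReal.ofReal (l ^ (q - 1))) * ∫⁻ x, ‖s.indicator f x‖ₑ ^ 2 ∂μ := by ring
              _ = _ := by
                  rw [← ENNReal.ofReal_mul hA.le, ← ENNReal.ofReal_mul (by positivity)]
                  congr 2
                  rw [show q - 1 = (q - 3) + ((2 : ℕ) : ℝ) by push_cast; ring,
                    Real.rpow_add hl, Real.rpow_natCast]
                  field_simp
          · calc ENNReal.ofReal B * (∫⁻ x, ‖sᶜ.indicator f x‖ₑ ^ 4 ∂μ) *
                  ENNReal.ofReal (l ^ 4 / 16)⁻¹ * ENNReal.ofReal (l ^ (q - 1))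
                = (ENNReal.ofReal B * ENNReal.ofReal (l ^ 4 / 16)⁻¹ *
                  ENNReal.ofReal (l ^ (q - 1))) * ∫⁻ x, ‖sᶜ.indicator f x‖ₑ ^ 4 ∂μ := by ring
              _ = _ := by
                  rw [← ENNReal.ofReal_mul hB.le, ← ENNReal.ofReal_mul (by positivity)]
                  congr 2
                  rw [show q - 1 = (q - 5) + ((4 : ℕ) : ℝ) by push_cast; ring,
                    Real.rpow_add hl, Real.rpow_natCast]
                  field_simp
      _ = ∫⁻ x, ENNReal.ofReal (4 * A * l ^ (q - 3)) * ‖s.indicator f x‖ₑ ^ 2 ∂μ +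
          ∫⁻ x, ENNReal.ofReal (16 * B * l ^ (q - 5)) * ‖sᶜ.indicator f x‖ₑ ^ 4 ∂μ := by
          rw [lintegral_const_mul _ hmm1, lintegral_const_mul _ hmm2]
      _ = ∫⁻ x, (ENNReal.ofReal (4 * A * l ^ (q - 3)) * ‖s.indicator f x‖ₑ ^ 2 +
          ENNReal.ofReal (16 * B * l ^ (q - 5)) * ‖sᶜ.indicator f x‖ₑ ^ 4) ∂μ := by
          rw [← lintegral_add_left (hmm1.const_mul _)]
      _ = _ := by
          refine lintegral_congr fun x => ?_
          rw [e1, e2]
          split_ifs <;> simp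
  -- joint measurability
  have hT := hTm f hf
  have hlc := lintegral_rpow_eq_lintegral_meas_lt_mul m
    (f := fun y => ‖T f y‖) (Eventually.of_forall fun y => norm_nonneg _)
    hT.norm.aemeasurable hq0
  have e0 : ∫⁻ y, ‖T f y‖ₑ ^ q ∂m = ∫⁻ y, ENNReal.ofReal (‖T f y‖ ^ q) ∂m := by
    refine lintegral_congr fun y => ?_
    rw [← ENNReal.ofReal_rpow_of_nonneg (norm_nonneg _) hq0.le, ofReal_norm]
  rw [e0, hlc]
  have hset : MeasurableSet {p : ℝ × X | c * p.1 < ‖f p.2‖} :=
    measurableSet_lt (measurable_const.mul measurable_fst) (hfm.comp measurable_snd).norm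
  have hj1 : Measurable (fun p : ℝ × X =>
      (if c * p.1 < ‖f p.2‖ then ENNReal.ofReal (4 * A * p.1 ^ (q - 3)) else 0)) :=
    Measurable.ite hset (by fun_prop) measurable_const
  have hj2 : Measurable (fun p : ℝ × X =>
      (if c * p.1 < ‖f p.2‖ then 0 else ENNReal.ofReal (16 * B * p.1 ^ (q - 5)))) :=
    Measurable.ite hset measurable_const (by fun_prop)
  have hf2 : Measurable (fun p : ℝ × X => ‖f p.2‖ₑ ^ 2) :=
    (hfm.comp measurable_snd).enorm.pow_const 2
  have hf4 : Measurable (fun p : ℝ × X => ‖f p.2‖ₑ ^ 4) :=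
    (hfm.comp measurable_snd).enorm.pow_const 4
  have hjm : Measurable (fun p : ℝ × X =>
      (if c * p.1 < ‖f p.2‖ then ENNReal.ofReal (4 * A * p.1 ^ (q - 3)) else 0) *
        ‖f p.2‖ₑ ^ 2 +
      (if c * p.1 < ‖f p.2‖ then 0 else ENNReal.ofReal (16 * B * p.1 ^ (q - 5))) *
        ‖f p.2‖ₑ ^ 4) := (hj1.mul hf2).add (hj2.mul hf4)
  set G : ℝ := A ^ ((4 - q) / 2) * B ^ ((q - 2) / 2) with hG
  have hG0 : 0 < G := by positivity
  have hcA : A * (1 / c) ^ (q - 2) = G := by
    rw [hG, hc, one_div, ← Real.sqrt_inv, inv_div, Real.sqrt_eq_rpow, ← Real.rpow_mul (by positivity),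
      Real.div_rpow hB.le hA.le]
    rw [show (4 - q) / 2 = 1 - 1 / 2 * (q - 2) by ring, Real.rpow_sub hA, Real.rpow_one,
      show (q - 2) / 2 = 1 / 2 * (q - 2) by ring]
    ring
  have hcB : B * (1 / c) ^ (q - 4) = G := by
    rw [hG, hc, one_div, ← Real.sqrt_inv, inv_div, Real.sqrt_eq_rpow, ← Real.rpow_mul (by positivity),
      Real.div_rpow hB.le hA.le]
    rw [show (4 - q) / 2 = -(1 / 2 * (q - 4)) by ring, Real.rpow_neg hA.le,
      show (q - 2) / 2 = 1 + 1 / 2 * (q - 4) by ring, Real.rpow_add hB, Real.rpow_one]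
    ring
  calc ENNReal.ofReal q * ∫⁻ l in Ioi (0 : ℝ), m {y | l < ‖T f y‖} * ENNReal.ofReal (l ^ (q - 1))
      ≤ ENNReal.ofReal q * ∫⁻ l in Ioi (0 : ℝ), (∫⁻ x,
        ((if c * l < ‖f x‖ then ENNReal.ofReal (4 * A * l ^ (q - 3)) else 0) * ‖f x‖ₑ ^ 2 +
        (if c * l < ‖f x‖ then 0 else ENNReal.ofReal (16 * B * l ^ (q - 5))) *
          ‖f x‖ₑ ^ 4) ∂μ) := by
        gcongr ENNReal.ofReal q * ?_
        exact setLIntegral_mono' measurableSet_Ioi fun l hl => weak l hl
    _ = ENNReal.ofReal q * ∫⁻ x, (∫⁻ l in Ioi (0 : ℝ),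
        ((if c * l < ‖f x‖ then ENNReal.ofReal (4 * A * l ^ (q - 3)) else 0) * ‖f x‖ₑ ^ 2 +
        (if c * l < ‖f x‖ then 0 else ENNReal.ofReal (16 * B * l ^ (q - 5))) *
          ‖f x‖ₑ ^ 4)) ∂μ := by
        congr 1
        exact lintegral_lintegral_swap hjm.aemeasurable
    _ ≤ ENNReal.ofReal q * ∫⁻ x, ENNReal.ofReal ((4 / (q - 2) + 16 / (4 - q)) * G) *
        ‖f x‖ₑ ^ q ∂μ := by
        gcongr ENNReal.ofReal q * ?_
        refine lintegral_mono fun x => ?_
        have hh1 : Measurable (fun l : ℝ =>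
            (if c * l < ‖f x‖ then ENNReal.ofReal (4 * A * l ^ (q - 3)) else 0)) :=
          hj1.comp measurable_prodMk_right
        have hh2 : Measurable (fun l : ℝ =>
            (if c * l < ‖f x‖ then 0 else ENNReal.ofReal (16 * B * l ^ (q - 5)))) :=
          hj2.comp measurable_prodMk_right
        rw [lintegral_add_left (hh1.mul_const _), lintegral_mul_const _ hh1,
          lintegral_mul_const _ hh2]
        rcases eq_or_ne (f x) 0 with h0 | h0
        · rw [h0]
          simp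
        · have ha : 0 < ‖f x‖ := norm_pos_iff.2 h0
          have i1 := inner_low (q := q) (A := A) (c := c) hq hA hc0 ha.le
          have i2 := inner_high (q := q) (B := B) (c := c) hq4 hB hc0 ha
          calc (∫⁻ l in Ioi (0 : ℝ), (if c * l < ‖f x‖ then
                ENNReal.ofReal (4 * A * l ^ (q - 3)) else 0)) * ‖f x‖ₑ ^ 2 +
              (∫⁻ l in Ioi (0 : ℝ), (if c * l < ‖f x‖ then 0 else
                ENNReal.ofReal (16 * B * l ^ (q - 5)))) * ‖f x‖ₑ ^ 4
              ≤ ENNReal.ofReal (4 * A / (q - 2) * (‖f x‖ / c) ^ (q - 2)) * ‖f x‖ₑ ^ 2 +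
                ENNReal.ofReal (16 * B / (4 - q) * (‖f x‖ / c) ^ (q - 4)) * ‖f x‖ₑ ^ 4 :=
                add_le_add (mul_le_mul' i1 le_rfl) (mul_le_mul' i2 le_rfl)
            _ = ENNReal.ofReal ((4 / (q - 2) + 16 / (4 - q)) * G) * ‖f x‖ₑ ^ q := by
                rw [← ofReal_norm, ← ENNReal.ofReal_pow ha.le, ← ENNReal.ofReal_pow ha.le,
                  ENNReal.ofReal_rpow_of_pos ha]
                have hq2 : 0 < q - 2 := by linarith
                have hq4' : 0 < 4 - q := by linarith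
                rw [← ENNReal.ofReal_mul (by positivity), ← ENNReal.ofReal_mul (by positivity),
                  ← ENNReal.ofReal_mul (by positivity),
                  ← ENNReal.ofReal_add (by positivity) (by positivity)]
                congr 1
                have r1 : (‖f x‖ / c) ^ (q - 2) = ‖f x‖ ^ (q - 2) * (1 / c) ^ (q - 2) := by
                  rw [← Real.mul_rpow ha.le (by positivity), mul_one_div]
                have r2 : (‖f x‖ / c) ^ (q - 4) = ‖f x‖ ^ (q - 4) * (1 / c) ^ (q - 4) := by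
                  rw [← Real.mul_rpow ha.le (by positivity), mul_one_div]
                have r3 : ‖f x‖ ^ (q - 2) * ‖f x‖ ^ 2 = ‖f x‖ ^ q := by
                  rw [← Real.rpow_natCast, ← Real.rpow_add ha]
                  congr 1
                  push_cast
                  ring
                have r4 : ‖f x‖ ^ (q - 4) * ‖f x‖ ^ 4 = ‖f x‖ ^ q := by
                  rw [← Real.rpow_natCast, ← Real.rpow_add ha]
                  congr 1
                  push_cast
                  ring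
                rw [r1, r2]
                calc 4 * A / (q - 2) * (‖f x‖ ^ (q - 2) * (1 / c) ^ (q - 2)) * ‖f x‖ ^ 2 +
                      16 * B / (4 - q) * (‖f x‖ ^ (q - 4) * (1 / c) ^ (q - 4)) * ‖f x‖ ^ 4
                    = 4 / (q - 2) * (A * (1 / c) ^ (q - 2)) * (‖f x‖ ^ (q - 2) * ‖f x‖ ^ 2) +
                      16 / (4 - q) * (B * (1 / c) ^ (q - 4)) *
                        (‖f x‖ ^ (q - 4) * ‖f x‖ ^ 4) := by ring
                  _ = _ := by
                      rw [hcA, hcB, r3, r4]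
                      ring
    _ = _ := by
        rw [lintegral_const_mul _ (hfm.enorm.pow_const q), ← mul_assoc,
          ← ENNReal.ofReal_mul hq0.le]
        congr 2
        ring

end Pool.Agent.Restr
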