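import Mathlib
import Pool.Agent.Restr.Blocks
import Pool.Agent.Restr.Interp

/-!
# Summation over scales inside a dyadic time block
-/

namespace Pool.Agent.Restr

open MeasureTheory Set Filter ProbabilityTheory
open scoped ENNReal NNReal Topology

/-- The variances used on the time block `[2^k, 2^(k+1))`. -/
noncomputable def vv (k j : ℕ) : ℝ≥0 := (1 / 2) ^ (k + j + 1)

theorem vv_ne (k j : ℕ) : vv k j ≠ 0 := by unfold vv; positivity

theorem vv_add (k j : ℕ) : vv k (j + 1) + vv k (j + 1) = vv k j := by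
  unfold vv
  rw [← two_mul, show k + (j + 1) + 1 = (k + j + 1) + 1 by ring, pow_succ (1 / 2 : ℝ≥0) (k + j + 1)]
  rw [mul_comm, mul_assoc, one_div, inv_mul_cancel₀ (by norm_num), mul_one]

theorem vv_real (k j : ℕ) : ((vv k j : ℝ≥0) : ℝ) = (2 : ℝ) ^ (-((k : ℝ) + j + 1)) := by
  unfold vv
  rw [Real.rpow_neg (by norm_num)]
  have : ((k : ℝ) + j + 1) = ((k + j + 1 : ℕ) : ℝ) := by push_cast; ring
  rw [this, Real.rpow_natCast]
  push_cast
  rw [one_div, inv_pow]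

theorem vv_le (k j : ℕ) : 2 * (2 : ℝ) ^ k * (vv k j : ℝ) ≤ 1 := by
  unfold vv
  push_cast
  rw [one_div, inv_pow, ← div_eq_mul_inv, div_le_one (by positivity), ← pow_succ']
  exact pow_le_pow_right₀ (by norm_num) (by omega)

theorem vv_rpow (k j : ℕ) (σ : ℝ) :
    ((vv k j : ℝ≥0) : ℝ≥0∞) ^ σ = ENNReal.ofReal ((2 : ℝ) ^ (-(((k : ℝ) + j + 1) * σ))) := by
  have h : ((vv k j : ℝ≥0) : ℝ≥0∞) = ENNReal.ofReal ((2 : ℝ) ^ (-((k : ℝ) + j + 1))) := by
    rw [← vv_real, ENNReal.ofReal_coe_nnreal]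
  rw [h, ENNReal.ofReal_rpow_of_pos (by positivity), ← Real.rpow_mul (by norm_num), neg_mul]

/-- The time block. -/
def Ik (k : ℕ) : Set ℝ := Ico ((2 : ℝ) ^ k) (2 * (2 : ℝ) ^ k)

theorem volume_Ik (k : ℕ) : volume (Ik k) = ENNReal.ofReal ((2 : ℝ) ^ (k : ℝ)) := by
  unfold Ik
  rw [Real.volume_Ico, Real.rpow_natCast]
  congr 1
  ring

/-- Algebra of the interpolated constants. -/
theorem comb {a b : ℝ} (ha : 0 ≤ a) (hb : 0 ≤ b) (x y q : ℝ) :
    (a * 2 ^ x) ^ ((4 - q) / 2) * (b * 2 ^ y) ^ ((q - 2) / 2) =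
      (a ^ ((4 - q) / 2) * b ^ ((q - 2) / 2)) * 2 ^ (x * ((4 - q) / 2) + y * ((q - 2) / 2)) := by
  rw [Real.mul_rpow ha (by positivity), Real.mul_rpow hb (by positivity),
    ← Real.rpow_mul (by norm_num), ← Real.rpow_mul (by norm_num), Real.rpow_add (by norm_num)]
  ring

/-- The constant in the piece estimate. -/
noncomputable def Cb (θ : ℝ) : ℝ :=
  320 * Real.pi ^ 3 * Real.exp 4 * (√Real.pi ^ θ) * (8 / θ)

theorem Cb_pos {θ : ℝ} (hθ : 0 < θ) : 0 < Cb θ := by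
  unfold Cb
  have : 0 < √Real.pi := Real.sqrt_pos.2 Real.pi_pos
  positivity

/-- The class of functions to which the smoothed operator is applied. -/
structure PP (r : ℝ × ℝ → ℂ) : Prop where
  meas : Measurable r
  int : Integrable r
  bdd : ∃ M : ℝ, ∀ x, ‖r x‖ ≤ M
  supp : ∀ x z, x ∉ Icc (-(1 / 2) : ℝ) (1 / 2) → r (x, z) = 0

theorem PP.indicator {r : ℝ × ℝ → ℂ} (h : PP r) {s : Set (ℝ × ℝ)} (hs : MeasurableSet s) :
    PP (s.indicator r) where
  meas := h.meas.indicator hs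
  int := h.int.indicator hs
  bdd := by
    obtain ⟨M, hM⟩ := h.bdd
    refine ⟨M, fun x => ?_⟩
    exact (norm_indicator_le_norm_self _ _).trans (hM x)
  supp := fun x z hx => by
    by_cases hm : (x, z) ∈ s
    · rw [indicator_of_mem hm]
      exact h.supp x z hx
    · rw [indicator_of_notMem hm]

theorem S_add (v : ℝ≥0) {f g : ℝ × ℝ → ℂ} (hf : PP f) (hg : PP g) (x : ℝ × ℝ) :
    S v (fun y => f y + g y) x = S v f x + S v g x := by
  obtain ⟨M, hM⟩ := hf.bdd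
  obtain ⟨M', hM'⟩ := hg.bdd
  unfold S
  rw [integral_add]
  · exact Integrable.of_bound (C := M) (hf.meas.comp (by fun_prop)).aestronglyMeasurable
      (Eventually.of_forall fun s => hM _)
  · exact Integrable.of_bound (C := M') (hg.meas.comp (by fun_prop)).aestronglyMeasurable
      (Eventually.of_forall fun s => hM' _)

theorem Et_add {f g : ℝ × ℝ → ℂ} (hf : Integrable f) (hg : Integrable g) (p : ℝ × ℝ × ℝ) :
    Et (fun x => f x + g x) p = Et f p + Et g p := by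
  have hint : ∀ {g : ℝ × ℝ → ℂ}, Integrable g → Integrable (fun x : ℝ × ℝ =>
      u (p.2.2 * x.1 + (p.2.1 * x.2 + p.1 * (x.1 ^ 2 + x.2 ^ 2))) * g x) := by
    intro g hg
    refine hg.bdd_mul (c := 1) ?_ (Eventually.of_forall fun x => (norm_u _).le)
    exact (measurable_u.comp (by fun_prop)).aestronglyMeasurable
  unfold Et E
  rw [← integral_add (hint hf) (hint hg)]
  refine integral_congr_ae (Eventually.of_forall fun x => ?_)
  simp only
  ring

/-- The interpolation constant. -/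
noncomputable def mq (q : ℝ) : ℝ := q * (4 / (q - 2) + 16 / (4 - q))

theorem mq_pos {q : ℝ} (hq : 2 < q) (hq4 : q < 4) : 0 < mq q := by
  unfold mq
  have h1 : 0 < q - 2 := by linarith
  have h2 : 0 < 4 - q := by linarith
  positivity

/-- The fourth power bound on the block `k` at scale `i`. -/
theorem piece4 {θ : ℝ} (hθ : 0 < θ) (hθ1 : θ < 1) {r : ℝ × ℝ → ℂ} (hr : PP r) (k i : ℕ) :
    ∫⁻ p, ‖Et (S (vv k i) r) p‖ₑ ^ 4 ∂(Lam (Ik k)) ≤
      ENNReal.ofReal (Cb θ * 2 ^ ((i : ℝ) + 1 - k + k * θ)) * ∫⁻ x, ‖r x‖ₑ ^ 4 := by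
  have hN : Measurable (fun p => ‖E (S (vv k i) r) p‖ₑ ^ 4) :=
    (measurable_E (measurable_S (vv k i) hr.meas)).enorm.pow_const 4
  have h := lintegral_Lam (I := Ik k) hN
  unfold Et
  rw [h]
  refine (block_L4 (vv_ne k i) (T := (2 : ℝ) ^ k) (by positivity) (vv_le k i) hr.meas hr.int
    hr.supp hθ hθ1).trans ?_
  have hv : ((vv k i : ℝ≥0) : ℝ) ≠ 0 := by exact_mod_cast vv_ne k i
  have hv0 : 0 < ((vv k i : ℝ≥0) : ℝ) := by
    have := vv_ne k i
    positivity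
  have hkap : kap (vv k i) ((2 : ℝ) ^ k) ^ 2 = 10 * Real.pi / 4 * 2 ^ ((i : ℝ) + 1 - k) := by
    unfold kap
    rw [div_pow, Real.sq_sqrt (by positivity)]
    have e1 : (2 : ℝ) ^ ((i : ℝ) + 1 - k) = 1 / ((vv k i : ℝ) * ((2 : ℝ) ^ k) ^ 2) := by
      rw [vv_real, ← Real.rpow_natCast, ← Real.rpow_natCast, ← Real.rpow_mul (by norm_num),
        ← Real.rpow_add (by norm_num), one_div, ← Real.rpow_neg (by norm_num)]
      congr 1
      push_cast
      ring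
    rw [e1]
    field_simp
    ring
  have hsq : (√(Real.pi * ((2 : ℝ) ^ k) ^ 2)) ^ θ = √Real.pi ^ θ * 2 ^ ((k : ℝ) * θ) := by
    rw [Real.sqrt_mul Real.pi_pos.le, Real.sqrt_sq (by positivity),
      Real.mul_rpow (Real.sqrt_nonneg _) (by positivity), ← Real.rpow_natCast,
      ← Real.rpow_mul (by norm_num)]
  rw [hkap, ENNReal.ofReal_rpow_of_nonneg (Real.sqrt_nonneg _) hθ.le, hsq]
  rw [← mul_assoc, ← mul_assoc, ← mul_assoc, ← ENNReal.ofReal_mul (by positivity),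
    ← ENNReal.ofReal_mul (by positivity), ← ENNReal.ofReal_mul (by positivity),
    ← ENNReal.ofReal_mul (by positivity)]
  apply le_of_eq
  congr 2
  unfold Cb
  rw [Real.rpow_add (by norm_num)]
  ring

/-- The square bound on the block `k` at scale `i`. -/
theorem piece2 {r : ℝ × ℝ → ℂ} (hr : PP r) (k i : ℕ) :
    ∫⁻ p, ‖Et (S (vv k i) r) p‖ₑ ^ 2 ∂(Lam (Ik k)) ≤
      ENNReal.ofReal ((4 * Real.pi ^ 2) * 2 ^ (k : ℝ)) * ∫⁻ x, ‖r x‖ₑ ^ 2 := by
  refine (block_L2 (measurable_S (vv k i) hr.meas)).trans ?_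
  rw [volume_Ik]
  calc ENNReal.ofReal ((2 : ℝ) ^ (k : ℝ)) * (ENNReal.ofReal (4 * Real.pi ^ 2) *
        ∫⁻ x, ‖S (vv k i) r x‖ₑ ^ 2)
      ≤ ENNReal.ofReal ((2 : ℝ) ^ (k : ℝ)) * (ENNReal.ofReal (4 * Real.pi ^ 2) *
        ∫⁻ x, ‖r x‖ₑ ^ 2) := by
        gcongr ENNReal.ofReal ((2 : ℝ) ^ (k : ℝ)) * (ENNReal.ofReal (4 * Real.pi ^ 2) * ?_)
        exact S_L2 _ hr.meas
    _ = _ := by
        rw [← mul_assoc, ← ENNReal.ofReal_mul (by positivity)]
        congr 2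
        ring

/-- The piece estimate. -/
theorem piece {q : ℝ} (hq : 2 < q) (hq4 : q < 4) {θ : ℝ} (hθ : 0 < θ) (hθ1 : θ < 1)
    {r : ℝ × ℝ → ℂ} (hr : PP r) (k i : ℕ) :
    ∫⁻ p, ‖Et (S (vv k i) r) p‖ₑ ^ q ∂(Lam (Ik k)) ≤
      ENNReal.ofReal (mq q * (((4 * Real.pi ^ 2) ^ ((4 - q) / 2) * (Cb θ) ^ ((q - 2) / 2)) *
        2 ^ ((k : ℝ) * ((4 - q) / 2) + ((i : ℝ) + 1 - k + k * θ) * ((q - 2) / 2)))) *
        ∫⁻ x, ‖r x‖ₑ ^ q := by
  have h := marcinkiewicz (μ := (volume : Measure (ℝ × ℝ))) (m := Lam (Ik k)) PP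
    (fun r => Et (S (vv k i) r)) (fun f hf => hf.meas)
    (fun f hf => measurable_Et (measurable_S _ hf.meas)) (fun f s hf hs => hf.indicator hs)
    (fun f s hf hs y => ?_) (A := (4 * Real.pi ^ 2) * 2 ^ (k : ℝ))
    (B := Cb θ * 2 ^ ((i : ℝ) + 1 - k + k * θ)) (by positivity)
    (mul_pos (Cb_pos hθ) (by positivity)) (fun f hf => piece2 hf k i)
    (fun f hf => piece4 hθ hθ1 hf k i) hq hq4 hr
  · rw [comb (by positivity) (Cb_pos hθ).le] at h
    exact h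
  · have h1 := hf.indicator hs
    have h2 := hf.indicator hs.compl
    have e : S (vv k i) f = fun x => S (vv k i) (s.indicator f) x +
        S (vv k i) (sᶜ.indicator f) x := by
      funext x
      rw [← S_add _ h1 h2]
      congr 1
      funext z
      exact (congrFun (indicator_self_add_compl s f) z).symm
    change Et (S (vv k i) f) y = _
    rw [e]
    exact Et_add (integrable_S _ h1.meas h1.int) (integrable_S _ h2.meas h2.int) y

/-- The remainder estimate. -/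
theorem remainder {q : ℝ} (hq : 2 ≤ q) (hq4 : q ≤ 4) {r : ℝ × ℝ → ℂ} (hr : Measurable r)
    {D : ℝ≥0} {s : ℝ}
    (hs : ∫⁻ x, ‖r x‖ₑ ^ 2 ≤ ENNReal.ofReal ((2 : ℝ) ^ (-s)) * (D : ℝ≥0∞) ^ 2) (k : ℕ) :
    ∫⁻ p, ‖Et r p‖ₑ ^ q ∂(Lam (Ik k)) ≤
      ENNReal.ofReal (((4 * Real.pi ^ 2) ^ ((4 - q) / 2) *
        (4 * Real.pi ^ 4) ^ ((q - 2) / 2)) *
        2 ^ (((k : ℝ) - s) * ((4 - q) / 2) + (-(2 * s)) * ((q - 2) / 2))) *
        (D : ℝ≥0∞) ^ q := by
  have hm := measurable_Et hr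
  have h2 : ∫⁻ p, ‖Et r p‖ₑ ^ 2 ∂(Lam (Ik k)) ≤
      ENNReal.ofReal ((4 * Real.pi ^ 2) * 2 ^ ((k : ℝ) - s)) * (D : ℝ≥0∞) ^ 2 := by
    refine (block_L2 hr).trans ?_
    rw [volume_Ik]
    calc ENNReal.ofReal ((2 : ℝ) ^ (k : ℝ)) * (ENNReal.ofReal (4 * Real.pi ^ 2) *
          ∫⁻ x, ‖r x‖ₑ ^ 2)
        ≤ ENNReal.ofReal ((2 : ℝ) ^ (k : ℝ)) * (ENNReal.ofReal (4 * Real.pi ^ 2) *
          (ENNReal.ofReal ((2 : ℝ) ^ (-s)) * (D : ℝ≥0∞) ^ 2)) := by gcongr
      _ = _ := by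
          rw [← mul_assoc, ← mul_assoc, ← ENNReal.ofReal_mul (by positivity),
            ← ENNReal.ofReal_mul (by positivity)]
          congr 2
          rw [sub_eq_add_neg, Real.rpow_add (by norm_num)]
          ring
  have h4 : ∫⁻ p, ‖Et r p‖ₑ ^ 4 ∂(Lam (Ik k)) ≤
      ENNReal.ofReal ((4 * Real.pi ^ 4) * 2 ^ (-(2 * s))) * (D : ℝ≥0∞) ^ 4 := by
    refine (block_TS hr).trans ?_
    calc ENNReal.ofReal (4 * Real.pi ^ 4) * (∫⁻ x, ‖r x‖ₑ ^ 2) ^ 2
        ≤ ENNReal.ofReal (4 * Real.pi ^ 4) *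
          (ENNReal.ofReal ((2 : ℝ) ^ (-s)) * (D : ℝ≥0∞) ^ 2) ^ 2 := by gcongr
      _ = _ := by
          rw [mul_pow, ← ENNReal.ofReal_pow (by positivity), ← mul_assoc,
            ← ENNReal.ofReal_mul (by positivity), ← pow_mul]
          congr 3
          rw [← Real.rpow_natCast, ← Real.rpow_mul (by norm_num)]
          congr 1
          push_cast
          ring
  have h := interp hm.enorm hq hq4 (by positivity) (by positivity) h2 h4
  rw [comb (by positivity) (by positivity)] at h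
  exact h

end Pool.Agent.Restr
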