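import Mathlib
import Pool.Agent.Restr.Sum

/-!
# Summation over time blocks and the global bound
-/

namespace Pool.Agent.Restr

open MeasureTheory Set Filter ProbabilityTheory
open scoped ENNReal NNReal Topology

/-- The class of functions: bounded, supported in the unit square, with `L²` and `L^q` sizes at
most `D`, an `L²` modulus of continuity `D h^σ` and an `L^q` modulus of continuity
`D h^{τ/q}` in the second variable. -/
structure Hyp (q σ τ : ℝ) (f : ℝ × ℝ → ℂ) (D : ℝ≥0) : Prop where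
  meas : Measurable f
  bdd : ∃ M : ℝ, ∀ x, ‖f x‖ ≤ M
  supp : ∀ x : ℝ × ℝ, x ∉ Icc (-(1 / 2) : ℝ) (1 / 2) ×ˢ Icc (-(1 / 2) : ℝ) (1 / 2) → f x = 0
  L2 : ∫⁻ x, ‖f x‖ₑ ^ 2 ≤ (D : ℝ≥0∞) ^ 2
  Lq : ∫⁻ x, ‖f x‖ₑ ^ q ≤ (D : ℝ≥0∞) ^ q
  mod2 : ∀ h : ℝ, 0 < h → ∫⁻ x : ℝ × ℝ, ‖f (x.1, x.2 + h) - f x‖ₑ ^ 2 ≤
    (D : ℝ≥0∞) ^ 2 * ENNReal.ofReal (h ^ (2 * σ))
  modq : ∀ h : ℝ, 0 < h → ∫⁻ x : ℝ × ℝ, ‖f (x.1, x.2 + h) - f x‖ₑ ^ q ≤
    (D : ℝ≥0∞) ^ q * ENNReal.ofReal (h ^ τ)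

/-- The numerical conditions which make the scale sum converge. -/
structure Expo (q σ τ : ℝ) (J : ℕ → ℕ) : Prop where
  three : 3 < q
  four : q < 4
  σ0 : 0 < σ
  σ1 : σ ≤ 1
  τ0 : 0 ≤ τ
  τ1 : τ ≤ 2
  J_le : ∀ k, J k ≤ k + 1
  piece : ∀ k i : ℕ, i ≤ J k → (k : ℝ) * ((4 - q) / 2) +
    ((i : ℝ) + 1 - k + k * ((q - 3) / 3)) * ((q - 2) / 2) - ((k : ℝ) + i + 1) * (τ / 2) ≤
      2 - (q - 3) / 6 * k
  rem : ∀ k : ℕ, ((k : ℝ) - ((k : ℝ) + J k + 1) * σ) * ((4 - q) / 2) +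
    (-(2 * (((k : ℝ) + J k + 1) * σ))) * ((q - 2) / 2) ≤ 2 - (q - 3) / 6 * k

theorem volume_square :
    volume (Icc (-(1 / 2) : ℝ) (1 / 2) ×ˢ Icc (-(1 / 2) : ℝ) (1 / 2)) = 1 := by
  rw [Measure.volume_eq_prod, Measure.prod_prod, Real.volume_Icc]
  norm_num

variable {q σ τ : ℝ} {f : ℝ × ℝ → ℂ} {D : ℝ≥0}

theorem Hyp.supp_fst (h : Hyp q σ τ f D) (x z : ℝ)
    (hx : x ∉ Icc (-(1 / 2) : ℝ) (1 / 2)) : f (x, z) = 0 :=
  h.supp _ fun hm => hx hm.1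

theorem Hyp.integrable (h : Hyp q σ τ f D) : Integrable f := by
  obtain ⟨M, hM⟩ := h.bdd
  set Q := Icc (-(1 / 2) : ℝ) (1 / 2) ×ˢ Icc (-(1 / 2) : ℝ) (1 / 2) with hQ
  have hQm : MeasurableSet Q := measurableSet_Icc.prod measurableSet_Icc
  have hI : IntegrableOn f Q := by
    refine Measure.integrableOn_of_bounded (M := M) ?_ h.meas.aestronglyMeasurable
      (Eventually.of_forall fun x => hM x)
    rw [hQ, volume_square]
    exact ENNReal.one_ne_top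
  exact (integrableOn_iff_integrable_of_support_subset fun x hx => by
    by_contra hn
    exact hx (h.supp x hn)).1 hI

theorem Hyp.pp (h : Hyp q σ τ f D) : PP f := ⟨h.meas, h.integrable, h.bdd, h.supp_fst⟩

theorem PP.S {r : ℝ × ℝ → ℂ} (h : PP r) (v : ℝ≥0) : PP (S v r) where
  meas := measurable_S v h.meas
  int := integrable_S v h.meas h.int
  bdd := by
    obtain ⟨M, hM⟩ := h.bdd
    exact ⟨M, norm_S_le v hM⟩
  supp := fun x z hx => by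
    unfold Restr.S
    simp only [h.supp x _ hx]
    simp

/-- The error functions. -/
noncomputable def rr (v : ℝ≥0) (f : ℝ × ℝ → ℂ) (x : ℝ × ℝ) : ℂ := f x - S v f x

theorem PP.rr {r : ℝ × ℝ → ℂ} (h : PP r) (v : ℝ≥0) : PP (rr v r) where
  meas := h.meas.sub (measurable_S v h.meas)
  int := h.int.sub (integrable_S v h.meas h.int)
  bdd := by
    obtain ⟨M, hM⟩ := h.bdd
    refine ⟨M + M, fun x => ?_⟩
    exact (norm_sub_le _ _).trans (add_le_add (hM x) (norm_S_le v hM x))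
  supp := fun x z hx => by
    have h1 := (h.S v).supp x z hx
    unfold Restr.rr
    rw [h1, h.supp x z hx, sub_zero]

theorem S_sub (v : ℝ≥0) {f g : ℝ × ℝ → ℂ} (hf : PP f) (hg : PP g) :
    S v (fun x => f x - g x) = fun x => S v f x - S v g x := by
  obtain ⟨M, hM⟩ := hf.bdd
  obtain ⟨M', hM'⟩ := hg.bdd
  funext x
  unfold S
  rw [integral_sub]
  · exact Integrable.of_bound (C := M) (hf.meas.comp (by fun_prop)).aestronglyMeasurable
      (Eventually.of_forall fun s => hM _)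
  · exact Integrable.of_bound (C := M') (hg.meas.comp (by fun_prop)).aestronglyMeasurable
      (Eventually.of_forall fun s => hM' _)

theorem Hyp.rr_L2 (h : Hyp q σ τ f D) (h0 : 0 ≤ σ) (h1 : σ ≤ 1) (k i : ℕ) :
    ∫⁻ x, ‖rr (vv k i) f x‖ₑ ^ 2 ≤
      ENNReal.ofReal ((2 : ℝ) ^ (-(((k : ℝ) + i + 1) * σ))) * (D : ℝ≥0∞) ^ 2 := by
  obtain ⟨M, hM⟩ := h.bdd
  have h2 := modulus_S (vv k i) h.meas hM (σ := σ) h0 h1 (D := D) ENNReal.coe_ne_top h.mod2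
  rw [vv_rpow, mul_comm] at h2
  exact h2

theorem Hyp.rr_Lq (h : Hyp q σ τ f D) (hq : 1 ≤ q) (h0 : 0 ≤ τ) (h1 : τ ≤ 2) (k i : ℕ) :
    ∫⁻ x, ‖rr (vv k i) f x‖ₑ ^ q ≤
      ENNReal.ofReal ((2 : ℝ) ^ (-(((k : ℝ) + i + 1) * (τ / 2)))) * (D : ℝ≥0∞) ^ q := by
  obtain ⟨M, hM⟩ := h.bdd
  have h2 := modulus_S_q (vv k i) h.meas hM (τ := τ) hq h0 h1 (D := D) ENNReal.coe_ne_top h.modq
  rw [vv_rpow, mul_comm] at h2
  exact h2

/-- The `L^q` size on a block. -/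
noncomputable def Nq (q : ℝ) (I : Set ℝ) (f : ℝ × ℝ → ℂ) : ℝ≥0∞ :=
  (∫⁻ p, ‖Et f p‖ₑ ^ q ∂(Lam I)) ^ (1 / q)

theorem Nq_add {q : ℝ} (hq : 1 ≤ q) (I : Set ℝ) {f g : ℝ × ℝ → ℂ} (hf : PP f) (hg : PP g) :
    Nq q I (fun x => f x + g x) ≤ Nq q I f + Nq q I g := by
  unfold Nq
  refine le_trans ?_ (ENNReal.lintegral_Lp_add_le (measurable_Et hf.meas).enorm.aemeasurable
    (measurable_Et hg.meas).enorm.aemeasurable hq)
  have hq0 : 0 ≤ q := by linarith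
  refine ENNReal.rpow_le_rpow ?_ (by positivity)
  refine lintegral_mono fun p => ?_
  refine ENNReal.rpow_le_rpow ?_ hq0
  rw [Et_add hf.int hg.int]
  exact enorm_add_le _ _

/-- The common constant. -/
noncomputable def Cq (q : ℝ) : ℝ :=
  mq q * ((4 * Real.pi ^ 2) ^ ((4 - q) / 2) * (Cb ((q - 3) / 3)) ^ ((q - 2) / 2)) +
    (4 * Real.pi ^ 2) ^ ((4 - q) / 2) * (4 * Real.pi ^ 4) ^ ((q - 2) / 2)

theorem Cq_nonneg {q : ℝ} (hq : 3 < q) (hq4 : q < 4) : 0 ≤ Cq q := by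
  have hθ : 0 < (q - 3) / 3 := by linarith
  have hm := mq_pos (by linarith) hq4
  unfold Cq
  have h1 : 0 ≤ mq q * ((4 * Real.pi ^ 2) ^ ((4 - q) / 2) *
      (Cb ((q - 3) / 3)) ^ ((q - 2) / 2)) :=
    mul_nonneg hm.le (mul_nonneg (by positivity) (Real.rpow_nonneg (Cb_pos hθ).le _))
  have h2 : 0 ≤ (4 * Real.pi ^ 2) ^ ((4 - q) / 2) * (4 * Real.pi ^ 4) ^ ((q - 2) / 2) := by
    positivity
  linarith

/-- The common bound of all pieces. -/
noncomputable def bet (q : ℝ) (k : ℕ) (D : ℝ≥0) : ℝ≥0∞ :=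
  (ENNReal.ofReal (Cq q * 2 ^ (2 - (q - 3) / 6 * (k : ℝ))) * (D : ℝ≥0∞) ^ q) ^ (1 / q)

theorem Nq_piece {q : ℝ} (hq : 3 < q) (hq4 : q < 4) {r : ℝ × ℝ → ℂ} (hr : PP r) {D : ℝ≥0}
    {s : ℝ} (hs : ∫⁻ x, ‖r x‖ₑ ^ q ≤ ENNReal.ofReal ((2 : ℝ) ^ (-s)) * (D : ℝ≥0∞) ^ q)
    (k i : ℕ)
    (hexp : (k : ℝ) * ((4 - q) / 2) +
      ((i : ℝ) + 1 - k + k * ((q - 3) / 3)) * ((q - 2) / 2) - s ≤ 2 - (q - 3) / 6 * k) :
    Nq q (Ik k) (S (vv k i) r) ≤ bet q k D := by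
  unfold Nq bet
  have hθ : 0 < (q - 3) / 3 := by linarith
  have hm := mq_pos (by linarith : 2 < q) hq4
  have hC1 : 0 ≤ mq q * ((4 * Real.pi ^ 2) ^ ((4 - q) / 2) *
      (Cb ((q - 3) / 3)) ^ ((q - 2) / 2)) :=
    mul_nonneg hm.le (mul_nonneg (by positivity) (Real.rpow_nonneg (Cb_pos hθ).le _))
  refine ENNReal.rpow_le_rpow ?_ (by positivity)
  refine (piece (by linarith) hq4 hθ (by linarith) hr k i).trans ?_
  set X : ℝ := (k : ℝ) * ((4 - q) / 2) +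
      ((i : ℝ) + 1 - k + k * ((q - 3) / 3)) * ((q - 2) / 2)
  clear_value X
  calc ENNReal.ofReal (mq q * (((4 * Real.pi ^ 2) ^ ((4 - q) / 2) *
        (Cb ((q - 3) / 3)) ^ ((q - 2) / 2)) * 2 ^ X)) * ∫⁻ x, ‖r x‖ₑ ^ q
      ≤ ENNReal.ofReal (mq q * (((4 * Real.pi ^ 2) ^ ((4 - q) / 2) *
        (Cb ((q - 3) / 3)) ^ ((q - 2) / 2)) * 2 ^ X)) *
        (ENNReal.ofReal ((2 : ℝ) ^ (-s)) * (D : ℝ≥0∞) ^ q) := by gcongr
    _ = ENNReal.ofReal ((mq q * ((4 * Real.pi ^ 2) ^ ((4 - q) / 2) *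
        (Cb ((q - 3) / 3)) ^ ((q - 2) / 2))) * 2 ^ (X - s)) * (D : ℝ≥0∞) ^ q := by
        rw [← mul_assoc, ← ENNReal.ofReal_mul' (by positivity)]
        congr 2
        rw [sub_eq_add_neg X s, Real.rpow_add (by norm_num)]
        ring
    _ ≤ _ := by
        gcongr
        · exact Cq_nonneg hq hq4
        · unfold Cq
          have : 0 ≤ (4 * Real.pi ^ 2) ^ ((4 - q) / 2) * (4 * Real.pi ^ 4) ^ ((q - 2) / 2) := by
            positivity
          linarith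
        · norm_num

theorem Nq_remainder {q : ℝ} (hq : 3 < q) (hq4 : q < 4) {r : ℝ × ℝ → ℂ} (hr : PP r)
    {D : ℝ≥0} {s : ℝ}
    (hs : ∫⁻ x, ‖r x‖ₑ ^ 2 ≤ ENNReal.ofReal ((2 : ℝ) ^ (-s)) * (D : ℝ≥0∞) ^ 2) (k : ℕ)
    (hexp : ((k : ℝ) - s) * ((4 - q) / 2) + (-(2 * s)) * ((q - 2) / 2) ≤
      2 - (q - 3) / 6 * k) :
    Nq q (Ik k) r ≤ bet q k D := by
  unfold Nq bet
  have hθ : 0 < (q - 3) / 3 := by linarith
  have hm := mq_pos (by linarith : 2 < q) hq4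
  refine ENNReal.rpow_le_rpow ?_ (by positivity)
  refine (remainder (by linarith) hq4.le hr.meas hs k).trans ?_
  gcongr
  · exact Cq_nonneg hq hq4
  · unfold Cq
    have : 0 ≤ mq q * ((4 * Real.pi ^ 2) ^ ((4 - q) / 2) *
        (Cb ((q - 3) / 3)) ^ ((q - 2) / 2)) :=
      mul_nonneg hm.le (mul_nonneg (by positivity) (Real.rpow_nonneg (Cb_pos hθ).le _))
    linarith
  · norm_num

theorem expo_base {q k : ℝ} (hq : 3 < q) (hq4 : q < 4) (hk : 0 ≤ k) :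
    k * ((4 - q) / 2) + (((0 : ℕ) : ℝ) + 1 - k + k * ((q - 3) / 3)) * ((q - 2) / 2) - 0 ≤
      2 - (q - 3) / 6 * k := by
  have h1 : 0 ≤ k * (q - 3) * (6 - q) := by
    apply mul_nonneg (mul_nonneg hk (by linarith)) (by linarith)
  have h2 : 0 ≤ k * (q - 3) := mul_nonneg hk (by linarith)
  push_cast
  nlinarith

/-- The bound on the block `[2^k, 2^(k+1))`. -/
theorem Hyp.block {J : ℕ → ℕ} (e : Expo q σ τ J) (h : Hyp q σ τ f D) (k : ℕ) :
    Nq q (Ik k) f ≤ ((k : ℝ≥0∞) + 3) * bet q k D := by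
  have hq := e.three
  have hq4 := e.four
  have hk : (0 : ℝ) ≤ k := Nat.cast_nonneg k
  have hf : PP f := h.pp
  have hSp : ∀ n, PP (S (vv k n) f) := fun n => hf.S _
  have hrp : ∀ n, PP (rr (vv k n) f) := fun n => hf.rr _
  obtain ⟨M, hM⟩ := h.bdd
  -- the telescoping identity
  have htel : ∀ n, rr (vv k n) f = fun x => S (vv k (n + 1)) (rr (vv k (n + 1)) f) x +
      rr (vv k (n + 1)) f x := by
    intro n
    have h1 : S (vv k (n + 1)) (rr (vv k (n + 1)) f) =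
        fun x => S (vv k (n + 1)) f x - S (vv k n) f x := by
      have h2 := S_sub (vv k (n + 1)) hf (hSp (n + 1))
      have h3 := S_S (vv k (n + 1)) h.meas hM
      rw [vv_add] at h3
      rw [h3] at h2
      exact h2
    rw [h1]
    funext x
    unfold rr
    ring
  have hstep : ∀ n, n < J k → Nq q (Ik k) (rr (vv k n) f) ≤
      bet q k D + Nq q (Ik k) (rr (vv k (n + 1)) f) := by
    intro n hn
    have h0 := Nq_add (q := q) (by linarith) (Ik k) ((hrp (n + 1)).S (vv k (n + 1)))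
      (hrp (n + 1))
    rw [← htel n] at h0
    refine h0.trans ?_
    gcongr
    exact Nq_piece hq hq4 (hrp (n + 1)) (h.rr_Lq (by linarith) e.τ0 e.τ1 k (n + 1)) k (n + 1)
      (e.piece k (n + 1) hn)
  have hind : ∀ n, n ≤ J k → Nq q (Ik k) (rr (vv k 0) f) ≤
      (n : ℝ≥0∞) * bet q k D + Nq q (Ik k) (rr (vv k n) f) := by
    intro n
    induction n with
    | zero => intro _; simp
    | succ n ih =>
      intro hn
      refine (ih (by omega)).trans ?_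
      calc (n : ℝ≥0∞) * bet q k D + Nq q (Ik k) (rr (vv k n) f)
          ≤ (n : ℝ≥0∞) * bet q k D + (bet q k D + Nq q (Ik k) (rr (vv k (n + 1)) f)) := by
            gcongr
            exact hstep n (by omega)
        _ = _ := by push_cast; ring
  have hrem : Nq q (Ik k) (rr (vv k (J k)) f) ≤ bet q k D :=
    Nq_remainder hq hq4 (hrp (J k)) (h.rr_L2 e.σ0.le e.σ1 k (J k)) k (e.rem k)
  have hbase : Nq q (Ik k) (S (vv k 0) f) ≤ bet q k D := by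
    refine Nq_piece hq hq4 hf (s := 0) ?_ k 0 (expo_base hq hq4 hk)
    rw [neg_zero, Real.rpow_zero, ENNReal.ofReal_one, one_mul]
    exact h.Lq
  have hsplit : f = fun x => S (vv k 0) f x + rr (vv k 0) f x := by
    funext x
    unfold rr
    ring
  calc Nq q (Ik k) f = Nq q (Ik k) (fun x => S (vv k 0) f x + rr (vv k 0) f x) := by
        rw [← hsplit]
    _ ≤ Nq q (Ik k) (S (vv k 0) f) + Nq q (Ik k) (rr (vv k 0) f) :=
        Nq_add (by linarith) _ (hSp 0) (hrp 0)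
    _ ≤ bet q k D + ((J k : ℝ≥0∞) * bet q k D + bet q k D) := by
        gcongr
        exact (hind (J k) le_rfl).trans (by gcongr)
    _ = ((J k : ℝ≥0∞) + 2) * bet q k D := by ring
    _ ≤ _ := by
        gcongr ?_ * _
        have : J k + 2 ≤ k + 3 := by
          have := e.J_le k
          omega
        exact_mod_cast this

end Pool.Agent.Restr
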