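import Mathlib
import Pool.Agent.Restr.Final

/-!
# The global `L^q` bound
-/

namespace Pool.Agent.Restr

open MeasureTheory Set Filter ProbabilityTheory
open scoped ENNReal NNReal Topology

variable {q σ τ : ℝ} {f : ℝ × ℝ → ℂ} {D : ℝ≥0}

theorem Hyp.block_pow {J : ℕ → ℕ} (e : Expo q σ τ J) (h : Hyp q σ τ f D) (k : ℕ) : ∫⁻ p, ‖Et f p‖ₑ ^ q ∂(Lam (Ik k)) ≤
      ENNReal.ofReal (((k : ℝ) + 3) ^ 4 * (Cq q * 2 ^ (2 - (q - 3) / 6 * (k : ℝ)))) *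
        (D : ℝ≥0∞) ^ q := by
  have hq := e.three
  have hq4 := e.four
  have hq0 : 0 < q := by linarith
  have h1 := h.block e k
  have e1 : ∀ y : ℝ≥0∞, (y ^ (1 / q)) ^ q = y := by
    intro y
    rw [← ENNReal.rpow_mul, one_div, inv_mul_cancel₀ hq0.ne', ENNReal.rpow_one]
  have h2 : ∫⁻ p, ‖Et f p‖ₑ ^ q ∂(Lam (Ik k)) ≤ (((k : ℝ≥0∞) + 3) * bet q k D) ^ q := by
    calc ∫⁻ p, ‖Et f p‖ₑ ^ q ∂(Lam (Ik k)) = (Nq q (Ik k) f) ^ q := (e1 _).symm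
      _ ≤ _ := by gcongr
  refine h2.trans ?_
  rw [ENNReal.mul_rpow_of_nonneg _ _ hq0.le]
  unfold bet
  rw [e1, ENNReal.ofReal_mul (p := ((k : ℝ) + 3) ^ 4) (by positivity),
    mul_assoc (ENNReal.ofReal (((k : ℝ) + 3) ^ 4))]
  gcongr ?_ * _
  have h3 : (1 : ℝ≥0∞) ≤ (k : ℝ≥0∞) + 3 := by
    have : 1 ≤ k + 3 := by omega
    exact_mod_cast this
  calc ((k : ℝ≥0∞) + 3) ^ q ≤ ((k : ℝ≥0∞) + 3) ^ (4 : ℝ) :=
        ENNReal.rpow_le_rpow_of_exponent_le h3 hq4.le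
    _ = ((k : ℝ≥0∞) + 3) ^ 4 := by
        rw [show (4 : ℝ) = ((4 : ℕ) : ℝ) by norm_num, ENNReal.rpow_natCast]
    _ = ENNReal.ofReal (((k : ℝ) + 3) ^ 4) := by
        rw [ENNReal.ofReal_pow (by positivity)]
        congr 1
        rw [ENNReal.ofReal_add (by positivity) (by norm_num), ENNReal.ofReal_natCast]
        norm_num

theorem summable_blocks {q : ℝ} (hq : 3 < q) :
    Summable fun k : ℕ => ((k : ℝ) + 3) ^ 4 * (Cq q * 2 ^ (2 - (q - 3) / 6 * (k : ℝ))) := by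
  set ρ : ℝ := (2 : ℝ) ^ (-((q - 3) / 6)) with hρ
  have hρ0 : 0 < ρ := by positivity
  have hρ1 : ρ < 1 := Real.rpow_lt_one_of_one_lt_of_neg (by norm_num) (by linarith)
  have h1 : Summable fun n : ℕ => (n : ℝ) ^ 4 * ρ ^ n :=
    summable_pow_mul_geometric_of_norm_lt_one 4 (by
      rw [Real.norm_of_nonneg hρ0.le]; exact hρ1)
  have h2 := ((summable_nat_add_iff 3).2 h1).mul_right (Cq q * 4 * (ρ ^ 3)⁻¹)
  refine h2.congr fun k => ?_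
  have e1 : (2 : ℝ) ^ (2 - (q - 3) / 6 * (k : ℝ)) = 4 * ρ ^ k := by
    rw [sub_eq_add_neg, Real.rpow_add (by norm_num), hρ, ← Real.rpow_natCast (_ ^ _) k,
      ← Real.rpow_mul (by norm_num)]
    congr 1
    · norm_num
    · congr 1
      ring
  rw [e1]
  push_cast
  rw [pow_add]
  field_simp

theorem Ici_subset : Ici (1 : ℝ) ⊆ ⋃ k, Ik k := by
  intro t ht
  obtain ⟨n, h1, h2⟩ := exists_nat_pow_near (show (1 : ℝ) ≤ t from ht) (by norm_num : (1 : ℝ) < 2)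
  refine mem_iUnion.2 ⟨n, h1, ?_⟩
  rw [pow_succ] at h2
  linarith

/-- The sliced `q`-th power. -/
noncomputable def gsl (q : ℝ) (f : ℝ × ℝ → ℂ) (t : ℝ) : ℝ≥0∞ := ∫⁻ b, ∫⁻ a, ‖E f (a, b, t)‖ₑ ^ q

theorem lam_eq {q : ℝ} {f : ℝ × ℝ → ℂ} (hf : Measurable f) (I : Set ℝ) :
    ∫⁻ p, ‖Et f p‖ₑ ^ q ∂(Lam I) = ∫⁻ t in I, gsl q f t :=
  lintegral_Lam (I := I) (N := fun p => ‖E f p‖ₑ ^ q) ((measurable_E hf).enorm.pow_const q)

theorem exists_const_pos {q σ τ : ℝ} {J : ℕ → ℕ} (e : Expo q σ τ J) : ∃ C : ℝ≥0,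
    ∀ (f : ℝ × ℝ → ℂ) (D : ℝ≥0), Hyp q σ τ f D →
      ∫⁻ t in Ici (0 : ℝ), gsl q f t ≤ C * (D : ℝ≥0∞) ^ q := by
  have hq := e.three
  have hq4 := e.four
  set c : ℕ → ℝ := fun k => ((k : ℝ) + 3) ^ 4 * (Cq q * 2 ^ (2 - (q - 3) / 6 * (k : ℝ))) with hc
  have hc0 : ∀ k, 0 ≤ c k := fun k => by
    have := Cq_nonneg hq hq4
    positivity
  set c' : ℝ := (4 * Real.pi ^ 2) ^ ((4 - q) / 2) * (4 * Real.pi ^ 4) ^ ((q - 2) / 2) with hc'
  refine ⟨(c').toNNReal + (∑' k, c k).toNNReal, fun f D h => ?_⟩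
  have hlarge : ∫⁻ t in Ici (1 : ℝ), gsl q f t ≤ ENNReal.ofReal (∑' k, c k) * (D : ℝ≥0∞) ^ q := by
    calc ∫⁻ t in Ici (1 : ℝ), gsl q f t ≤ ∫⁻ t in ⋃ k, Ik k, gsl q f t :=
          lintegral_mono_set Ici_subset
      _ ≤ ∑' k, ∫⁻ t in Ik k, gsl q f t := lintegral_iUnion_le _ _
      _ ≤ ∑' k, ENNReal.ofReal (c k) * (D : ℝ≥0∞) ^ q := by
          refine ENNReal.tsum_le_tsum fun k => ?_
          rw [← lam_eq h.meas]
          exact h.block_pow e k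
      _ = (∑' k, ENNReal.ofReal (c k)) * (D : ℝ≥0∞) ^ q := ENNReal.tsum_mul_right
      _ = _ := by rw [ENNReal.ofReal_tsum_of_nonneg hc0 (summable_blocks hq)]
  have hsmall : ∫⁻ t in Ico (0 : ℝ) 1, gsl q f t ≤ ENNReal.ofReal c' * (D : ℝ≥0∞) ^ q := by
    rw [← lam_eq h.meas]
    refine interp (measurable_Et h.meas).enorm (by linarith) hq4.le (by positivity)
      (by positivity) ?_ ?_
    · refine (block_L2 h.meas).trans ?_
      rw [Real.volume_Ico, sub_zero, ENNReal.ofReal_one, one_mul]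
      gcongr
      exact h.L2
    · refine (block_TS h.meas).trans ?_
      have := h.L2
      calc ENNReal.ofReal (4 * Real.pi ^ 4) * (∫⁻ x, ‖f x‖ₑ ^ 2) ^ 2
          ≤ ENNReal.ofReal (4 * Real.pi ^ 4) * ((D : ℝ≥0∞) ^ 2) ^ 2 := by gcongr
        _ = _ := by rw [← pow_mul]
  have hsub : Ici (0 : ℝ) ⊆ Ico 0 1 ∪ Ici 1 := by
    intro t ht
    rcases lt_or_ge t 1 with h1 | h1
    · exact Or.inl ⟨ht, h1⟩
    · exact Or.inr h1
  calc ∫⁻ t in Ici (0 : ℝ), gsl q f t ≤ ∫⁻ t in Ico (0 : ℝ) 1 ∪ Ici 1, gsl q f t :=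
        lintegral_mono_set hsub
    _ ≤ (∫⁻ t in Ico (0 : ℝ) 1, gsl q f t) + ∫⁻ t in Ici (1 : ℝ), gsl q f t :=
        lintegral_union_le _ _ _
    _ ≤ ENNReal.ofReal c' * (D : ℝ≥0∞) ^ q + ENNReal.ofReal (∑' k, c k) * (D : ℝ≥0∞) ^ q :=
        add_le_add hsmall hlarge
    _ = _ := by
        rw [← add_mul]
        rfl

/-- The complex conjugate of a function. -/
noncomputable def cj (f : ℝ × ℝ → ℂ) (x : ℝ × ℝ) : ℂ := (starRingEnd ℂ) (f x)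

theorem enorm_cj (f : ℝ × ℝ → ℂ) (x : ℝ × ℝ) : ‖cj f x‖ₑ = ‖f x‖ₑ := by
  unfold cj
  rw [← ofReal_norm, RCLike.norm_conj, ofReal_norm]

theorem enorm_cj_sub (f : ℝ × ℝ → ℂ) (x y : ℝ × ℝ) : ‖cj f x - cj f y‖ₑ = ‖f x - f y‖ₑ := by
  unfold cj
  rw [← map_sub, ← ofReal_norm, RCLike.norm_conj, ofReal_norm]

theorem Hyp.cj (h : Hyp q σ τ f D) : Hyp q σ τ (Restr.cj f) D where
  meas := Complex.continuous_conj.measurable.comp h.meas
  bdd := by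
    obtain ⟨M, hM⟩ := h.bdd
    refine ⟨M, fun x => ?_⟩
    unfold Restr.cj
    rw [RCLike.norm_conj]
    exact hM x
  L2 := by
    simp only [enorm_cj]
    exact h.L2
  Lq := by
    simp only [enorm_cj]
    exact h.Lq
  supp := fun x hx => by
    unfold Restr.cj
    rw [h.supp x hx, map_zero]
  mod2 := fun t ht => by
    simp only [enorm_cj_sub]
    exact h.mod2 t ht
  modq := fun t ht => by
    simp only [enorm_cj_sub]
    exact h.modq t ht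

theorem E_neg (f : ℝ × ℝ → ℂ) (a b t : ℝ) :
    E f (-a, -b, -t) = (starRingEnd ℂ) (E (cj f) (a, b, t)) := by
  unfold E cj
  rw [← integral_conj]
  refine integral_congr_ae (Eventually.of_forall fun x => ?_)
  simp only [map_mul, Complex.conj_conj, conj_u]
  congr 2
  ring

theorem gsl_neg (q : ℝ) (f : ℝ × ℝ → ℂ) (t : ℝ) : gsl q f (-t) = gsl q (cj f) t := by
  unfold gsl
  rw [← lintegral_neg_eq_self]
  refine lintegral_congr fun b => ?_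
  rw [← lintegral_neg_eq_self]
  refine lintegral_congr fun a => ?_
  rw [E_neg, ← ofReal_norm, RCLike.norm_conj, ofReal_norm]

/-- The global bound for functions satisfying the hypotheses. -/
theorem exists_const {q σ τ : ℝ} {J : ℕ → ℕ} (e : Expo q σ τ J) : ∃ C : ℝ≥0,
    ∀ (f : ℝ × ℝ → ℂ) (D : ℝ≥0), Hyp q σ τ f D →
      ∫⁻ ξ, ‖E f ξ‖ₑ ^ q ≤ C * (D : ℝ≥0∞) ^ q := by
  obtain ⟨C, hC⟩ := exists_const_pos e
  refine ⟨C + C, fun f D h => ?_⟩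
  have h1 := hC f D h
  have h2 := hC (cj f) D h.cj
  have hm := (measurable_E h.meas).enorm.pow_const q
  have e0 : ∫⁻ ξ, ‖E f ξ‖ₑ ^ q = ∫⁻ t, gsl q f t := by
    have h3 := lam_eq (q := q) h.meas univ
    rw [Measure.restrict_univ] at h3
    rw [← h3]
    have h4 := lintegral_Lam (I := univ) hm
    rw [show ∫⁻ p, ‖Et f p‖ₑ ^ q ∂(Lam univ) =
      ∫⁻ p : ℝ × ℝ × ℝ, ‖E f (p.2.2, p.2.1, p.1)‖ₑ ^ q ∂(Lam univ) from rfl, h4,
      Measure.restrict_univ]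
    rw [Measure.volume_eq_prod (α := ℝ) (β := ℝ × ℝ), lintegral_prod_symm _ hm.aemeasurable]
    have hm1 : Measurable (fun y : ℝ × ℝ => ∫⁻ x, ‖E f (x, y)‖ₑ ^ q) :=
      Measurable.lintegral_prod_right' (f := fun q' : (ℝ × ℝ) × ℝ => ‖E f (q'.2, q'.1)‖ₑ ^ q)
        (hm.comp (by fun_prop : Measurable fun q' : (ℝ × ℝ) × ℝ => (q'.2, q'.1)))
    rw [Measure.volume_eq_prod, lintegral_prod_symm _ hm1.aemeasurable]
  rw [e0, ← lintegral_add_compl (gsl q f) (measurableSet_Ici (a := (0 : ℝ)))]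
  have h5 : ∫⁻ t in (Ici (0 : ℝ))ᶜ, gsl q f t ≤ ∫⁻ t in Ici (0 : ℝ), gsl q (cj f) t := by
    rw [← lintegral_indicator measurableSet_Ici, ← lintegral_indicator measurableSet_Ici.compl,
      ← lintegral_neg_eq_self]
    refine lintegral_mono fun t => ?_
    by_cases ht : -t ∈ (Ici (0 : ℝ))ᶜ
    · have ht' : t ∈ Ici (0 : ℝ) := by
        have : ¬ (0 ≤ -t) := ht
        change 0 ≤ t
        linarith
      rw [indicator_of_mem ht, indicator_of_mem ht', gsl_neg]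
    · rw [indicator_of_notMem ht]
      exact bot_le
  calc (∫⁻ t in Ici (0 : ℝ), gsl q f t) + ∫⁻ t in (Ici (0 : ℝ))ᶜ, gsl q f t
      ≤ C * (D : ℝ≥0∞) ^ q + C * (D : ℝ≥0∞) ^ q := add_le_add h1 (h5.trans h2)
    _ = _ := by rw [← add_mul]; push_cast; rfl

/-- Numerical conditions for the moduli `h^σ` in `L²` and `h^{(1-3σ)/q}` in `L^q`. -/
theorem expoT {q σ : ℝ} (hq : 3 < q) (hq4 : q < 4) (hσ : 1 / 6 ≤ σ) (hσ' : σ ≤ 1 / 3) :
    Expo q σ (1 - 3 * σ) (fun k => ⌈(1 / (3 * σ) - 1) * (k : ℝ)⌉₊) := by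
  have hσ0 : 0 < σ := by linarith
  have hl1 : 1 / (3 * σ) ≤ 2 := by
    rw [div_le_iff₀ (by positivity)]
    linarith
  have hl0 : 1 ≤ 1 / (3 * σ) := by
    rw [le_div_iff₀ (by positivity)]
    linarith
  have hl3 : 1 / (3 * σ) * (3 * σ) = 1 := by
    field_simp
  set l : ℝ := 1 / (3 * σ) with hl
  clear_value l
  have hJ1 : ∀ k : ℕ, (l - 1) * (k : ℝ) ≤ ((⌈(l - 1) * (k : ℝ)⌉₊ : ℕ) : ℝ) := fun k =>
    Nat.le_ceil _
  have hJ2 : ∀ k : ℕ, ((⌈(l - 1) * (k : ℝ)⌉₊ : ℕ) : ℝ) ≤ (l - 1) * (k : ℝ) + 1 := fun k =>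
    (Nat.ceil_lt_add_one (mul_nonneg (by linarith) (Nat.cast_nonneg k))).le
  refine ⟨hq, hq4, hσ0, by linarith, by linarith, by linarith, fun k => ?_, fun k i hi => ?_,
    fun k => ?_⟩
  · have hk : (0 : ℝ) ≤ k := Nat.cast_nonneg k
    have h1 := hJ2 k
    have h2 : (l - 1) * (k : ℝ) + 1 ≤ k + 1 := by nlinarith
    have h3 : ((⌈(l - 1) * (k : ℝ)⌉₊ : ℕ) : ℝ) ≤ ((k + 1 : ℕ) : ℝ) := by
      push_cast
      linarith
    exact_mod_cast h3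
  · have hk : (0 : ℝ) ≤ k := Nat.cast_nonneg k
    have hi' : (i : ℝ) ≤ (l - 1) * (k : ℝ) + 1 := by
      have h1 : (i : ℝ) ≤ ((⌈(l - 1) * (k : ℝ)⌉₊ : ℕ) : ℝ) := by exact_mod_cast hi
      exact h1.trans (hJ2 k)
    have h1 : 0 ≤ (k : ℝ) * (q - 3) * (4 - q) :=
      mul_nonneg (mul_nonneg hk (by linarith)) (by linarith)
    have h2 : 0 ≤ ((l - 1) * (k : ℝ) + 1 - i) * ((q - 2) - (1 - 3 * σ)) :=
      mul_nonneg (by linarith) (by linarith)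
    have h3 : 0 ≤ (k : ℝ) * (q - 3) * (2 - l) :=
      mul_nonneg (mul_nonneg hk (by linarith)) (by linarith)
    have h4 : (k : ℝ) * (l * (3 * σ)) = k := by rw [hl3, mul_one]
    nlinarith
  · have hk : (0 : ℝ) ≤ k := Nat.cast_nonneg k
    have h1 : 0 ≤ (k : ℝ) * (q - 3) := mul_nonneg hk (by linarith)
    have h2 : 0 ≤ (((⌈(l - 1) * (k : ℝ)⌉₊ : ℕ) : ℝ) - (l - 1) * (k : ℝ)) * (σ * q) :=
      mul_nonneg (by linarith [hJ1 k]) (by positivity)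
    have h4 : (k : ℝ) * q * (l * (3 * σ)) = k * q := by rw [hl3, mul_one]
    have h5 : 0 ≤ σ * q := by positivity
    nlinarith

end Pool.Agent.Restr
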