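import Mathlib
import Pool.Agent.Restr.Global

/-!
# The estimates in terms of `L^p` norms
-/

namespace Pool.Agent.Restr

open MeasureTheory Set Filter ProbabilityTheory
open scoped ENNReal NNReal Topology

section norms

variable {α F' : Type*} [MeasurableSpace α] {μ : Measure α} [NormedAddCommGroup F']

theorem lin_q {F : α → F'} {q : ℝ} (hq : 0 < q) :
    ∫⁻ x, ‖F x‖ₑ ^ q ∂μ = (eLpNorm F (ENNReal.ofReal q) μ) ^ q := by
  rw [eLpNorm_eq_lintegral_rpow_enorm_toReal (by simpa using hq) ENNReal.ofReal_ne_top,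
    ENNReal.toReal_ofReal hq.le, ← ENNReal.rpow_mul, one_div_mul_cancel hq.ne',
    ENNReal.rpow_one]

theorem lin_2 {F : α → F'} : ∫⁻ x, ‖F x‖ₑ ^ 2 ∂μ = (eLpNorm F 2 μ) ^ 2 := by
  have h := lin_q (μ := μ) (F := F) (q := 2) (by norm_num)
  rw [show ENNReal.ofReal 2 = 2 by norm_num] at h
  rw [← ENNReal.rpow_natCast (eLpNorm F 2 μ) 2]
  push_cast
  rw [← h]
  refine lintegral_congr fun x => ?_
  rw [← ENNReal.rpow_natCast]
  norm_num

theorem eLpNorm_le_of_lin {F : α → F'} {q : ℝ} (hq : 0 < q) {B : ℝ≥0∞}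
    (h : ∫⁻ x, ‖F x‖ₑ ^ q ∂μ ≤ B ^ q) : eLpNorm F (ENNReal.ofReal q) μ ≤ B := by
  rw [lin_q hq] at h
  exact (ENNReal.rpow_le_rpow_iff hq).1 h

theorem eLpNorm_two_le {F : α → F'} {s : Set α} (hs : F.support ⊆ s) {q : ℝ} (hq : 2 ≤ q)
    (hF : AEStronglyMeasurable F μ) (hc : μ s ≤ 2) :
    eLpNorm F 2 μ ≤ eLpNorm F (ENNReal.ofReal q) μ * 2 := by
  rw [← eLpNorm_restrict_eq_of_support_subset hs (p := 2),
    ← eLpNorm_restrict_eq_of_support_subset hs (p := ENNReal.ofReal q)]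
  have hpq : (2 : ℝ≥0∞) ≤ ENNReal.ofReal q := by
    rw [show (2 : ℝ≥0∞) = ENNReal.ofReal 2 by norm_num]
    exact ENNReal.ofReal_le_ofReal hq
  refine (eLpNorm_le_eLpNorm_mul_rpow_measure_univ hpq hF.restrict).trans ?_
  gcongr
  rw [Measure.restrict_apply MeasurableSet.univ, univ_inter,
    ENNReal.toReal_ofReal (by linarith)]
  have e1 : (0 : ℝ) ≤ 1 / (2 : ℝ≥0∞).toReal - 1 / q := by
    rw [show (2 : ℝ≥0∞).toReal = 2 by norm_num]
    have : 1 / q ≤ 1 / 2 := one_div_le_one_div_of_le (by norm_num) hq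
    linarith
  have e2 : 1 / (2 : ℝ≥0∞).toReal - 1 / q ≤ 1 := by
    rw [show (2 : ℝ≥0∞).toReal = 2 by norm_num]
    have : 0 ≤ 1 / q := by positivity
    linarith
  calc (μ s) ^ (1 / (2 : ℝ≥0∞).toReal - 1 / q) ≤ 2 ^ (1 / (2 : ℝ≥0∞).toReal - 1 / q) := by
        gcongr
    _ ≤ 2 ^ (1 : ℝ) := ENNReal.rpow_le_rpow_of_exponent_le (by norm_num) e2
    _ = 2 := ENNReal.rpow_one _

theorem eLpNorm_le_one {F : α → F'} {s : Set α} (hs : F.support ⊆ s) {p q : ℝ≥0∞} (hpq : p ≤ q)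
    (hF : AEStronglyMeasurable F μ) (hc : μ s = 1) : eLpNorm F p μ ≤ eLpNorm F q μ := by
  rw [← eLpNorm_restrict_eq_of_support_subset hs (p := p),
    ← eLpNorm_restrict_eq_of_support_subset hs (p := q)]
  refine (eLpNorm_le_eLpNorm_mul_rpow_measure_univ hpq hF.restrict).trans ?_
  rw [Measure.restrict_apply MeasurableSet.univ, univ_inter, hc, ENNReal.one_rpow, mul_one]

end norms

/-- The unit square. -/
def QQ : Set (ℝ × ℝ) := Icc (-(1 / 2) : ℝ) (1 / 2) ×ˢ Icc (-(1 / 2) : ℝ) (1 / 2)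

theorem vol_QQ : volume QQ = 1 := volume_square

/-- The difference in the second variable. -/
noncomputable def Dl (h : ℝ) (f : ℝ × ℝ → ℂ) (x : ℝ × ℝ) : ℂ := f (x.1, x.2 + h) - f x

theorem measurable_Dl {f : ℝ × ℝ → ℂ} (hf : Measurable f) (h : ℝ) : Measurable (Dl h f) :=
  (hf.comp (by fun_prop : Measurable fun x : ℝ × ℝ => (x.1, x.2 + h))).sub hf

theorem eLpNorm_shift {f : ℝ × ℝ → ℂ} (hf : Measurable f) (h : ℝ) (p : ℝ≥0∞) :
    eLpNorm (fun x : ℝ × ℝ => f (x.1, x.2 + h)) p volume = eLpNorm f p volume := by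
  have h1 := eLpNorm_comp_measurePreserving (p := p) hf.aestronglyMeasurable
    (measurePreserving_add_right (volume : Measure (ℝ × ℝ)) ((0, h) : ℝ × ℝ))
  rw [← h1]
  congr 1
  funext x
  change f (x.1, x.2 + h) = f (x + (0, h))
  congr 1
  ext <;> simp

theorem eLpNorm_Dl_le {f : ℝ × ℝ → ℂ} (hf : Measurable f) (h : ℝ) {p : ℝ≥0∞} (hp : 1 ≤ p) :
    eLpNorm (Dl h f) p volume ≤ 2 * eLpNorm f p volume := by
  have h1 : eLpNorm (Dl h f) p volume ≤
      eLpNorm (fun x : ℝ × ℝ => f (x.1, x.2 + h)) p volume + eLpNorm f p volume :=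
    eLpNorm_sub_le (hf.comp (by fun_prop : Measurable fun x : ℝ × ℝ =>
      (x.1, x.2 + h))).aestronglyMeasurable hf.aestronglyMeasurable hp
  rw [eLpNorm_shift hf, ← two_mul] at h1
  exact h1

theorem Dl_support {f : ℝ × ℝ → ℂ} (hs : ∀ x, x ∉ QQ → f x = 0) {h : ℝ} (h0 : 0 < h) (h1 : h ≤ 1) :
    (Dl h f).support ⊆ Icc (-(1 / 2) : ℝ) (1 / 2) ×ˢ Icc (-(3 / 2) : ℝ) (1 / 2) := by
  intro x hx
  by_contra hn
  apply hx
  have e1 : f x = 0 := by
    apply hs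
    intro hq
    apply hn
    exact ⟨hq.1, by linarith [hq.2.1], hq.2.2⟩
  have e2 : f (x.1, x.2 + h) = 0 := by
    apply hs
    intro hq
    apply hn
    have h2 : -(1 / 2) ≤ x.2 + h := hq.2.1
    have h3 : x.2 + h ≤ 1 / 2 := hq.2.2
    exact ⟨hq.1, by linarith, by linarith⟩
  unfold Dl
  rw [e1, e2, sub_zero]

theorem eLpNorm_Dl_two {f : ℝ × ℝ → ℂ} (hf : Measurable f) (hs : ∀ x, x ∉ QQ → f x = 0)
    {h : ℝ} (h0 : 0 < h) (h1 : h ≤ 1) {q : ℝ} (hq : 2 ≤ q) :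
    eLpNorm (Dl h f) 2 volume ≤ eLpNorm (Dl h f) (ENNReal.ofReal q) volume * 2 := by
  refine eLpNorm_two_le (Dl_support hs h0 h1) hq (measurable_Dl hf h).aestronglyMeasurable ?_
  rw [Measure.volume_eq_prod, Measure.prod_prod, Real.volume_Icc, Real.volume_Icc,
    ← ENNReal.ofReal_mul (by norm_num)]
  rw [show (2 : ℝ≥0∞) = ENNReal.ofReal 2 by norm_num]
  apply ENNReal.ofReal_le_ofReal
  norm_num

theorem support_QQ {f : ℝ × ℝ → ℂ} (hs : ∀ x, x ∉ QQ → f x = 0) : f.support ⊆ QQ := by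
  intro x hx
  by_contra hn
  exact hx (hs x hn)

theorem eLpNorm_ne_top_of_bdd {f : ℝ × ℝ → ℂ} (hs : ∀ x, x ∉ QQ → f x = 0) {M : ℝ}
    (hM : ∀ x, ‖f x‖ ≤ M) (p : ℝ≥0∞) :
    eLpNorm f p volume ≤ ENNReal.ofReal M := by
  rw [← eLpNorm_restrict_eq_of_support_subset (support_QQ hs)]
  refine (eLpNorm_le_of_ae_bound (C := M) (Eventually.of_forall fun x => hM x)).trans ?_
  rw [Measure.restrict_apply MeasurableSet.univ, univ_inter, vol_QQ, ENNReal.one_rpow, one_mul]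

/-- The estimate for bounded functions. -/
theorem caseT_bdd {q σ : ℝ} (hq : 3 < q) (hq4 : q < 4) (hσ : 1 / 6 ≤ σ) (hσ' : σ ≤ 1 / 3) :
    ∃ C : ℝ≥0, ∀ f : ℝ × ℝ → ℂ,
    Measurable f → (∃ M : ℝ, ∀ x, ‖f x‖ ≤ M) → (∀ x, x ∉ QQ → f x = 0) → ∀ A : ℝ≥0,
    (∀ h : ℝ, 0 < h → h ≤ 1 → eLpNorm (Dl h f) 2 volume ≤ A * ENNReal.ofReal (h ^ σ)) →
    (∀ h : ℝ, 0 < h → h ≤ 1 → eLpNorm (Dl h f) (ENNReal.ofReal q) volume ≤
      A * ENNReal.ofReal (h ^ ((1 - 3 * σ) / q))) →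
    eLpNorm (E f) (ENNReal.ofReal q) volume ≤
      C * (eLpNorm f (ENNReal.ofReal q) volume + A) := by
  obtain ⟨C0, hC0⟩ := exists_const (expoT hq hq4 hσ hσ')
  have hq0 : 0 < q := by linarith
  refine ⟨C0 ^ (1 / q) * 2, fun f hf hb hs A hA2 hAq => ?_⟩
  obtain ⟨M, hM⟩ := hb
  have h1q : (1 : ℝ≥0∞) ≤ ENNReal.ofReal q := by
    rw [← ENNReal.ofReal_one]
    exact ENNReal.ofReal_le_ofReal (by linarith)
  have h2q : (2 : ℝ≥0∞) ≤ ENNReal.ofReal q := by
    rw [show (2 : ℝ≥0∞) = ENNReal.ofReal 2 by norm_num]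
    exact ENNReal.ofReal_le_ofReal (by linarith)
  set N : ℝ≥0∞ := eLpNorm f (ENNReal.ofReal q) volume with hN
  have hNtop : N ≠ ⊤ :=
    ne_top_of_le_ne_top ENNReal.ofReal_ne_top (eLpNorm_ne_top_of_bdd hs hM _)
  set D : ℝ≥0 := 2 * (N.toNNReal + A) with hD
  have hDN : (D : ℝ≥0∞) = 2 * (N + A) := by
    rw [hD]
    push_cast
    rw [ENNReal.coe_toNNReal hNtop]
  have hND : N ≤ D := by
    rw [hDN, two_mul]
    exact le_self_add.trans le_self_add
  have h2ND : 2 * N ≤ D := by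
    rw [hDN]
    gcongr
    exact le_self_add
  have hAD : (A : ℝ≥0∞) ≤ D := by
    rw [hDN, two_mul]
    exact le_add_self.trans le_self_add
  have h2 : eLpNorm f 2 volume ≤ N :=
    eLpNorm_le_one (support_QQ hs) h2q hf.aestronglyMeasurable vol_QQ
  have hone : ∀ h a : ℝ, 1 < h → 0 ≤ a → (1 : ℝ≥0∞) ≤ ENNReal.ofReal (h ^ a) := by
    intro h a hh ha
    rw [← ENNReal.ofReal_one]
    exact ENNReal.ofReal_le_ofReal (Real.one_le_rpow hh.le ha)
  have hex : 0 ≤ (1 - 3 * σ) / q := div_nonneg (by linarith) hq0.le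
  have hmodq : ∀ h : ℝ, 0 < h → eLpNorm (Dl h f) (ENNReal.ofReal q) volume ≤
      D * ENNReal.ofReal (h ^ ((1 - 3 * σ) / q)) := by
    intro h h0
    rcases le_or_gt h 1 with h1 | h1
    · refine (hAq h h0 h1).trans ?_
      gcongr
    · calc eLpNorm (Dl h f) (ENNReal.ofReal q) volume ≤ 2 * N := eLpNorm_Dl_le hf h h1q
        _ ≤ D * 1 := by rw [mul_one]; exact h2ND
        _ ≤ _ := by
            gcongr
            exact hone h _ h1 hex
  have hmod2 : ∀ h : ℝ, 0 < h → eLpNorm (Dl h f) 2 volume ≤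
      D * ENNReal.ofReal (h ^ σ) := by
    intro h h0
    rcases le_or_gt h 1 with h1 | h1
    · refine (hA2 h h0 h1).trans ?_
      gcongr
    · calc eLpNorm (Dl h f) 2 volume ≤ 2 * eLpNorm f 2 volume :=
            eLpNorm_Dl_le hf h (by norm_num)
        _ ≤ 2 * N := by gcongr
        _ ≤ D * 1 := by rw [mul_one]; exact h2ND
        _ ≤ _ := by
            gcongr
            exact hone h _ h1 (by linarith)
  have hyp : Hyp q σ (1 - 3 * σ) f D := by
    refine ⟨hf, ⟨M, hM⟩, hs, ?_, ?_, ?_, ?_⟩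
    · rw [lin_2]
      gcongr
      exact h2.trans hND
    · rw [lin_q hq0]
      gcongr
    · intro h h0
      have := lin_2 (μ := volume) (F := Dl h f)
      unfold Dl at this
      rw [this]
      calc (eLpNorm (Dl h f) 2 volume) ^ 2 ≤ (D * ENNReal.ofReal (h ^ σ)) ^ 2 := by
            gcongr
            exact hmod2 h h0
        _ = _ := by
            rw [mul_pow, ← ENNReal.ofReal_pow (by positivity)]
            congr 2
            rw [← Real.rpow_natCast, ← Real.rpow_mul h0.le]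
            congr 1
            push_cast
            ring
    · intro h h0
      have := lin_q (μ := volume) (F := Dl h f) hq0
      unfold Dl at this
      rw [this]
      calc (eLpNorm (Dl h f) (ENNReal.ofReal q) volume) ^ q ≤
            (D * ENNReal.ofReal (h ^ ((1 - 3 * σ) / q))) ^ q := by
            gcongr
            exact hmodq h h0
        _ = _ := by
            rw [ENNReal.mul_rpow_of_nonneg _ _ hq0.le,
              ENNReal.ofReal_rpow_of_nonneg (by positivity) hq0.le, ← Real.rpow_mul h0.le,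
              div_mul_cancel₀ _ hq0.ne']
  have hfin := hC0 f D hyp
  have hle := eLpNorm_le_of_lin (μ := volume) (F := E f) hq0
    (B := (C0 : ℝ≥0∞) ^ (1 / q) * D) (by
      rw [ENNReal.mul_rpow_of_nonneg _ _ hq0.le, ← ENNReal.rpow_mul,
        one_div_mul_cancel hq0.ne', ENNReal.rpow_one]
      exact hfin)
  refine hle.trans (le_of_eq ?_)
  rw [hDN, ENNReal.coe_mul, ← ENNReal.coe_rpow_of_nonneg _ (by positivity : 0 ≤ 1 / q)]
  push_cast
  ring

/-- The case `q ≥ 4` (Tomas–Stein). -/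
theorem caseTS {q : ℝ} (hq : 4 ≤ q) : ∃ C : ℝ≥0, ∀ f : ℝ × ℝ → ℂ,
    Measurable f → (∀ x, x ∉ QQ → f x = 0) →
    eLpNorm (E f) (ENNReal.ofReal q) volume ≤ C * eLpNorm f (ENNReal.ofReal q) volume := by
  have hq0 : 0 < q := by linarith
  refine ⟨(4 * Real.pi ^ 4).toNNReal ^ (1 / q), fun f hf hs => ?_⟩
  set N : ℝ≥0∞ := eLpNorm f (ENNReal.ofReal q) volume with hN
  have h1q : (1 : ℝ≥0∞) ≤ ENNReal.ofReal q := by
    rw [← ENNReal.ofReal_one]
    exact ENNReal.ofReal_le_ofReal (by linarith)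
  have h2q : (2 : ℝ≥0∞) ≤ ENNReal.ofReal q := by
    rw [show (2 : ℝ≥0∞) = ENNReal.ofReal 2 by norm_num]
    exact ENNReal.ofReal_le_ofReal (by linarith)
  have h2 : eLpNorm f 2 volume ≤ N :=
    eLpNorm_le_one (support_QQ hs) h2q hf.aestronglyMeasurable vol_QQ
  have h1 : eLpNorm f 1 volume ≤ N :=
    eLpNorm_le_one (support_QQ hs) h1q hf.aestronglyMeasurable vol_QQ
  have hsup : ∀ ξ, ‖E f ξ‖ₑ ≤ N := by
    intro ξ
    refine le_trans ?_ h1
    rw [eLpNorm_one_eq_lintegral_enorm]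
    unfold E
    refine (enorm_integral_le_lintegral_enorm _).trans (le_of_eq ?_)
    refine lintegral_congr fun x => ?_
    rw [enorm_mul, enorm_u, one_mul]
  have hTS := tomas_stein hf
  rw [lin_2] at hTS
  have hq4 : 0 ≤ q - 4 := by linarith
  have e : ∀ y : ℝ≥0∞, y ^ q = y ^ (q - 4) * y ^ 4 := by
    intro y
    rw [← ENNReal.rpow_natCast y 4, ← ENNReal.rpow_add_of_nonneg _ _ hq4 (by norm_num)]
    congr 1
    push_cast
    ring
  refine eLpNorm_le_of_lin hq0 ?_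
  calc ∫⁻ ξ, ‖E f ξ‖ₑ ^ q ≤ ∫⁻ ξ, N ^ (q - 4) * ‖E f ξ‖ₑ ^ 4 := by
        refine lintegral_mono fun ξ => ?_
        dsimp only
        rw [e]
        gcongr
        exact hsup ξ
    _ = N ^ (q - 4) * ∫⁻ ξ, ‖E f ξ‖ₑ ^ 4 :=
        lintegral_const_mul _ ((measurable_E hf).enorm.pow_const 4)
    _ ≤ N ^ (q - 4) * (ENNReal.ofReal (4 * Real.pi ^ 4) * (N ^ 2) ^ 2) := by
        gcongr
        refine hTS.trans ?_
        gcongr
    _ = ENNReal.ofReal (4 * Real.pi ^ 4) * N ^ q := by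
        rw [e N, ← pow_mul]
        ring
    _ = _ := by
        rw [ENNReal.mul_rpow_of_nonneg _ _ hq0.le, ← ENNReal.coe_rpow_of_nonneg _ hq0.le,
          ← NNReal.rpow_mul, one_div_mul_cancel hq0.ne', NNReal.rpow_one]
        rfl

end Pool.Agent.Restr
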