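import Mathlib
import Pool.Agent.Restr.Wrap

/-!
# Removing boundedness by truncation, and rotating the direction
-/

namespace Pool.Agent.Restr

open MeasureTheory Set Filter ProbabilityTheory
open scoped ENNReal NNReal Topology

/-- Truncation of a real number. -/
noncomputable def clr (n : ℕ) (a : ℝ) : ℝ := max (-(n : ℝ)) (min a n)

theorem clr_lip (n : ℕ) (a b : ℝ) : |clr n a - clr n b| ≤ |a - b| := by
  unfold clr
  refine (abs_max_sub_max_le_max _ _ _ _).trans ?_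
  rw [sub_self, abs_zero]
  refine max_le (abs_nonneg _) ?_
  refine (abs_min_sub_min_le_max _ _ _ _).trans ?_
  rw [sub_self, abs_zero]
  exact max_le le_rfl (abs_nonneg _)

theorem clr_bound (n : ℕ) (a : ℝ) : |clr n a| ≤ n := by
  unfold clr
  rw [abs_le]
  constructor
  · exact le_max_left _ _
  · exact max_le (by have := Nat.cast_nonneg (α := ℝ) n; linarith) (min_le_right _ _)

theorem clr_eq {n : ℕ} {a : ℝ} (h : |a| ≤ n) : clr n a = a := by
  unfold clr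
  rw [abs_le] at h
  rw [min_eq_left h.2, max_eq_right h.1]

theorem continuous_clr (n : ℕ) : Continuous (clr n) := by
  unfold clr
  fun_prop

/-- Truncation of a complex number. -/
noncomputable def clc (n : ℕ) (z : ℂ) : ℂ := ⟨clr n z.re, clr n z.im⟩

theorem clc_lip (n : ℕ) (z w : ℂ) : ‖clc n z - clc n w‖ ≤ ‖z - w‖ := by
  rw [Complex.norm_def, Complex.norm_def]
  apply Real.sqrt_le_sqrt
  rw [Complex.normSq_apply, Complex.normSq_apply]
  unfold clc
  simp only [Complex.sub_re, Complex.sub_im]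
  have h1 := clr_lip n z.re w.re
  have h2 := clr_lip n z.im w.im
  have h3 := sq_le_sq.2 h1
  have h4 := sq_le_sq.2 h2
  nlinarith

theorem clc_zero (n : ℕ) : clc n 0 = 0 := by
  unfold clc
  have : clr n 0 = 0 := clr_eq (by simp)
  simp [this]
  rfl

theorem clc_norm_le (n : ℕ) (z : ℂ) : ‖clc n z‖ ≤ ‖z‖ := by
  have := clc_lip n z 0
  rwa [clc_zero, sub_zero, sub_zero] at this

theorem clc_bdd (n : ℕ) (z : ℂ) : ‖clc n z‖ ≤ n + n := by
  refine (Complex.norm_le_abs_re_add_abs_im _).trans ?_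
  exact add_le_add (clr_bound n z.re) (clr_bound n z.im)

theorem continuous_clc (n : ℕ) : Continuous (clc n) := by
  have h : clc n = fun z : ℂ => ((clr n z.re : ℝ) : ℂ) + ((clr n z.im : ℝ) : ℂ) * Complex.I := by
    funext z
    apply Complex.ext <;> simp [clc]
  rw [h]
  have h1 := continuous_clr n
  fun_prop

theorem tendsto_clc (z : ℂ) : Tendsto (fun n => clc n z) atTop (𝓝 z) := by
  apply tendsto_const_nhds.congr'
  obtain ⟨N, hN⟩ := exists_nat_ge ‖z‖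
  filter_upwards [eventually_ge_atTop N] with n hn
  have h1 : ‖z‖ ≤ n := hN.trans (by exact_mod_cast hn)
  unfold clc
  rw [clr_eq ((Complex.abs_re_le_norm z).trans h1), clr_eq ((Complex.abs_im_le_norm z).trans h1)]

theorem caseT {q σ : ℝ} (hq : 3 < q) (hq4 : q < 4) (hσ : 1 / 6 ≤ σ) (hσ' : σ ≤ 1 / 3) :
    ∃ C : ℝ≥0, ∀ f : ℝ × ℝ → ℂ,
    Measurable f → (∀ x, x ∉ QQ → f x = 0) → ∀ A : ℝ≥0,
    (∀ h : ℝ, 0 < h → h ≤ 1 → eLpNorm (Dl h f) 2 volume ≤ A * ENNReal.ofReal (h ^ σ)) →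
    (∀ h : ℝ, 0 < h → h ≤ 1 → eLpNorm (Dl h f) (ENNReal.ofReal q) volume ≤
      A * ENNReal.ofReal (h ^ ((1 - 3 * σ) / q))) →
    eLpNorm (E f) (ENNReal.ofReal q) volume ≤
      C * (eLpNorm f (ENNReal.ofReal q) volume + A) := by
  obtain ⟨C, hC⟩ := caseT_bdd hq hq4 hσ hσ'
  refine ⟨C + 1, fun f hf hs A hA2 hAq => ?_⟩
  have h1q : (1 : ℝ≥0∞) ≤ ENNReal.ofReal q := by
    rw [← ENNReal.ofReal_one]
    exact ENNReal.ofReal_le_ofReal (by linarith)
  by_cases htop : eLpNorm f (ENNReal.ofReal q) volume = ⊤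
  · rw [htop, top_add, ENNReal.mul_top (by simp)]
    exact le_top
  have h1 : eLpNorm f 1 volume ≤ eLpNorm f (ENNReal.ofReal q) volume :=
    eLpNorm_le_one (support_QQ hs) h1q hf.aestronglyMeasurable vol_QQ
  have hint : Integrable f := by
    rw [← memLp_one_iff_integrable]
    exact ⟨hf.aestronglyMeasurable, lt_of_le_of_lt h1 (lt_top_iff_ne_top.2 htop)⟩
  set fn : ℕ → ℝ × ℝ → ℂ := fun n x => clc n (f x) with hfn
  have hfnm : ∀ n, Measurable (fn n) := fun n => (continuous_clc n).measurable.comp hf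
  have hbound : ∀ n, eLpNorm (E (fn n)) (ENNReal.ofReal q) volume ≤
      C * (eLpNorm f (ENNReal.ofReal q) volume + A) := by
    intro n
    refine (hC (fn n) (hfnm n) ⟨_, fun x => clc_bdd n (f x)⟩ (fun x hx => ?_) A
      (fun h h0 h1 => ?_) (fun h h0 h1 => ?_)).trans ?_
    · simp only [hfn]
      rw [hs x hx, clc_zero]
    · refine le_trans ?_ (hA2 h h0 h1)
      refine eLpNorm_mono fun x => ?_
      exact clc_lip n _ _
    · refine le_trans ?_ (hAq h h0 h1)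
      refine eLpNorm_mono fun x => ?_
      exact clc_lip n _ _
    · gcongr
      exact eLpNorm_mono fun x => clc_norm_le n _
  have hlim : ∀ ξ, Tendsto (fun n => E (fn n) ξ) atTop (𝓝 (E f ξ)) := by
    intro ξ
    unfold E
    refine tendsto_integral_of_dominated_convergence (fun x => ‖f x‖) (fun n => ?_) hint.norm
      (fun n => Eventually.of_forall fun x => ?_) (Eventually.of_forall fun x => ?_)
    · exact ((measurable_u.comp (by fun_prop)).mul (hfnm n)).aestronglyMeasurable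
    · rw [norm_mul, norm_u, one_mul]
      exact clc_norm_le n _
    · exact (tendsto_clc (f x)).const_mul _
  have hfat := Lp.eLpNorm_lim_le_liminf_eLpNorm (μ := (volume : Measure (ℝ × ℝ × ℝ)))
    (p := ENNReal.ofReal q) (f := fun n => E (fn n))
    (fun n => (measurable_E (hfnm n)).aestronglyMeasurable) (E f)
    (Eventually.of_forall hlim)
  refine hfat.trans ?_
  refine (liminf_le_of_frequently_le' (Frequently.of_forall hbound)).trans ?_
  gcongr
  exact le_self_add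

/-! ### Rotation -/

/-- The rotation of the plane taking the second basis vector to `e`. -/
noncomputable def rot (e : ℝ × ℝ) : (ℝ × ℝ) →ₗ[ℝ] (ℝ × ℝ) :=
  Matrix.toLin (Module.Basis.finTwoProd ℝ) (Module.Basis.finTwoProd ℝ) !![e.2, e.1; -e.1, e.2]

theorem rot_apply (e x : ℝ × ℝ) : rot e x = (e.2 * x.1 + e.1 * x.2, -e.1 * x.1 + e.2 * x.2) := by
  unfold rot
  rw [Matrix.toLin_finTwoProd_apply]

theorem rot_det {e : ℝ × ℝ} (he : e.1 ^ 2 + e.2 ^ 2 = 1) : LinearMap.det (rot e) = 1 := by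
  unfold rot
  rw [LinearMap.det_toLin, Matrix.det_fin_two_of]
  linarith [he]

theorem continuous_rot (e : ℝ × ℝ) : Continuous (rot e) := by
  have : (rot e : ℝ × ℝ → ℝ × ℝ) = fun x => (e.2 * x.1 + e.1 * x.2, -e.1 * x.1 + e.2 * x.2) :=
    funext (rot_apply e)
  rw [this]
  fun_prop

theorem mp_rot {e : ℝ × ℝ} (he : e.1 ^ 2 + e.2 ^ 2 = 1) :
    MeasurePreserving (rot e) (volume : Measure (ℝ × ℝ)) volume := by
  refine ⟨(continuous_rot e).measurable, ?_⟩
  rw [Measure.map_linearMap_addHaar_eq_smul_addHaar volume (by rw [rot_det he]; norm_num),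
    rot_det he]
  simp

/-- The transposed rotation acts on the frequency variable. -/
theorem E_rot {e : ℝ × ℝ} (he : e.1 ^ 2 + e.2 ^ 2 = 1) {f : ℝ × ℝ → ℂ} (hf : Measurable f)
    (ξ : ℝ × ℝ × ℝ) :
    E f ξ = E (fun x => f (rot e x))
      (e.2 * ξ.1 - e.1 * ξ.2.1, e.1 * ξ.1 + e.2 * ξ.2.1, ξ.2.2) := by
  unfold E
  have hm : AEStronglyMeasurable (fun x : ℝ × ℝ =>
      u (ξ.1 * x.1 + (ξ.2.1 * x.2 + ξ.2.2 * (x.1 ^ 2 + x.2 ^ 2))) * f x)
      (Measure.map (rot e) volume) :=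
    ((measurable_u.comp (by fun_prop)).mul hf).aestronglyMeasurable
  conv_lhs => rw [← (mp_rot he).map_eq]
  rw [integral_map (continuous_rot e).measurable.aemeasurable hm]
  refine integral_congr_ae (Eventually.of_forall fun x => ?_)
  simp only [rot_apply]
  congr 2
  have h1 : (e.2 * x.1 + e.1 * x.2) ^ 2 + (-e.1 * x.1 + e.2 * x.2) ^ 2 = x.1 ^ 2 + x.2 ^ 2 := by
    calc (e.2 * x.1 + e.1 * x.2) ^ 2 + (-e.1 * x.1 + e.2 * x.2) ^ 2
        = (e.1 ^ 2 + e.2 ^ 2) * (x.1 ^ 2 + x.2 ^ 2) := by ring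
      _ = _ := by rw [he, one_mul]
  rw [h1]
  ring

/-- The rotation of the frequency space. -/
noncomputable def rot3 (e : ℝ × ℝ) (ξ : ℝ × ℝ × ℝ) : ℝ × ℝ × ℝ :=
  (e.2 * ξ.1 - e.1 * ξ.2.1, e.1 * ξ.1 + e.2 * ξ.2.1, ξ.2.2)

theorem lintegral_rot3 {e : ℝ × ℝ} (he : e.1 ^ 2 + e.2 ^ 2 = 1) {F : ℝ × ℝ × ℝ → ℝ≥0∞}
    (hF : Measurable F) : ∫⁻ ξ, F (rot3 e ξ) = ∫⁻ ξ, F ξ := by
  have key : ∀ G : ℝ × ℝ × ℝ → ℝ≥0∞, Measurable G →
      ∫⁻ ξ, G ξ = ∫⁻ t, ∫⁻ w : ℝ × ℝ, G (w.1, w.2, t) := by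
    intro G hG
    rw [Measure.volume_eq_prod (α := ℝ) (β := ℝ × ℝ), lintegral_prod_symm _ hG.aemeasurable]
    have hm1 : Measurable (fun y : ℝ × ℝ => ∫⁻ x, G (x, y)) :=
      Measurable.lintegral_prod_right' (f := fun q' : (ℝ × ℝ) × ℝ => G (q'.2, q'.1))
        (hG.comp (by fun_prop : Measurable fun q' : (ℝ × ℝ) × ℝ => (q'.2, q'.1)))
    rw [Measure.volume_eq_prod, lintegral_prod_symm _ hm1.aemeasurable]
    refine lintegral_congr fun t => ?_
    have hm2 : Measurable (fun w : ℝ × ℝ => G (w.1, w.2, t)) := by fun_prop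
    rw [lintegral_prod_symm _ hm2.aemeasurable]
  have hcont : Continuous (rot3 e) := by
    unfold rot3
    fun_prop
  have hFr : Measurable (fun ξ => F (rot3 e ξ)) := hF.comp hcont.measurable
  rw [key _ hFr, key F hF]
  refine lintegral_congr fun t => ?_
  set e' : ℝ × ℝ := (-e.1, e.2) with he'
  have he'1 : e'.1 ^ 2 + e'.2 ^ 2 = 1 := by
    rw [he']
    simp only
    linarith [he, neg_sq e.1]
  have hm2 : Measurable (fun w : ℝ × ℝ => F (w.1, w.2, t)) := by fun_prop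
  have h2 := (mp_rot he'1).lintegral_comp hm2
  rw [← h2]
  refine lintegral_congr fun w => ?_
  rw [rot_apply]
  unfold rot3
  simp only [he']
  congr 2
  · ring
  · congr 1
    ring

theorem eLpNorm_E_rot {e : ℝ × ℝ} (he : e.1 ^ 2 + e.2 ^ 2 = 1) {f : ℝ × ℝ → ℂ}
    (hf : Measurable f) {q : ℝ} (hq : 0 < q) :
    eLpNorm (E f) (ENNReal.ofReal q) volume =
      eLpNorm (E (fun x => f (rot e x))) (ENNReal.ofReal q) volume := by
  have hg : Measurable fun x => f (rot e x) := hf.comp (continuous_rot e).measurable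
  rw [eLpNorm_eq_lintegral_rpow_enorm_toReal (by simpa using hq) ENNReal.ofReal_ne_top,
    eLpNorm_eq_lintegral_rpow_enorm_toReal (by simpa using hq) ENNReal.ofReal_ne_top,
    ENNReal.toReal_ofReal hq.le]
  congr 1
  rw [← lintegral_rot3 he ((measurable_E hg).enorm.pow_const q)]
  refine lintegral_congr fun ξ => ?_
  rw [E_rot he hf]
  rfl

theorem rot_supp {e : ℝ × ℝ} (he : e.1 ^ 2 + e.2 ^ 2 = 1) {f : ℝ × ℝ → ℂ}
    (hs : ∀ x : ℝ × ℝ, 1 / 4 < x.1 ^ 2 + x.2 ^ 2 → f x = 0) (x : ℝ × ℝ) (hx : x ∉ QQ) :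
    f (rot e x) = 0 := by
  apply hs
  rw [rot_apply]
  have h1 : (e.2 * x.1 + e.1 * x.2) ^ 2 + (-e.1 * x.1 + e.2 * x.2) ^ 2 = x.1 ^ 2 + x.2 ^ 2 := by
    calc (e.2 * x.1 + e.1 * x.2) ^ 2 + (-e.1 * x.1 + e.2 * x.2) ^ 2
        = (e.1 ^ 2 + e.2 ^ 2) * (x.1 ^ 2 + x.2 ^ 2) := by ring
      _ = _ := by rw [he, one_mul]
  simp only
  rw [h1]
  by_contra hcon
  push Not at hcon
  apply hx
  have hb : ∀ a b : ℝ, a ^ 2 + b ^ 2 ≤ 1 / 4 → -(1 / 2) ≤ a ∧ a ≤ 1 / 2 := by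
    intro a b hab
    have ha : a ^ 2 ≤ (1 / 2) ^ 2 := by nlinarith [sq_nonneg b]
    have := abs_le_of_sq_le_sq ha (by norm_num)
    exact abs_le.1 this
  refine ⟨⟨(hb x.1 x.2 hcon).1, (hb x.1 x.2 hcon).2⟩, ⟨(hb x.2 x.1 ?_).1, (hb x.2 x.1 ?_).2⟩⟩ <;>
  linarith

theorem rot_Dl {e : ℝ × ℝ} (he : e.1 ^ 2 + e.2 ^ 2 = 1) {f : ℝ × ℝ → ℂ}
    (hf : Measurable f) (h : ℝ) (p : ℝ≥0∞) :
    eLpNorm (Dl h (fun x => f (rot e x))) p volume =
      eLpNorm (fun x => f (x + h • e) - f x) p volume := by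
  have hm : Measurable (fun x : ℝ × ℝ => f (x + h • e) - f x) :=
    (hf.comp (measurable_id.add_const _)).sub hf
  rw [← eLpNorm_comp_measurePreserving (p := p) hm.aestronglyMeasurable (mp_rot he)]
  congr 1
  funext x
  change f (rot e (x.1, x.2 + h)) - f (rot e x) = f (rot e x + h • e) - f (rot e x)
  congr 2
  rw [rot_apply, rot_apply]
  ext
  · simp only [Prod.fst_add, Prod.smul_fst, smul_eq_mul]
    ring
  · simp only [Prod.snd_add, Prod.smul_snd, smul_eq_mul]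
    ring

/-- The final statement. -/
theorem final {q σ : ℝ} (hq : 3 < q) (hσ : 1 / 6 ≤ σ) (hσ' : σ ≤ 1 / 3) : ∃ C : ℝ≥0,
    ∀ (f : ℝ × ℝ → ℂ) (e : ℝ × ℝ) (A : ℝ≥0), Measurable f →
    (∀ x : ℝ × ℝ, 1 / 4 < x.1 ^ 2 + x.2 ^ 2 → f x = 0) → e.1 ^ 2 + e.2 ^ 2 = 1 →
    (∀ h : ℝ, 0 < h → h ≤ 1 →
      eLpNorm (fun x => f (x + h • e) - f x) 2 volume ≤ A * ENNReal.ofReal (h ^ σ) ∧
      eLpNorm (fun x => f (x + h • e) - f x) (ENNReal.ofReal q) volume ≤
        A * ENNReal.ofReal (h ^ ((1 - 3 * σ) / q))) →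
    eLpNorm (E f) (ENNReal.ofReal q) volume ≤
      C * (eLpNorm f (ENNReal.ofReal q) volume + A) := by
  have hq0 : 0 < q := by linarith
  rcases lt_or_ge q 4 with hq4 | hq4
  · obtain ⟨C, hC⟩ := caseT hq hq4 hσ hσ'
    refine ⟨C, fun f e A hf hs he hA => ?_⟩
    set g : ℝ × ℝ → ℂ := fun x => f (rot e x) with hg
    have hgm : Measurable g := hf.comp (continuous_rot e).measurable
    have hgs : ∀ x, x ∉ QQ → g x = 0 := fun x hx => rot_supp he hs x hx
    have hEg := eLpNorm_E_rot he hf hq0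
    have hNg : eLpNorm g (ENNReal.ofReal q) volume = eLpNorm f (ENNReal.ofReal q) volume :=
      eLpNorm_comp_measurePreserving hf.aestronglyMeasurable (mp_rot he)
    rw [hEg, ← hNg]
    refine hC g hgm hgs A (fun h h0 h1 => ?_) (fun h h0 h1 => ?_)
    · rw [rot_Dl he hf]
      exact (hA h h0 h1).1
    · rw [rot_Dl he hf]
      exact (hA h h0 h1).2
  · obtain ⟨C, hC⟩ := caseTS hq4
    refine ⟨C, fun f e A hf hs he _ => ?_⟩
    have hsQ : ∀ x, x ∉ QQ → f x = 0 := by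
      intro x hx
      have h := rot_supp (e := (0, 1)) (by norm_num) hs x hx
      rw [rot_apply] at h
      simpa using h
    refine (hC f hf hsQ).trans ?_
    gcongr
    exact le_self_add

end Pool.Agent.Restr
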